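import Mathlib

/-!
Interface for the strong (explicit constant) version. Statements only (Work folder).
`M = log (q (T+2))`. `K = 3` extra height is harmless.
Blocks: S1 `ZeroFree`, S2 `Density`, S3a `LogDeriv`, S3b `GaussBound`, S4 `GaussPnt`,
S5 (assembly) `UniformPntStrong`.
-/

namespace Pool.Agent.Work.MP_b0c12c_nt.Itf2

open MeasureTheory ProbabilityTheory Filter Finset ArithmeticFunction
open scoped ENNReal NNReal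

/-- Block S1. Zero-free region of width `M^{-(1+kappa)}` with at most one exceptional character,
which is real with real zeros. -/
def ZeroFree : Prop :=
  ∀ κ : ℝ, 0 < κ → ∃ M0 : ℝ, ∀ (q : ℕ) [NeZero q] (T : ℝ), 1 ≤ T →
    M0 ≤ Real.log (q * (T + 2)) →
    ∃ χ₁ : DirichletCharacter ℂ q, ∀ χ : DirichletCharacter ℂ q, χ ≠ 1 →
      ∀ s : ℂ, 1 - (Real.log (q * (T + 2))) ^ (-(1 + κ)) ≤ s.re → |s.im| ≤ T →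
        χ.LFunction s = 0 → χ = χ₁ ∧ χ ^ 2 = 1 ∧ s.im = 0

/-- Block S2. Crude density theorem: number of characters mod `q` having a zero in the box. -/
def Density : Prop :=
  ∃ C : ℝ, 0 < C ∧ ∀ (q : ℕ) [NeZero q] (T σ : ℝ), 1 ≤ T → 1 / 2 ≤ σ → σ ≤ 1 →
    ∀ S : Finset (DirichletCharacter ℂ q),
      (∀ χ ∈ S, χ ≠ 1 ∧ ∃ s : ℂ, σ ≤ s.re ∧ |s.im| ≤ T ∧ χ.LFunction s = 0) →
      (S.card : ℝ) ≤ C * T * (Real.log (q * (T + 2))) ^ C * (q * (T + 2)) ^ (C * (1 - σ))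

/-- zero-free hypothesis -/
def ZF {q : ℕ} [NeZero q] (χ : DirichletCharacter ℂ q) (σ₀ T : ℝ) : Prop :=
  ∀ s : ℂ, σ₀ ≤ s.re → |s.im| ≤ T → χ.LFunction s ≠ 0

/-- Block S3a. Logarithmic derivative to the right of a zero-free region. -/
def LogDeriv : Prop :=
  ∃ C : ℝ, 0 < C ∧ ∀ (q : ℕ) [NeZero q] (χ : DirichletCharacter ℂ q), χ ≠ 1 →
    ∀ T σ₀ δ : ℝ, 1 ≤ T → 1 / 2 ≤ σ₀ → σ₀ ≤ 1 → 0 < δ → δ ≤ 1 / 2 → ZF χ σ₀ (T + 3) →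
      ∀ s : ℂ, σ₀ + δ ≤ s.re → s.re ≤ 2 → |s.im| ≤ T →
        ‖deriv χ.LFunction s / χ.LFunction s‖ ≤ C * Real.log (q * (T + 2)) / δ ^ 2

/-- Gaussian weighted sum `sum Lambda(n) chi(n) exp(-(log (n/Y))^2/(2 tau^2))` -/
noncomputable def gaussSum' {q : ℕ} (χ : DirichletCharacter ℂ q) (τ Y : ℝ) : ℂ :=
  ∑' n : ℕ, (Λ n : ℂ) * χ n * (Real.exp (-(Real.log (n / Y)) ^ 2 / (2 * τ ^ 2)) : ℂ)

/-- Block S3b. Contour shift. -/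
def GaussBound : Prop :=
  ∀ τ : ℝ, 0 < τ → τ ≤ 1 → ∃ C : ℝ, 0 < C ∧ ∀ (q : ℕ) [NeZero q]
    (χ : DirichletCharacter ℂ q), χ ≠ 1 →
    ∀ T σ₀ Y : ℝ, 1 ≤ T → 1 / 2 ≤ σ₀ → σ₀ ≤ 1 → 8 ≤ Y → ZF χ σ₀ (T + 3) →
      ‖gaussSum' χ τ Y‖ ≤ C * Real.log (q * (T + 2)) * (Real.log Y) ^ 2 *
        (Y ^ σ₀ + Y * Real.exp (-τ ^ 2 * T ^ 2 / 2))

/-- Block S4. Prime number theorem with Gaussian weight. -/
def GaussPnt : Prop :=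
  ∀ τ : ℝ, 0 < τ → ∀ ε : ℝ, 0 < ε → ∃ Y0 : ℝ, ∀ Y : ℝ, Y0 ≤ Y →
    (Summable fun n : ℕ => Λ n * Real.exp (-(Real.log (n / Y)) ^ 2 / (2 * τ ^ 2))) ∧
    ∑' n : ℕ, Λ n * Real.exp (-(Real.log (n / Y)) ^ 2 / (2 * τ ^ 2)) ≤
      (1 + ε) * (τ * Real.sqrt (2 * Real.pi) * Real.exp (τ ^ 2 / 2)) * Y

/-- S5 (assembly). -/
def UniformPntStrong : Prop :=
  ∀ κ : ℝ, 0 < κ → ∀ B : ℝ, ∀ ε : ℝ, 0 < ε → ∀ K : ℕ, ∃ z0 : ℕ, ∀ z : ℕ, z0 ≤ z →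
    ∃ q : ℕ, (q = primorial z ∨ ∃ p : ℕ, p.Prime ∧ K < p ∧ p ≤ z ∧ q * p = primorial z) ∧
      ∀ X : ℝ, 0 < X → (z : ℝ) ^ (1 + κ) ≤ Real.log X → Real.log X ≤ (z : ℝ) ^ B →
        ∀ a : ℕ, a.Coprime q →
        ∑ p ∈ (Ioc ⌊X⌋₊ ⌊2 * X⌋₊).filter (fun p => p.Prime ∧ p ≡ a [MOD q]), Real.log p
          ≤ (1 + ε) * X / q.totient

end Pool.Agent.Work.MP_b0c12c_nt.Itf2
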