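import Mathlib
import Pool.Agent.Work.MP_b0c12c_nt.Interface2

/-!
Removing the exceptional character: a good modulus among `primorial z` and `primorial z / p`.
-/

namespace Pool.Agent.Work.MP_b0c12c_nt.Exc

open Filter Finset DirichletCharacter
open scoped Topology
open Pool.Agent.Work.MP_b0c12c_nt.Itf2

/-- finitely many characters: no zero near one -/
theorem no_zero_near_one (N : ℕ) [NeZero N] : ∃ δ : ℝ, 0 < δ ∧ ∀ χ : DirichletCharacter ℂ N,
    χ ≠ 1 → ∀ β : ℝ, 1 - δ < β → χ.LFunction (β : ℂ) ≠ 0 := by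
  have h : ∀ᶠ β : ℝ in 𝓝 (1 : ℝ), ∀ χ : DirichletCharacter ℂ N, χ ≠ 1 →
      χ.LFunction (β : ℂ) ≠ 0 := by
    rw [Filter.eventually_all]
    intro χ
    rw [Filter.eventually_imp_distrib_left]
    intro hχ
    have hc : Continuous fun β : ℝ => χ.LFunction (β : ℂ) :=
      (differentiable_LFunction hχ).continuous.comp Complex.continuous_ofReal
    have h1 : χ.LFunction ((1 : ℝ) : ℂ) ≠ 0 := by
      simpa using LFunction_apply_one_ne_zero hχ
    exact hc.continuousAt.eventually_ne h1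
  rw [Metric.eventually_nhds_iff] at h
  obtain ⟨δ, hδ, h⟩ := h
  refine ⟨δ, hδ, fun χ hχ β hβ => ?_⟩
  by_cases hb : β < 1
  · refine h ?_ χ hχ
    rw [Real.dist_eq, abs_lt]
    constructor <;> linarith
  · exact LFunction_ne_zero_of_one_le_re χ (Or.inl hχ) (by simpa using not_lt.1 hb)

theorem euler_ne_zero {M : ℕ} (χ : DirichletCharacter ℂ M) (N : ℕ) {s : ℂ} (hs : 0 < s.re) :
    ∏ p ∈ N.primeFactors, (1 - χ p * (p : ℂ) ^ (-s)) ≠ 0 := by
  rw [Finset.prod_ne_zero_iff]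
  intro p hp h
  have hpp := Nat.prime_of_mem_primeFactors hp
  have h1 : χ p * (p : ℂ) ^ (-s) = 1 := by
    rw [sub_eq_zero] at h
    exact h.symm
  have h2 : ‖χ p * (p : ℂ) ^ (-s)‖ < 1 := by
    rw [norm_mul, Complex.norm_natCast_cpow_of_pos hpp.pos]
    have h3 : ‖χ (p : ZMod M)‖ ≤ 1 := χ.norm_le_one _
    have h4 : (p : ℝ) ^ (-s).re < 1 := by
      apply Real.rpow_lt_one_of_one_lt_of_neg
      · exact_mod_cast hpp.one_lt
      · simpa using hs
    have h5 : (0 : ℝ) ≤ (p : ℝ) ^ (-s).re := by positivity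
    calc ‖χ (p : ZMod M)‖ * (p : ℝ) ^ (-s).re ≤ 1 * (p : ℝ) ^ (-s).re := by gcongr
      _ < 1 := by linarith
  rw [h1] at h2
  simp at h2

/-- zeros of the lift -/
theorem lift_zero_iff {M N : ℕ} [NeZero M] [NeZero N] (h : M ∣ N) (χ : DirichletCharacter ℂ M)
    (hχ : χ ≠ 1) {s : ℂ} (hs : 0 < s.re) :
    (changeLevel h χ).LFunction s = 0 ↔ χ.LFunction s = 0 := by
  rw [LFunction_changeLevel h χ (Or.inl hχ), mul_eq_zero]
  have := euler_ne_zero χ N hs
  tauto

/-- `log (Q (z+5))` is at least `log (z+5)` and at most `2z` -/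
theorem logQ_ge (z : ℕ) : Real.log ((z : ℝ) + 5) ≤ Real.log ((primorial z : ℝ) * ((z : ℝ) + 5)) := by
  have h1 : (1 : ℝ) ≤ (primorial z : ℝ) := by exact_mod_cast primorial_pos z
  apply Real.log_le_log (by positivity)
  nlinarith [Nat.cast_nonneg (α := ℝ) z]

/-- The good modulus. -/
theorem exists_modulus (hZF : ZeroFree) (κ : ℝ) (hκ : 0 < κ) (K : ℕ) :
    ∃ z0 : ℕ, ∀ z : ℕ, z0 ≤ z →
      ∃ q : ℕ, ∃ _ : NeZero q,
        (q = primorial z ∨ ∃ p : ℕ, p.Prime ∧ K < p ∧ p ≤ z ∧ q * p = primorial z) ∧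
        ∀ χ : DirichletCharacter ℂ q, χ ≠ 1 →
          ZF χ (1 - (Real.log ((primorial z : ℝ) * ((z : ℝ) + 5))) ^ (-(1 + κ))) ((z : ℝ) + 3) := by
  obtain ⟨M0, hM0⟩ := hZF κ hκ
  haveI : NeZero (primorial K) := ⟨primorial_ne_zero K⟩
  obtain ⟨δ, hδ, hδ'⟩ := no_zero_near_one (primorial K)
  have hlog : Tendsto (fun z : ℕ => Real.log ((primorial z : ℝ) * ((z : ℝ) + 5))) atTop atTop := by
    refine tendsto_atTop_mono logQ_ge ?_
    exact Real.tendsto_log_atTop.comp (tendsto_atTop_add_const_right _ _ tendsto_natCast_atTop_atTop)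
  have hpow : Tendsto (fun z : ℕ =>
      (Real.log ((primorial z : ℝ) * ((z : ℝ) + 5))) ^ (-(1 + κ))) atTop (𝓝 0) :=
    (tendsto_rpow_neg_atTop (by linarith : (0 : ℝ) < 1 + κ)).comp hlog
  have hev := (hlog.eventually_ge_atTop M0).and ((hpow.eventually_lt_const hδ).and
    ((hpow.eventually_lt_const (show (0 : ℝ) < 1 / 2 by norm_num)).and (eventually_ge_atTop K)))
  obtain ⟨z0, hz0⟩ := eventually_atTop.1 hev
  refine ⟨z0, fun z hz => ?_⟩
  obtain ⟨h1, h2, h3, h4⟩ := hz0 z hz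
  haveI hQ : NeZero (primorial z) := ⟨primorial_ne_zero z⟩
  have e5 : ((z : ℝ) + 3 + 2) = (z : ℝ) + 5 := by ring
  have hM := hM0 (primorial z) ((z : ℝ) + 3) (by have := Nat.cast_nonneg (α := ℝ) z; linarith)
    (by rw [e5]; exact h1)
  rw [e5] at hM
  obtain ⟨χ₁, hχ₁⟩ := hM
  set w : ℝ := (Real.log ((primorial z : ℝ) * ((z : ℝ) + 5))) ^ (-(1 + κ)) with hw
  by_cases hex : ∃ χ : DirichletCharacter ℂ (primorial z), χ ≠ 1 ∧ ∃ s : ℂ, 1 - w ≤ s.re ∧
      |s.im| ≤ (z : ℝ) + 3 ∧ χ.LFunction s = 0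
  · obtain ⟨χ, hχ, s, hs1, hs2, hs3⟩ := hex
    obtain ⟨e1, e2, e3⟩ := hχ₁ χ hχ s hs1 hs2 hs3
    have hspos : 0 < s.re := by linarith
    have hse : s = ((s.re : ℝ) : ℂ) := by
      apply Complex.ext
      · simp
      · simp [e3]
    -- a large prime in the conductor
    have hprime : ∃ p : ℕ, p.Prime ∧ p ∣ χ.conductor ∧ K < p := by
      by_contra hcon
      push Not at hcon
      have hd1 : χ.conductor ∣ primorial z := χ.conductor_dvd_level
      have hsq : Squarefree χ.conductor := (squarefree_primorial z).squarefree_of_dvd hd1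
      have hd2 : χ.conductor ∣ primorial K := by
        rw [← Nat.prod_primeFactors_of_squarefree hsq]
        apply Finset.prod_dvd_prod_of_subset
        intro p hp
        rw [Finset.mem_filter, Finset.mem_range]
        have hpp := Nat.prime_of_mem_primeFactors hp
        exact ⟨Nat.lt_succ_of_le (hcon p hpp (Nat.dvd_of_mem_primeFactors hp)), hpp⟩
      have hd3 : primorial K ∣ primorial z := primorial_dvd_primorial h4
      obtain ⟨hdvd, ψ, hψ⟩ := (mem_conductorSet_iff_conductor_dvd χ hd3).2 hd2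
      have hψ1 : ψ ≠ 1 := by
        rintro rfl
        exact hχ (by rw [hψ, map_one])
      rw [hψ, lift_zero_iff hdvd ψ hψ1 hspos, hse] at hs3
      exact hδ' ψ hψ1 s.re (by linarith) hs3
    obtain ⟨p, hp, hpd, hpK⟩ := hprime
    have hpz : p ≤ z := by
      rw [← hp.dvd_primorial_iff]
      exact hpd.trans χ.conductor_dvd_level
    have hpQ : p ∣ primorial z := hp.dvd_primorial_iff.2 hpz
    obtain ⟨q, hq⟩ := hpQ
    have hq0 : q ≠ 0 := by
      rintro rfl
      exact primorial_ne_zero z (by simpa using hq)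
    haveI : NeZero q := ⟨hq0⟩
    have hqQ : q ∣ primorial z := ⟨p, by rw [hq]; ring⟩
    refine ⟨q, ‹_›, Or.inr ⟨p, hp, hpK, hpz, by rw [hq]; ring⟩, ?_⟩
    intro φ hφ t ht1 ht2 ht3
    have htpos : 0 < t.re := by linarith
    have hl : (changeLevel hqQ φ).LFunction t = 0 := (lift_zero_iff hqQ φ hφ htpos).2 ht3
    have hne : changeLevel hqQ φ ≠ 1 := by
      rw [Ne, changeLevel_eq_one_iff]
      exact hφ
    obtain ⟨f1, -, -⟩ := hχ₁ _ hne t ht1 ht2 hl
    have hcond : χ.conductor = φ.conductor := by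
      rw [e1, ← f1, conductor_changeLevel]
    have hpq : p ∣ q := by
      rw [hcond] at hpd
      exact hpd.trans φ.conductor_dvd_level
    have hpp : p * p ∣ primorial z := by
      rw [hq]
      exact Nat.mul_dvd_mul_left p hpq
    have := squarefree_primorial z p hpp
    exact hp.one_lt.ne' (Nat.isUnit_iff.1 this)
  · refine ⟨primorial z, hQ, Or.inl rfl, ?_⟩
    intro χ hχ s hs1 hs2 hs3
    exact hex ⟨χ, hχ, s, hs1, hs2, hs3⟩

end Pool.Agent.Work.MP_b0c12c_nt.Exc
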