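import Mathlib

/-! The adjoint kernel `p(u) = ∫_0^∞ exp(-u x - Ein x) dx` of the Buchstab equation. -/

namespace Pool.Agent.Work.MP_b0c12c_nt

open MeasureTheory Filter Finset Topology

/-- `k t = (1 - exp (-t)) / t` -/
noncomputable def kk (t : ℝ) : ℝ := ∫ s in (0 : ℝ)..1, Real.exp (-t * s)

lemma continuous_kk : Continuous kk := by
  unfold kk
  apply intervalIntegral.continuous_parametric_intervalIntegral_of_continuous' (by fun_prop)

lemma mul_kk (t : ℝ) : t * kk t = 1 - Real.exp (-t) := by
  have h : ∫ s in (0 : ℝ)..1, t * Real.exp (-t * s) = (-Real.exp (-t * 1)) - (-Real.exp (-t * 0)) := by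
    apply intervalIntegral.integral_eq_sub_of_hasDerivAt (f := fun s => -Real.exp (-t * s))
    · intro s _
      have h1 : HasDerivAt (fun s => -t * s) (-t) s := by simpa using (hasDerivAt_id s).const_mul (-t)
      have h2 := h1.exp.neg
      refine h2.congr_deriv ?_
      ring
    · exact (by fun_prop : Continuous fun s => t * Real.exp (-t * s)).intervalIntegrable _ _
  rw [intervalIntegral.integral_const_mul] at h
  unfold kk
  rw [h]
  simp
  ring

lemma kk_nonneg (t : ℝ) : 0 ≤ kk t := by
  unfold kk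
  apply intervalIntegral.integral_nonneg (by norm_num)
  intro s _
  positivity

lemma kk_le_one {t : ℝ} (ht : 0 ≤ t) : kk t ≤ 1 := by
  unfold kk
  have h : ∫ s in (0 : ℝ)..1, Real.exp (-t * s) ≤ ∫ s in (0 : ℝ)..1, (1 : ℝ) := by
    apply intervalIntegral.integral_mono_on (by norm_num)
    · exact (by fun_prop : Continuous fun s => Real.exp (-t * s)).intervalIntegrable _ _
    · simp
    · intro s hs
      apply Real.exp_le_one_iff.mpr
      nlinarith [hs.1]
  simpa using h

lemma kk_antitone : Antitone kk := by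
  intro a b hab
  unfold kk
  apply intervalIntegral.integral_mono_on (by norm_num)
  · exact (by fun_prop : Continuous fun s => Real.exp (-b * s)).intervalIntegrable _ _
  · exact (by fun_prop : Continuous fun s => Real.exp (-a * s)).intervalIntegrable _ _
  · intro s hs
    apply Real.exp_le_exp.mpr
    nlinarith [hs.1]

/-- `Ein x = ∫_0^x (1 - e^{-t})/t dt` -/
noncomputable def Ein (x : ℝ) : ℝ := ∫ t in (0 : ℝ)..x, kk t

lemma hasDerivAt_Ein (x : ℝ) : HasDerivAt Ein (kk x) x := by
  unfold Ein
  exact (continuous_kk.integral_hasStrictDerivAt 0 x).hasDerivAt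

lemma Ein_zero : Ein 0 = 0 := by simp [Ein]

lemma Ein_nonneg {x : ℝ} (hx : 0 ≤ x) : 0 ≤ Ein x :=
  intervalIntegral.integral_nonneg hx fun t _ => kk_nonneg t

lemma Ein_le {x : ℝ} (hx : 0 ≤ x) : Ein x ≤ x := by
  unfold Ein
  have h : ∫ s in (0 : ℝ)..x, kk s ≤ ∫ s in (0 : ℝ)..x, (1 : ℝ) := by
    apply intervalIntegral.integral_mono_on hx (continuous_kk.intervalIntegrable _ _) (by simp)
    intro s hs
    exact kk_le_one hs.1
  simpa using h

lemma continuous_Ein : Continuous Ein :=
  continuous_iff_continuousAt.mpr fun x => (hasDerivAt_Ein x).continuousAt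

/-- `g x = exp (-Ein x)` -/
noncomputable def gg (x : ℝ) : ℝ := Real.exp (-Ein x)

lemma gg_pos (x : ℝ) : 0 < gg x := Real.exp_pos _

lemma continuous_gg : Continuous gg := by
  unfold gg
  exact Real.continuous_exp.comp continuous_Ein.neg

lemma gg_le_one {x : ℝ} (hx : 0 ≤ x) : gg x ≤ 1 :=
  Real.exp_le_one_iff.mpr (by linarith [Ein_nonneg hx])

lemma one_sub_gg_le {x : ℝ} (hx : 0 ≤ x) : 1 - gg x ≤ x := by
  unfold gg
  have := Real.add_one_le_exp (-Ein x)
  linarith [Ein_le hx]

lemma hasDerivAt_gg (x : ℝ) : HasDerivAt gg (-kk x * gg x) x := by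
  have h := (hasDerivAt_Ein x).neg.exp
  refine h.congr_deriv ?_
  unfold gg
  simp only [Pi.neg_apply]
  ring

/-- `(x g)' = e^{-x} g` -/
lemma hasDerivAt_xgg (x : ℝ) : HasDerivAt (fun x => x * gg x) (Real.exp (-x) * gg x) x := by
  have h := (hasDerivAt_id x).mul (hasDerivAt_gg x)
  refine h.congr_deriv ?_
  have h1 := mul_kk x
  simp only [id_eq]
  have : x * (-kk x * gg x) = -(x * kk x) * gg x := by ring
  rw [this, h1]
  ring

/-- `p(u)` -/
noncomputable def pp (u : ℝ) : ℝ := ∫ x in Set.Ioi (0 : ℝ), Real.exp (-u * x) * gg x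

lemma integrable_pp {u : ℝ} (hu : 0 < u) :
    IntegrableOn (fun x => Real.exp (-u * x) * gg x) (Set.Ioi 0) := by
  have h1 : IntegrableOn (fun x => Real.exp (-u * x)) (Set.Ioi 0) := by
    exact integrableOn_exp_mul_Ioi (neg_neg_of_pos hu) (0 : ℝ)
  refine Integrable.mono' h1 ?_ ?_
  · exact ((by fun_prop : Continuous fun x => Real.exp (-u * x)).mul continuous_gg).aestronglyMeasurable
  · rw [ae_restrict_iff' measurableSet_Ioi]
    refine ae_of_all _ fun x hx => ?_
    rw [Real.norm_of_nonneg (mul_nonneg (Real.exp_pos _).le (gg_pos x).le)]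
    have := gg_le_one (le_of_lt hx)
    have := Real.exp_pos (-u * x)
    nlinarith

lemma x_exp_le {c x : ℝ} (hc : 0 < c) : x * Real.exp (-c * x) ≤ (2 / c) * Real.exp (-(c / 2) * x) := by
  have h1 : c / 2 * x ≤ Real.exp (c / 2 * x) := by
    have := Real.add_one_le_exp (c / 2 * x)
    linarith
  have h2 : x ≤ 2 / c * Real.exp (c / 2 * x) := by
    have h3 : x = 2 / c * (c / 2 * x) := by field_simp
    rw [h3]
    apply mul_le_mul_of_nonneg_left _ (by positivity)
    rw [← h3]
    exact h1
  calc x * Real.exp (-c * x) ≤ (2 / c * Real.exp (c / 2 * x)) * Real.exp (-c * x) :=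
        mul_le_mul_of_nonneg_right h2 (Real.exp_pos _).le
    _ = (2 / c) * Real.exp (-(c / 2) * x) := by
        rw [mul_assoc, ← Real.exp_add]
        congr 2
        ring

lemma pp_hasDeriv {u : ℝ} (hu : 0 < u) :
    IntegrableOn (fun x => -x * (Real.exp (-u * x) * gg x)) (Set.Ioi 0) ∧
    HasDerivAt pp (∫ x in Set.Ioi (0 : ℝ), -x * (Real.exp (-u * x) * gg x)) u := by
  unfold pp IntegrableOn
  apply hasDerivAt_integral_of_dominated_loc_of_deriv_le
    (F := fun u x => Real.exp (-u * x) * gg x)
    (F' := fun u x => -x * (Real.exp (-u * x) * gg x))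
    (bound := fun x => (2 / (u / 2)) * Real.exp (-((u / 2) / 2) * x))
    (s := Set.Ioi (u / 2)) (Ioi_mem_nhds (by linarith))
  · filter_upwards with v
    exact ((by fun_prop : Continuous fun x => Real.exp (-v * x)).mul continuous_gg).aestronglyMeasurable
  · exact integrable_pp hu
  · exact ((by fun_prop : Continuous fun x : ℝ => -x).mul
      ((by fun_prop : Continuous fun x => Real.exp (-u * x)).mul continuous_gg)).aestronglyMeasurable
  · rw [ae_restrict_iff' measurableSet_Ioi]
    refine ae_of_all _ fun x hx v hv => ?_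
    have hx0 : (0 : ℝ) < x := hx
    have hv0 : u / 2 < v := hv
    rw [norm_mul, norm_neg, Real.norm_of_nonneg hx0.le,
      Real.norm_of_nonneg (mul_nonneg (Real.exp_pos _).le (gg_pos x).le)]
    have h1 := x_exp_le (c := u / 2) (x := x) (by linarith)
    have h2 : Real.exp (-v * x) ≤ Real.exp (-(u / 2) * x) := by
      apply Real.exp_le_exp.mpr
      nlinarith
    have h3 := gg_le_one hx0.le
    have h4 := gg_pos x
    have h5 : Real.exp (-v * x) * gg x ≤ Real.exp (-(u / 2) * x) := by
      have := Real.exp_pos (-v * x)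
      nlinarith
    calc x * (Real.exp (-v * x) * gg x) ≤ x * Real.exp (-(u / 2) * x) :=
          mul_le_mul_of_nonneg_left h5 hx0.le
      _ ≤ _ := h1
  · apply Integrable.const_mul
    exact integrableOn_exp_mul_Ioi (by linarith) (0 : ℝ)
  · rw [ae_restrict_iff' measurableSet_Ioi]
    refine ae_of_all _ fun x hx v hv => ?_
    have h1 : HasDerivAt (fun v => -v * x) (-x) v := by
      simpa using ((hasDerivAt_id v).neg).mul_const x
    have h2 := (h1.exp).mul_const (gg x)
    refine h2.congr_deriv ?_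
    ring

lemma xgg_nonneg {x : ℝ} (hx : 0 ≤ x) : 0 ≤ x * gg x := mul_nonneg hx (gg_pos x).le

/-- integration by parts: `u * ∫ x e^{-ux} g = p (u+1)` -/
lemma pp_parts {u : ℝ} (hu : 0 < u) :
    u * (∫ x in Set.Ioi (0 : ℝ), -x * (Real.exp (-u * x) * gg x)) = -pp (u + 1) := by
  have hI := (pp_hasDeriv hu).1
  have hJ := integrable_pp (u := u + 1) (by linarith)
  have hder : ∀ x ∈ Set.Ici (0 : ℝ), HasDerivAt (fun x => Real.exp (-u * x) * (x * gg x))
      (u * (-x * (Real.exp (-u * x) * gg x)) + Real.exp (-(u + 1) * x) * gg x) x := by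
    intro x _
    have h1 : HasDerivAt (fun x => -u * x) (-u) x := by
      simpa using (hasDerivAt_id x).const_mul (-u)
    have h2 := h1.exp.mul (hasDerivAt_xgg x)
    refine h2.congr_deriv ?_
    have h3 : Real.exp (-(u + 1) * x) = Real.exp (-u * x) * Real.exp (-x) := by
      rw [← Real.exp_add]
      congr 1
      ring
    rw [h3]
    ring
  have hlim : Tendsto (fun x => Real.exp (-u * x) * (x * gg x)) atTop (𝓝 0) := by
    have h1 : Tendsto (fun x : ℝ => (2 / u) * Real.exp (-(u / 2) * x)) atTop (𝓝 ((2 / u) * 0)) := by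
      apply Tendsto.const_mul
      apply Real.tendsto_exp_atBot.comp
      apply Tendsto.const_mul_atTop_of_neg (by linarith) tendsto_id
    rw [mul_zero] at h1
    refine squeeze_zero' ?_ ?_ h1
    · filter_upwards [eventually_ge_atTop 0] with x hx
      exact mul_nonneg (Real.exp_pos _).le (xgg_nonneg hx)
    · filter_upwards [eventually_ge_atTop 0] with x hx
      have h2 := x_exp_le (c := u) (x := x) hu
      have h3 := gg_le_one hx
      have h4 := Real.exp_pos (-u * x)
      have h5 : Real.exp (-u * x) * (x * gg x) ≤ Real.exp (-u * x) * (x * 1) := by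
        apply mul_le_mul_of_nonneg_left _ h4.le
        apply mul_le_mul_of_nonneg_left h3 hx
      linarith
  have hmain := integral_Ioi_of_hasDerivAt_of_tendsto' hder
    ((hI.const_mul u).add hJ) hlim
  rw [integral_add (hI.const_mul u) hJ, integral_const_mul] at hmain
  unfold pp
  simp only [zero_mul, mul_zero, sub_zero] at hmain
  linarith

lemma hasDerivAt_pp {u : ℝ} (hu : 0 < u) : HasDerivAt pp (-pp (u + 1) / u) u := by
  refine (pp_hasDeriv hu).2.congr_deriv ?_
  rw [eq_div_iff hu.ne', mul_comm]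
  exact pp_parts hu

lemma pp_pos {u : ℝ} (hu : 0 < u) : 0 < pp u := by
  unfold pp
  rw [setIntegral_pos_iff_support_of_nonneg_ae]
  · have h1 : (Function.support fun x => Real.exp (-u * x) * gg x) = Set.univ := by
      ext x
      simp [(gg_pos x).ne']
    rw [h1, Set.univ_inter]
    simp
  · refine ae_of_all _ fun x => ?_
    exact mul_nonneg (Real.exp_pos _).le (gg_pos x).le
  · exact integrable_pp hu

lemma integral_exp_neg_u {u : ℝ} (hu : 0 < u) : ∫ x in Set.Ioi (0 : ℝ), Real.exp (-u * x) = 1 / u := by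
  rw [integral_exp_mul_Ioi (by linarith)]
  simp

lemma pp_le {u : ℝ} (hu : 0 < u) : pp u ≤ 1 / u := by
  rw [← integral_exp_neg_u hu]
  unfold pp
  apply setIntegral_mono_on (integrable_pp hu) (integrableOn_exp_mul_Ioi (by linarith) 0)
    measurableSet_Ioi
  intro x hx
  have := gg_le_one (le_of_lt hx)
  have := Real.exp_pos (-u * x)
  nlinarith

lemma integral_x_exp {u : ℝ} (hu : 0 < u) :
    IntegrableOn (fun x => x * Real.exp (-u * x)) (Set.Ioi 0) ∧
    ∫ x in Set.Ioi (0 : ℝ), x * Real.exp (-u * x) ≤ 4 / u ^ 2 := by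
  have h0 : IntegrableOn (fun x => (2 / u) * Real.exp (-(u / 2) * x)) (Set.Ioi 0) :=
    (integrableOn_exp_mul_Ioi (by linarith) (0 : ℝ)).const_mul _
  have h1 : IntegrableOn (fun x => x * Real.exp (-u * x)) (Set.Ioi 0) := by
    refine Integrable.mono' h0 ?_ ?_
    · exact (by fun_prop : Continuous fun x => x * Real.exp (-u * x)).aestronglyMeasurable
    · rw [ae_restrict_iff' measurableSet_Ioi]
      refine ae_of_all _ fun x hx => ?_
      rw [Real.norm_of_nonneg (mul_nonneg (le_of_lt hx) (Real.exp_pos _).le)]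
      exact x_exp_le hu
  refine ⟨h1, ?_⟩
  have h2 : ∫ x in Set.Ioi (0 : ℝ), x * Real.exp (-u * x) ≤
      ∫ x in Set.Ioi (0 : ℝ), (2 / u) * Real.exp (-(u / 2) * x) :=
    setIntegral_mono_on h1 h0 measurableSet_Ioi fun x _ => x_exp_le hu
  rw [integral_const_mul, integral_exp_neg_u (by linarith : 0 < u / 2)] at h2
  refine h2.trans (le_of_eq ?_)
  field_simp
  norm_num

lemma pp_ge {u : ℝ} (hu : 0 < u) : 1 / u - 4 / u ^ 2 ≤ pp u := by
  have h1 := integral_x_exp hu
  have h2 : 1 / u - pp u ≤ 4 / u ^ 2 := by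
    rw [← integral_exp_neg_u hu]
    unfold pp
    rw [← integral_sub (integrableOn_exp_mul_Ioi (by linarith) 0) (integrable_pp hu)]
    refine le_trans ?_ h1.2
    apply setIntegral_mono_on _ h1.1 measurableSet_Ioi
    · intro x hx
      have h3 := one_sub_gg_le (le_of_lt hx)
      have h4 := Real.exp_pos (-u * x)
      have h5 : Real.exp (-u * x) - Real.exp (-u * x) * gg x = (1 - gg x) * Real.exp (-u * x) := by ring
      rw [h5]
      exact mul_le_mul_of_nonneg_right h3 h4.le
    · exact (integrableOn_exp_mul_Ioi (by linarith) 0).sub (integrable_pp hu)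
  linarith

lemma continuousOn_pp : ContinuousOn pp (Set.Ioi 0) := fun _ hu =>
  (hasDerivAt_pp hu).continuousAt.continuousWithinAt

lemma intervalIntegrable_pp {a b : ℝ} (ha : 0 < a) (hb : 0 < b) :
    IntervalIntegrable pp volume a b := by
  apply ContinuousOn.intervalIntegrable
  apply continuousOn_pp.mono
  intro x hx
  rw [Set.mem_uIcc] at hx
  rcases hx with hx | hx
  · exact lt_of_lt_of_le ha hx.1
  · exact lt_of_lt_of_le hb hx.1

lemma hasDerivAt_int_pp {u : ℝ} (hu : 0 < u) :
    HasDerivAt (fun u => ∫ v in (1 : ℝ)..u, pp v) (pp u) u := by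
  apply intervalIntegral.integral_hasDerivAt_right (intervalIntegrable_pp one_pos hu)
  · exact continuousOn_pp.stronglyMeasurableAtFilter isOpen_Ioi u hu
  · exact (hasDerivAt_pp hu).continuousAt

/-- the conserved quantity for the constant function -/
lemma pp_one_identity {u : ℝ} (hu : 0 < u) : u * pp u + ∫ v in u..(u + 1), pp v = 1 := by
  obtain ⟨G, hG⟩ : ∃ G : ℝ → ℝ, G = fun u => u * pp u + ((∫ v in (1 : ℝ)..(u + 1), pp v) -
    ∫ v in (1 : ℝ)..u, pp v) := ⟨_, rfl⟩
  have hGeq : ∀ u, 0 < u → G u = u * pp u + ∫ v in u..(u + 1), pp v := by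
    intro u hu
    rw [hG]
    simp only
    rw [intervalIntegral.integral_interval_sub_left (intervalIntegrable_pp one_pos (by linarith))
      (intervalIntegrable_pp one_pos hu)]
  have hder : ∀ u, 0 < u → HasDerivAt G 0 u := by
    intro u hu
    have h1 : HasDerivAt (fun u => ∫ v in (1 : ℝ)..(u + 1), pp v) (pp (u + 1)) u := by
      have h2 := hasDerivAt_int_pp (u := u + 1) (by linarith)
      have h3 : HasDerivAt (fun u : ℝ => u + 1) 1 u := (hasDerivAt_id u).add_const 1
      exact (h2.comp u h3).congr_deriv (mul_one _)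
    have h5 := ((hasDerivAt_id u).mul (hasDerivAt_pp hu)).add (h1.sub (hasDerivAt_int_pp hu))
    rw [hG]
    refine h5.congr_deriv ?_
    simp only [id_eq]
    field_simp
    ring
  have hconst : ∀ v, u ≤ v → G v = G u := by
    intro v huv
    have hc : ContinuousOn G (Set.Icc u v) := fun x hx =>
      (hder x (lt_of_lt_of_le hu hx.1)).continuousAt.continuousWithinAt
    exact constant_of_has_deriv_right_zero hc
      (fun x hx => (hder x (lt_of_lt_of_le hu hx.1)).hasDerivWithinAt) v ⟨huv, le_refl _⟩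
  have hbd : ∀ v, 0 < v → |G v - 1| ≤ 5 / v := by
    intro v hv
    rw [hGeq v hv]
    have h1 := pp_le hv
    have h2 := pp_ge hv
    have h3 : 0 ≤ ∫ w in v..(v + 1), pp w := by
      apply intervalIntegral.integral_nonneg (by linarith)
      intro w hw
      exact (pp_pos (lt_of_lt_of_le hv hw.1)).le
    have h4 : ∫ w in v..(v + 1), pp w ≤ ∫ w in v..(v + 1), 1 / v := by
      apply intervalIntegral.integral_mono_on (by linarith)
        (intervalIntegrable_pp hv (by linarith)) (by simp)
      intro w hw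
      refine (pp_le (lt_of_lt_of_le hv hw.1)).trans ?_
      exact one_div_le_one_div_of_le hv hw.1
    simp only [intervalIntegral.integral_const, add_sub_cancel_left, smul_eq_mul, one_mul] at h4
    have h5 : v * pp v ≤ 1 := by
      calc v * pp v ≤ v * (1 / v) := mul_le_mul_of_nonneg_left h1 hv.le
        _ = 1 := by field_simp
    have h6 : 1 - 4 / v ≤ v * pp v := by
      calc 1 - 4 / v = v * (1 / v - 4 / v ^ 2) := by field_simp
        _ ≤ v * pp v := mul_le_mul_of_nonneg_left h2 hv.le
    rw [abs_le]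
    have h7 : 5 / v = 4 / v + 1 / v := by ring
    have h8 : 0 < 1 / v := by positivity
    have h9 : 0 < 4 / v := by positivity
    constructor
    · rw [h7]; linarith
    · rw [h7]; linarith
  have h1 : |G u - 1| ≤ 0 := by
    apply le_of_forall_pos_le_add
    intro ε hε
    have h2 := hbd (max u (5 / ε)) (lt_of_lt_of_le hu (le_max_left _ _))
    rw [hconst _ (le_max_left _ _)] at h2
    refine h2.trans ?_
    rw [zero_add, div_le_iff₀ (lt_of_lt_of_le hu (le_max_left _ _))]
    have h3 := le_max_right u (5 / ε)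
    calc (5 : ℝ) = ε * (5 / ε) := by field_simp
      _ ≤ _ := mul_le_mul_of_nonneg_left h3 hε.le
  rw [← hGeq u hu]
  have h2 := abs_nonpos_iff.mp h1
  linarith

/-- `x g(x) → p(1)` -/
lemma tendsto_xgg : Tendsto (fun x => x * gg x) atTop (𝓝 (pp 1)) := by
  have h1 := intervalIntegral_tendsto_integral_Ioi (0 : ℝ) (integrable_pp (u := 1) one_pos) tendsto_id
  refine h1.congr fun x => ?_
  simp only [id_eq]
  have h2 : ∫ t in (0 : ℝ)..x, Real.exp (-1 * t) * gg t = x * gg x - 0 * gg 0 := by
    apply intervalIntegral.integral_eq_sub_of_hasDerivAt (f := fun x => x * gg x)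
    · intro t _
      have := hasDerivAt_xgg t
      simpa using this
    · exact ((by fun_prop : Continuous fun t : ℝ => Real.exp (-1 * t)).mul
        continuous_gg).intervalIntegrable _ _
  rw [h2]
  ring

end Pool.Agent.Work.MP_b0c12c_nt
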