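import Mathlib
import Pool.Agent.Work.MP_b0c12c_nt.Kern

/-! The solution `b` of `b'(u) = b(u-1)/u`, `b = 1` on `[0,1]`, and the sign changes of
`b(v) - C (v+1)`, `C = p(1)`. -/

namespace Pool.Agent.Work.MP_b0c12c_nt

open MeasureTheory Filter Finset Topology

/-- iterates -/
noncomputable def bs : ℕ → ℝ → ℝ
  | 0 => fun _ => 1
  | (n + 1) => fun u => 1 + ∫ v in (1 : ℝ)..(max u 1), bs n (v - 1) / max v 1

lemma continuous_max_one : Continuous fun v : ℝ => max v 1 := continuous_id.max continuous_const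

lemma max_one_ne (v : ℝ) : max v 1 ≠ 0 := (lt_of_lt_of_le one_pos (le_max_right v 1)).ne'

lemma continuous_bs (n : ℕ) : Continuous (bs n) := by
  induction n with
  | zero => exact continuous_const
  | succ n ih =>
    unfold bs
    apply Continuous.add continuous_const
    have h1 : Continuous fun v : ℝ => bs n (v - 1) / max v 1 :=
      (ih.comp (continuous_id.sub continuous_const)).div continuous_max_one max_one_ne
    have h2 : Continuous fun u => ∫ v in (1 : ℝ)..u, bs n (v - 1) / max v 1 :=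
      intervalIntegral.continuous_primitive (fun a b => h1.intervalIntegrable a b) 1
    exact h2.comp continuous_max_one

lemma bs_of_le_one (n : ℕ) {u : ℝ} (hu : u ≤ 1) : bs n u = 1 := by
  cases n with
  | zero => rfl
  | succ n =>
    unfold bs
    simp [max_eq_right hu]

lemma bs_succ_eq (n : ℕ) : ∀ u : ℝ, u ≤ n + 1 → bs (n + 1) u = bs n u := by
  induction n with
  | zero =>
    intro u hu
    rw [bs_of_le_one 1 (by simpa using hu)]
    rfl
  | succ n ih =>
    intro u hu
    have h1 : bs (n + 1 + 1) u = 1 + ∫ v in (1 : ℝ)..(max u 1), bs (n + 1) (v - 1) / max v 1 := rfl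
    have h2 : bs (n + 1) u = 1 + ∫ v in (1 : ℝ)..(max u 1), bs n (v - 1) / max v 1 := rfl
    rw [h1, h2]
    congr 1
    apply intervalIntegral.integral_congr
    intro v hv
    rw [Set.uIcc_of_le (le_max_right _ _)] at hv
    simp only
    rw [ih (v - 1)]
    rcases max_cases u 1 with hm | hm
    · rw [hm.1] at hv
      have := hv.2
      push_cast at hu
      linarith
    · rw [hm.1] at hv
      have := hv.2
      have : (0 : ℝ) ≤ n := Nat.cast_nonneg n
      linarith

/-- basic data on `[0, N]` -/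
structure IsB (N : ℕ) (b : ℝ → ℝ) : Prop where
  cont : Continuous b
  one : ∀ u ≤ 1, b u = 1
  eq : ∀ u : ℝ, 1 ≤ u → u ≤ N → b u = 1 + ∫ v in (1 : ℝ)..u, b (v - 1) / max v 1

lemma exists_isB (N : ℕ) : ∃ b, IsB N b := by
  refine ⟨bs (N + 1), continuous_bs _, fun u hu => bs_of_le_one _ hu, ?_⟩
  intro u hu huN
  have h1 : bs (N + 1) u = 1 + ∫ v in (1 : ℝ)..(max u 1), bs N (v - 1) / max v 1 := rfl
  rw [h1, max_eq_left hu]
  congr 1
  apply intervalIntegral.integral_congr
  intro v hv
  rw [Set.uIcc_of_le hu] at hv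
  simp only
  rw [bs_succ_eq N (v - 1)]
  linarith [hv.2]

variable {N : ℕ} {b : ℝ → ℝ}

lemma IsB.right_deriv (hb : IsB N b) {u : ℝ} (h1 : 1 ≤ u) (h2 : u < N) :
    HasDerivWithinAt b (b (u - 1) / u) (Set.Ici u) u := by
  have hc : Continuous fun v : ℝ => b (v - 1) / max v 1 :=
    (hb.cont.comp (continuous_id.sub continuous_const)).div continuous_max_one max_one_ne
  have h3 : HasDerivAt (fun u => 1 + ∫ v in (1 : ℝ)..u, b (v - 1) / max v 1) (b (u - 1) / u) u := by
    have h4 := (hc.integral_hasStrictDerivAt 1 u).hasDerivAt.const_add 1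
    refine h4.congr_deriv ?_
    rw [max_eq_left h1]
  refine h3.hasDerivWithinAt.congr_of_eventuallyEq ?_ (hb.eq u h1 h2.le)
  have : Set.Ico u (N : ℝ) ∈ 𝓝[Set.Ici u] u := Ico_mem_nhdsGE h2
  filter_upwards [this] with v hv
  exact hb.eq v (h1.trans hv.1) hv.2.le

/-- `v b(v) = ∫_0^v b + ∫_0^{v-1} b` -/
lemma IsB.volterra (hb : IsB N b) {v : ℝ} (h1 : 1 ≤ v) (h2 : v ≤ N) :
    v * b v = (∫ s in (0 : ℝ)..v, b s) + ∫ s in (0 : ℝ)..(v - 1), b s := by
  obtain ⟨G, hG⟩ : ∃ G : ℝ → ℝ, G = fun v => v * b v - (∫ s in (0 : ℝ)..v, b s) -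
    ∫ s in (0 : ℝ)..(v - 1), b s := ⟨_, rfl⟩
  have hP : ∀ v, HasDerivAt (fun v => ∫ s in (0 : ℝ)..v, b s) (b v) v := fun v =>
    (hb.cont.integral_hasStrictDerivAt 0 v).hasDerivAt
  have hP2 : ∀ v, HasDerivAt (fun v => ∫ s in (0 : ℝ)..(v - 1), b s) (b (v - 1)) v := fun v => by
    have h3 : HasDerivAt (fun u : ℝ => u - 1) 1 v := (hasDerivAt_id v).sub_const 1
    exact ((hP (v - 1)).comp v h3).congr_deriv (mul_one _)
  have hGc : Continuous G := by
    rw [hG]
    apply Continuous.sub
    · apply Continuous.sub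
      · exact continuous_id.mul hb.cont
      · exact continuous_iff_continuousAt.mpr fun v => (hP v).continuousAt
    · exact continuous_iff_continuousAt.mpr fun v => (hP2 v).continuousAt
  have hder : ∀ x ∈ Set.Ico (1 : ℝ) v, HasDerivWithinAt G 0 (Set.Ici x) x := by
    intro x hx
    have h3 := hb.right_deriv hx.1 (lt_of_lt_of_le hx.2 h2)
    have h4 := (((hasDerivAt_id x).hasDerivWithinAt (s := Set.Ici x)).mul h3).sub
      (hP x).hasDerivWithinAt |>.sub (hP2 x).hasDerivWithinAt
    rw [hG]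
    refine h4.congr_deriv ?_
    have hx0 : x ≠ 0 := by linarith [hx.1]
    simp only [id_eq]
    field_simp
    ring
  have h5 := constant_of_has_deriv_right_zero hGc.continuousOn hder v ⟨h1, le_refl _⟩
  have h6 : G 1 = 0 := by
    rw [hG]
    simp only
    have h7 : ∫ s in (0 : ℝ)..1, b s = ∫ s in (0 : ℝ)..1, (1 : ℝ) := by
      apply intervalIntegral.integral_congr
      intro s hs
      rw [Set.uIcc_of_le zero_le_one] at hs
      exact hb.one s hs.2
    rw [h7, hb.one 1 le_rfl]
    simp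
  rw [h6, hG] at h5
  simp only at h5
  linarith

/-- `D v = b v - C (v+1)` -/
noncomputable def DD (b : ℝ → ℝ) (v : ℝ) : ℝ := b v - pp 1 * (v + 1)

/-- weight -/
noncomputable def ww (v : ℝ) : ℝ := pp (v + 2) / (v + 1)

lemma continuousOn_ww : ContinuousOn ww (Set.Ici 0) := by
  apply ContinuousOn.div
  · apply continuousOn_pp.comp (by fun_prop)
    intro x hx
    have : (0 : ℝ) ≤ x := hx
    show (0 : ℝ) < x + 2
    linarith
  · fun_prop
  · intro x hx
    have : (0 : ℝ) ≤ x := hx
    linarith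

lemma ww_pos {v : ℝ} (hv : 0 ≤ v) : 0 < ww v := div_pos (pp_pos (by linarith)) (by linarith)

/-- the conserved quantity vanishes -/
lemma IsB.conserved (hb : IsB N b) {u : ℝ} (h1 : 1 ≤ u) (h2 : u ≤ N) :
    DD b u * pp (u + 1) + ∫ v in (u - 1)..u, DD b v * ww v = 0 := by
  have hDc : Continuous (DD b) := by
    unfold DD
    exact hb.cont.sub (by fun_prop)
  have hDw : ContinuousOn (fun v => DD b v * ww v) (Set.Ici 0) := hDc.continuousOn.mul continuousOn_ww
  have hint : ∀ a c : ℝ, 0 ≤ a → 0 ≤ c → IntervalIntegrable (fun v => DD b v * ww v) volume a c := by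
    intro a c ha hc
    apply ContinuousOn.intervalIntegrable
    apply hDw.mono
    intro x hx
    rw [Set.mem_uIcc] at hx
    rcases hx with hx | hx
    · exact ha.trans hx.1
    · exact hc.trans hx.1
  -- extend the weight continuously to the whole line
  obtain ⟨W, hW⟩ : ∃ W : ℝ → ℝ, W = fun v => DD b (max v 0) * ww (max v 0) := ⟨_, rfl⟩
  have hWc : Continuous W := by
    rw [hW]
    have : Continuous fun v : ℝ => max v 0 := continuous_id.max continuous_const
    exact ContinuousOn.comp_continuous (g := fun v => DD b v * ww v) hDw this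
      fun x => le_max_right x 0
  have hWeq : ∀ v, 0 ≤ v → W v = DD b v * ww v := by
    intro v hv
    rw [hW]
    simp only
    rw [max_eq_left hv]
  have hP : ∀ v, HasDerivAt (fun v => ∫ s in (0 : ℝ)..v, W s) (W v) v := fun v =>
    (hWc.integral_hasStrictDerivAt 0 v).hasDerivAt
  have hP2 : ∀ v, HasDerivAt (fun v => ∫ s in (0 : ℝ)..(v - 1), W s) (W (v - 1)) v := fun v => by
    have h3 : HasDerivAt (fun u : ℝ => u - 1) 1 v := (hasDerivAt_id v).sub_const 1
    exact ((hP (v - 1)).comp v h3).congr_deriv (mul_one _)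
  obtain ⟨G, hG⟩ : ∃ G : ℝ → ℝ, G = fun u => DD b u * pp (u + 1) + ((∫ s in (0 : ℝ)..u, W s) -
    ∫ s in (0 : ℝ)..(u - 1), W s) := ⟨_, rfl⟩
  have hppd : ∀ u : ℝ, 0 < u + 1 → HasDerivAt (fun u => pp (u + 1)) (-pp (u + 2) / (u + 1)) u := by
    intro u hu
    have h3 : HasDerivAt (fun u : ℝ => u + 1) 1 u := (hasDerivAt_id u).add_const 1
    refine ((hasDerivAt_pp hu).comp u h3).congr_deriv ?_
    rw [mul_one]
    congr 3
    ring
  have hGc : ContinuousOn G (Set.Icc 1 u) := by
    rw [hG]
    apply ContinuousOn.add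
    · apply hDc.continuousOn.mul
      intro x hx
      exact (hppd x (by linarith [hx.1])).continuousAt.continuousWithinAt
    · apply Continuous.continuousOn
      apply Continuous.sub
      · exact continuous_iff_continuousAt.mpr fun v => (hP v).continuousAt
      · exact continuous_iff_continuousAt.mpr fun v => (hP2 v).continuousAt
  have hder : ∀ x ∈ Set.Ico (1 : ℝ) u, HasDerivWithinAt G 0 (Set.Ici x) x := by
    intro x hx
    have hx1 := hx.1
    have h3 := hb.right_deriv hx.1 (lt_of_lt_of_le hx.2 h2)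
    have h4 : HasDerivWithinAt (DD b) (b (x - 1) / x - pp 1) (Set.Ici x) x := by
      have h5 : HasDerivAt (fun v : ℝ => pp 1 * (v + 1)) (pp 1) x := by
        simpa using ((hasDerivAt_id x).add_const 1).const_mul (pp 1)
      exact h3.sub h5.hasDerivWithinAt
    have h6 := (h4.mul (hppd x (by linarith)).hasDerivWithinAt).add
      ((hP x).hasDerivWithinAt.sub (hP2 x).hasDerivWithinAt)
    rw [hG]
    refine h6.congr_deriv ?_
    rw [hWeq x (by linarith), hWeq (x - 1) (by linarith)]
    unfold ww DD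
    have hx0 : x ≠ 0 := by linarith
    have hx2 : x + 1 ≠ 0 := by linarith
    have e1 : x - 1 + 2 = x + 1 := by ring
    have e2 : x - 1 + 1 = x := by ring
    rw [e1, e2]
    field_simp
    ring
  have h5 := constant_of_has_deriv_right_zero hGc hder u ⟨h1, le_refl _⟩
  have hGu : G u = DD b u * pp (u + 1) + ∫ v in (u - 1)..u, DD b v * ww v := by
    rw [hG]
    simp only
    rw [intervalIntegral.integral_interval_sub_left (hWc.intervalIntegrable _ _)
      (hWc.intervalIntegrable _ _)]
    congr 1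
    apply intervalIntegral.integral_congr
    intro v hv
    rw [Set.uIcc_of_le (by linarith)] at hv
    exact hWeq v (by linarith [hv.1])
  rw [← hGu, h5, hG]
  simp only
  have e0 : (1 : ℝ) - 1 = 0 := by norm_num
  rw [e0, intervalIntegral.integral_same, sub_zero]
  have hi : ∫ s in (0 : ℝ)..1, W s = ∫ s in (0 : ℝ)..1, (pp (s + 2) / (s + 1) - pp 1 * pp (s + 2)) := by
    apply intervalIntegral.integral_congr
    intro s hs
    rw [Set.uIcc_of_le zero_le_one] at hs
    simp only
    rw [hWeq s hs.1]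
    unfold DD ww
    rw [hb.one s hs.2]
    have : s + 1 ≠ 0 := by linarith [hs.1]
    field_simp
  have hcp2 : ContinuousOn (fun s : ℝ => pp (s + 2)) (Set.uIcc 0 1) := by
    apply continuousOn_pp.comp (by fun_prop)
    intro x hx
    rw [Set.uIcc_of_le zero_le_one] at hx
    show (0 : ℝ) < x + 2
    linarith [hx.1]
  have hcp3 : ContinuousOn (fun s : ℝ => pp (s + 2) / (s + 1)) (Set.uIcc 0 1) := by
    apply hcp2.div (by fun_prop)
    intro x hx
    rw [Set.uIcc_of_le zero_le_one] at hx
    linarith [hx.1]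
  rw [hi, intervalIntegral.integral_sub hcp3.intervalIntegrable
    (hcp2.intervalIntegrable.const_mul _), intervalIntegral.integral_const_mul]
  have h7 : ∫ s in (0 : ℝ)..1, pp (s + 2) / (s + 1) = (-pp (1 + 1)) - (-pp (0 + 1)) := by
    apply intervalIntegral.integral_eq_sub_of_hasDerivAt (f := fun u => -pp (u + 1))
    · intro s hs
      rw [Set.uIcc_of_le zero_le_one] at hs
      refine (hppd s (by linarith [hs.1])).neg.congr_deriv ?_
      ring
    · exact hcp3.intervalIntegrable
  have h8 : ∫ s in (0 : ℝ)..1, pp (s + 2) = ∫ s in (2 : ℝ)..(2 + 1), pp s := by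
    rw [intervalIntegral.integral_comp_add_right (fun s => pp s)]
    norm_num
  have h9 := pp_one_identity (u := 2) (by norm_num)
  rw [h7, h8]
  unfold DD
  rw [hb.one 1 le_rfl]
  have e3 : (1 : ℝ) + 1 = 2 := by norm_num
  have e4 : (0 : ℝ) + 1 = 1 := by norm_num
  rw [e3, e4]
  linear_combination (-pp 1) * h9

lemma continuous_DD (hb : IsB N b) : Continuous (DD b) := by
  unfold DD
  exact hb.cont.sub (by fun_prop)

lemma IsB.step_down (hb : IsB N b) {m : ℕ} (hm : 1 ≤ m) (hmN : m + 1 ≤ N)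
    (h : ∀ u ∈ Set.Ico (m : ℝ) (m + 1), DD b u = 0) :
    ∀ u ∈ Set.Ico ((m : ℝ) - 1) m, DD b u = 0 := by
  intro u hu
  have hm' : (1 : ℝ) ≤ m := by exact_mod_cast hm
  have hmN' : (m : ℝ) + 1 ≤ N := by exact_mod_cast hmN
  have h1 := hb.right_deriv (u := u + 1) (by linarith [hu.1]) (by linarith [hu.2])
  have h2 : HasDerivWithinAt b (pp 1) (Set.Ici (u + 1)) (u + 1) := by
    have h5 : HasDerivAt (fun v : ℝ => pp 1 * (v + 1)) (pp 1) (u + 1) := by
      simpa using ((hasDerivAt_id (u + 1)).add_const 1).const_mul (pp 1)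
    have hval : ∀ v ∈ Set.Ico (m : ℝ) (m + 1), b v = pp 1 * (v + 1) := by
      intro v hv
      have := h v hv
      unfold DD at this
      linarith
    refine h5.hasDerivWithinAt.congr_of_eventuallyEq ?_
      (hval (u + 1) ⟨by linarith [hu.1], by linarith [hu.2]⟩)
    have : Set.Ico (u + 1) ((m : ℝ) + 1) ∈ 𝓝[Set.Ici (u + 1)] (u + 1) :=
      Ico_mem_nhdsGE (by linarith [hu.2])
    filter_upwards [this] with v hv
    exact hval v ⟨by linarith [hu.1, hv.1], hv.2⟩
  have h3 := (uniqueDiffWithinAt_Ici (u + 1)).eq_deriv _ h1 h2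
  have h4 : u + 1 ≠ 0 := by linarith [hu.1]
  rw [add_sub_cancel_right, div_eq_iff h4] at h3
  unfold DD
  rw [h3]
  ring

/-- the sign change: `b(v) < C (v+1)` for some `v` in every interval `[n-1, n]` -/
lemma IsB.deficit (hb : IsB N b) {n : ℕ} (h1 : 1 ≤ n) (h2 : n ≤ N) :
    ∃ v : ℝ, (n : ℝ) - 1 ≤ v ∧ v ≤ n ∧ b v < pp 1 * (v + 1) := by
  by_contra hcon
  push Not at hcon
  have hn : (1 : ℝ) ≤ n := by exact_mod_cast h1
  have hN : (n : ℝ) ≤ N := by exact_mod_cast h2
  have hD : ∀ v ∈ Set.Icc ((n : ℝ) - 1) n, 0 ≤ DD b v := by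
    intro v hv
    have := hcon v hv.1 hv.2
    unfold DD
    linarith
  have hc := hb.conserved hn hN
  have hp := pp_pos (u := (n : ℝ) + 1) (by linarith)
  have hi0 : 0 ≤ ∫ v in ((n : ℝ) - 1)..n, DD b v * ww v := by
    apply intervalIntegral.integral_nonneg (by linarith)
    intro v hv
    exact mul_nonneg (hD v hv) (ww_pos (by linarith [hv.1])).le
  have hDn := hD n ⟨by linarith, le_refl _⟩
  have hi : ∫ v in ((n : ℝ) - 1)..n, DD b v * ww v = 0 := by
    have := mul_nonneg hDn hp.le
    linarith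
  have hzero : ∀ v ∈ Set.Ico ((n : ℝ) - 1) n, DD b v = 0 := by
    by_contra hne
    push Not at hne
    obtain ⟨v, hv, hvne⟩ := hne
    have hvpos : 0 < DD b v := lt_of_le_of_ne (hD v ⟨hv.1, hv.2.le⟩) (Ne.symm hvne)
    have hcont : ContinuousOn (fun v => DD b v * ww v) (Set.Icc ((n : ℝ) - 1) n) := by
      apply (continuous_DD hb).continuousOn.mul
      apply continuousOn_ww.mono
      intro x hx
      have := hx.1
      show (0 : ℝ) ≤ x
      linarith
    have hpos : 0 < ∫ v in ((n : ℝ) - 1)..n, DD b v * ww v := by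
      apply intervalIntegral.integral_pos (by linarith) hcont
      · intro x hx
        exact mul_nonneg (hD x ⟨hx.1.le, hx.2⟩) (ww_pos (by linarith [hx.1])).le
      · exact ⟨v, ⟨hv.1, hv.2.le⟩, mul_pos hvpos (ww_pos (by linarith [hv.1]))⟩
    linarith
  have hind : ∀ m : ℕ, m + 1 ≤ N → (∀ u ∈ Set.Ico (m : ℝ) (m + 1), DD b u = 0) →
      ∀ u ∈ Set.Ico (0 : ℝ) 1, DD b u = 0 := by
    intro m
    induction m with
    | zero =>
      intro _ h
      simpa using h
    | succ m ih =>
      intro hm h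
      apply ih (by omega)
      have h3 := hb.step_down (m := m + 1) (by omega) hm h
      intro u hu
      apply h3 u
      push_cast
      constructor
      · linarith [hu.1]
      · exact hu.2
  have hfin := hind (n - 1) (by omega) (by
    intro u hu
    apply hzero u
    have : ((n - 1 : ℕ) : ℝ) = (n : ℝ) - 1 := by
      rw [Nat.cast_sub h1]
      simp
    rw [this] at hu
    constructor
    · exact hu.1
    · linarith [hu.2])
  have e1 := hfin 0 ⟨le_rfl, one_pos⟩
  have e2 := hfin (1 / 2) ⟨by norm_num, by norm_num⟩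
  unfold DD at e1 e2
  rw [hb.one 0 (by norm_num)] at e1
  rw [hb.one (1 / 2) (by norm_num)] at e2
  linarith

end Pool.Agent.Work.MP_b0c12c_nt
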