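import Mathlib

/-! Integral form of the Gronwall inequality by Picard iteration. -/

namespace Pool.Agent.Work.MP_b0c12c_nt

open MeasureTheory Filter Finset Topology

/-- Picard iterates -/
noncomputable def pic (η K c : ℝ) (n : ℕ) (s : ℝ) : ℝ :=
  η * ∑ j ∈ range n, (c * (s - 1)) ^ j / (j.factorial : ℝ) + K * (c * (s - 1)) ^ n / (n.factorial : ℝ)

lemma pic_one (η K c : ℝ) (n : ℕ) : pic η K c (n + 1) 1 = η := by
  unfold pic
  rw [Finset.sum_range_succ']
  simp

lemma hasDerivAt_pow_div (c : ℝ) (j : ℕ) (s : ℝ) :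
    HasDerivAt (fun s => (c * (s - 1)) ^ (j + 1) / ((j + 1).factorial : ℝ))
      (c * ((c * (s - 1)) ^ j / (j.factorial : ℝ))) s := by
  have h1 : HasDerivAt (fun s => c * (s - 1)) c s := by
    simpa using ((hasDerivAt_id s).sub_const 1).const_mul c
  have h2 := (h1.pow (j + 1)).div_const ((j + 1).factorial : ℝ)
  refine h2.congr_deriv ?_
  have hf : ((j.factorial : ℝ)) ≠ 0 := by positivity
  rw [Nat.factorial_succ]
  push_cast
  have hj : ((j : ℝ) + 1) ≠ 0 := by positivity
  field_simp

lemma hasDerivAt_pic (η K c : ℝ) (n : ℕ) (s : ℝ) :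
    HasDerivAt (pic η K c (n + 1)) (c * pic η K c n s) s := by
  have h1 : HasDerivAt (fun s => ∑ j ∈ range (n + 1), (c * (s - 1)) ^ j / (j.factorial : ℝ))
      (∑ j ∈ range n, c * ((c * (s - 1)) ^ j / (j.factorial : ℝ))) s := by
    have h2 : (fun s : ℝ => ∑ j ∈ range (n + 1), (c * (s - 1)) ^ j / (j.factorial : ℝ)) =
        fun s => ∑ j ∈ range n, (c * (s - 1)) ^ (j + 1) / ((j + 1).factorial : ℝ) + 1 := by
      funext s
      rw [Finset.sum_range_succ']
      simp
    rw [h2]
    apply HasDerivAt.add_const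
    apply HasDerivAt.fun_sum
    intro j _
    exact hasDerivAt_pow_div c j s
  have h3 := (h1.const_mul η).add ((hasDerivAt_pow_div c n s).const_mul K)
  have h4 : pic η K c (n + 1) = fun s => η * ∑ j ∈ range (n + 1), (c * (s - 1)) ^ j / (j.factorial : ℝ)
      + K * ((c * (s - 1)) ^ (n + 1) / ((n + 1).factorial : ℝ)) := by
    funext s
    unfold pic
    rw [mul_div_assoc]
  rw [h4]
  refine h3.congr_deriv ?_
  unfold pic
  rw [← Finset.mul_sum]
  ring

lemma continuous_pic (η K c : ℝ) (n : ℕ) : Continuous (pic η K c n) := by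
  unfold pic
  fun_prop

/-- Gronwall inequality, integral form. -/
lemma gronwall_int {f : ℝ → ℝ} {V η K c : ℝ} (hc : 0 ≤ c)
    (hfb : ∀ v ∈ Set.Icc 1 V, f v ≤ K) (hint : IntervalIntegrable f volume 1 V)
    (h : ∀ v ∈ Set.Icc 1 V, f v ≤ η + c * ∫ s in (1 : ℝ)..v, f s) (hη : 0 ≤ η) :
    ∀ v ∈ Set.Icc 1 V, f v ≤ η * Real.exp (c * (v - 1)) := by
  have key : ∀ n : ℕ, ∀ v ∈ Set.Icc 1 V, f v ≤ pic η K c n v := by
    intro n
    induction n with
    | zero =>
      intro v hv
      simpa [pic] using hfb v hv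
    | succ n ih =>
      intro v hv
      have h1 : ∫ s in (1 : ℝ)..v, f s ≤ ∫ s in (1 : ℝ)..v, pic η K c n s := by
        apply intervalIntegral.integral_mono_on hv.1
        · apply hint.mono_set
          rw [Set.uIcc_of_le hv.1, Set.uIcc_of_le (hv.1.trans hv.2)]
          exact Set.Icc_subset_Icc_right hv.2
        · exact (continuous_pic η K c n).intervalIntegrable _ _
        · intro s hs
          exact ih s ⟨hs.1, hs.2.trans hv.2⟩
      have h2 : ∫ s in (1 : ℝ)..v, c * pic η K c n s = pic η K c (n + 1) v - pic η K c (n + 1) 1 := by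
        apply intervalIntegral.integral_eq_sub_of_hasDerivAt
        · intro s _
          exact hasDerivAt_pic η K c n s
        · exact ((continuous_pic η K c n).const_mul c).intervalIntegrable _ _
      rw [intervalIntegral.integral_const_mul, pic_one] at h2
      have h3 := h v hv
      have h4 := mul_le_mul_of_nonneg_left h1 hc
      linarith
  intro v hv
  have hv0 : 0 ≤ c * (v - 1) := mul_nonneg hc (by linarith [hv.1])
  have h1 : Tendsto (fun n : ℕ => η * Real.exp (c * (v - 1)) + K * ((c * (v - 1)) ^ n / (n.factorial : ℝ)))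
      atTop (𝓝 (η * Real.exp (c * (v - 1)) + K * 0)) := by
    apply Tendsto.const_add
    apply Tendsto.const_mul
    exact FloorSemiring.tendsto_pow_div_factorial_atTop (c * (v - 1))
  rw [mul_zero, add_zero] at h1
  refine ge_of_tendsto' h1 ?_
  intro n
  refine (key n v hv).trans ?_
  unfold pic
  rw [mul_div_assoc]
  have h5 := Real.sum_le_exp_of_nonneg hv0 n
  have h6 := mul_le_mul_of_nonneg_left h5 hη
  linarith

end Pool.Agent.Work.MP_b0c12c_nt
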