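import Mathlib

/-! Rough numbers (coprime to the primorial of `z`), Mertens type sums. -/

namespace Pool.Agent.Work.MP_b0c12c_nt

open Filter Finset Topology ArithmeticFunction

/-- rough numbers up to `n` -/
def Ro (z n : ℕ) : Finset ℕ := (Icc 1 n).filter (fun m => m.Coprime (primorial z))

lemma mem_Ro {z n m : ℕ} : m ∈ Ro z n ↔ (1 ≤ m ∧ m ≤ n) ∧ m.Coprime (primorial z) := by
  unfold Ro
  rw [mem_filter, mem_Icc]

lemma mem_pair {z n d e : ℕ} : (d ∈ Ro z n ∧ e ∈ Ro z (n / d)) ↔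
    (1 ≤ d ∧ 1 ≤ e ∧ d * e ≤ n ∧ d.Coprime (primorial z) ∧ e.Coprime (primorial z)) := by
  rw [mem_Ro, mem_Ro]
  constructor
  · rintro ⟨⟨⟨h1, h2⟩, h3⟩, ⟨h4, h5⟩, h6⟩
    refine ⟨h1, h4, ?_, h3, h6⟩
    rw [mul_comm]
    exact (Nat.le_div_iff_mul_le h1).mp h5
  · rintro ⟨h1, h2, h3, h4, h5⟩
    refine ⟨⟨⟨h1, ?_⟩, h4⟩, ⟨h2, ?_⟩, h5⟩
    · calc d = d * 1 := (mul_one d).symm
        _ ≤ d * e := Nat.mul_le_mul_left d h2
        _ ≤ n := h3
    · rw [Nat.le_div_iff_mul_le h1, mul_comm]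
      exact h3

lemma sum_swap (z n : ℕ) (g : ℕ → ℕ → ℝ) :
    ∑ d ∈ Ro z n, ∑ e ∈ Ro z (n / d), g d e = ∑ e ∈ Ro z n, ∑ d ∈ Ro z (n / e), g d e := by
  apply Finset.sum_comm'
  intro d e
  have h := @mem_pair z n e d
  rw [and_comm] at h
  rw [mem_pair, h]
  constructor
  · rintro ⟨h1, h2, h3, h4, h5⟩
    exact ⟨h2, h1, by rw [mul_comm]; exact h3, h5, h4⟩
  · rintro ⟨h1, h2, h3, h4, h5⟩
    exact ⟨h2, h1, by rw [mul_comm]; exact h3, h5, h4⟩

lemma sum_log (z n : ℕ) (f : ℕ → ℝ) :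
    ∑ m ∈ Ro z n, f m * Real.log m = ∑ d ∈ Ro z n, ∑ e ∈ Ro z (n / d), Λ d * f (d * e) := by
  have h1 : ∀ m ∈ Ro z n, f m * Real.log m = ∑ d ∈ m.divisors, Λ d * f m := by
    intro m _
    rw [← Finset.sum_mul, vonMangoldt_sum, mul_comm]
  rw [Finset.sum_congr rfl h1, Finset.sum_sigma', Finset.sum_sigma']
  refine Finset.sum_bij' (fun x _ => ⟨x.2, x.1 / x.2⟩) (fun y _ => ⟨y.1 * y.2, y.1⟩) ?_ ?_ ?_ ?_ ?_
  · rintro ⟨m, d⟩ h
    rw [mem_sigma, mem_Ro, Nat.mem_divisors] at h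
    simp only at h
    obtain ⟨⟨⟨h1, h2⟩, h3⟩, ⟨e, rfl⟩, h5⟩ := h
    have hd : 0 < d := Nat.pos_of_ne_zero (by rintro rfl; simp at h5)
    have he : 0 < e := Nat.pos_of_ne_zero (by rintro rfl; simp at h5)
    rw [mem_sigma]
    simp only
    rw [Nat.mul_div_cancel_left e hd, mem_pair]
    exact ⟨hd, he, h2, Nat.Coprime.coprime_mul_right h3, Nat.Coprime.coprime_mul_left h3⟩
  · rintro ⟨d, e⟩ h
    rw [mem_sigma] at h
    simp only at h
    rw [mem_pair] at h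
    obtain ⟨h1, h2, h3, h4, h5⟩ := h
    rw [mem_sigma, mem_Ro, Nat.mem_divisors]
    simp only
    exact ⟨⟨⟨Nat.mul_pos h1 h2, h3⟩, Nat.Coprime.mul_left h4 h5⟩, Dvd.intro _ rfl,
      (Nat.mul_pos h1 h2).ne'⟩
  · rintro ⟨m, d⟩ h
    rw [mem_sigma, mem_Ro, Nat.mem_divisors] at h
    obtain ⟨_, h4, _⟩ := h
    simp only
    rw [Nat.mul_div_cancel' h4]
  · rintro ⟨d, e⟩ h
    rw [mem_sigma] at h
    simp only at h
    rw [mem_pair] at h
    simp only
    rw [Nat.mul_div_cancel_left e h.1]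
  · rintro ⟨m, d⟩ h
    rw [mem_sigma, mem_Ro, Nat.mem_divisors] at h
    obtain ⟨_, h4, _⟩ := h
    simp only
    rw [Nat.mul_div_cancel' h4]

/-- `M n = ∑_{d ≤ n} Λ(d)/d` -/
noncomputable def MM (n : ℕ) : ℝ := ∑ d ∈ Icc 1 n, Λ d / d

lemma Ro_zero (n : ℕ) : Ro 0 n = Icc 1 n := by
  unfold Ro
  have : primorial 0 = 1 := by decide
  rw [this]
  simp

lemma sum_Lambda_div (n : ℕ) :
    ∑ d ∈ Icc 1 n, Λ d * ((n / d : ℕ) : ℝ) = Real.log (n.factorial) := by
  have h := sum_log 0 n (fun _ => 1)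
  simp only [Ro_zero, one_mul, mul_one, sum_const, Nat.card_Icc, add_tsub_cancel_right,
    nsmul_eq_mul] at h
  rw [← Finset.prod_Ico_id_eq_factorial]
  push_cast
  rw [Real.log_prod (fun m hm => by
    rw [mem_Ico] at hm
    exact_mod_cast (by omega : m ≠ 0))]
  have hI : Ico 1 (n + 1) = Icc 1 n := by
    ext x
    simp only [mem_Ico, mem_Icc]
    omega
  rw [hI, h]
  apply Finset.sum_congr rfl
  intro d _
  ring

lemma log_factorial_ge (n : ℕ) : (n : ℝ) * Real.log n - n ≤ Real.log (n.factorial) := by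
  rcases Nat.eq_zero_or_pos n with h | h
  · subst h; simp
  have h1 : ((n : ℝ) / Real.exp 1) ^ n ≤ n.factorial := by
    have h2 := Real.pow_div_factorial_le_exp (n : ℝ) (Nat.cast_nonneg n) n
    have hf : (0 : ℝ) < n.factorial := by positivity
    rw [div_le_iff₀ hf] at h2
    rw [div_pow, div_le_iff₀ (by positivity), ← Real.exp_nat_mul, mul_one, mul_comm]
    exact h2
  have hn : (0 : ℝ) < n := by exact_mod_cast h
  have h3 := Real.log_le_log (by positivity) h1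
  rw [Real.log_pow, Real.log_div hn.ne' (Real.exp_ne_zero 1), Real.log_exp] at h3
  linarith

lemma MM_ge {n : ℕ} (hn : 1 ≤ n) : Real.log n - 1 ≤ MM n := by
  have h1 := sum_Lambda_div n
  have h2 := log_factorial_ge n
  have hn0 : (0 : ℝ) < n := by exact_mod_cast hn
  have h3 : ∑ d ∈ Icc 1 n, Λ d * ((n / d : ℕ) : ℝ) ≤ n * MM n := by
    unfold MM
    rw [Finset.mul_sum]
    apply Finset.sum_le_sum
    intro d _
    have h4 : ((n / d : ℕ) : ℝ) ≤ (n : ℝ) / d := Nat.cast_div_le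
    calc Λ d * ((n / d : ℕ) : ℝ) ≤ Λ d * ((n : ℝ) / d) :=
          mul_le_mul_of_nonneg_left h4 vonMangoldt_nonneg
      _ = n * (Λ d / d) := by ring
  have h5 : n * (Real.log n - 1) ≤ n * MM n := by linarith
  exact le_of_mul_le_mul_left h5 hn0

lemma log_factorial_le' (z : ℕ) : Real.log (z.factorial) ≤ z * Real.log z := by
  rcases Nat.eq_zero_or_pos z with h | h
  · subst h; simp
  · rw [← Real.log_pow]
    apply Real.log_le_log (by exact_mod_cast Nat.factorial_pos z)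
    exact_mod_cast Nat.factorial_le_pow z

lemma MM_le {n : ℕ} (hn : 1 ≤ n) : MM n ≤ Real.log n + 6 := by
  have h1 := sum_Lambda_div n
  have h2 := log_factorial_le' n
  have hn0 : (0 : ℝ) < n := by exact_mod_cast hn
  have hpsi : ∑ d ∈ Icc 1 n, Λ d ≤ 6 * n := by
    have h3 := Chebyshev.psi_le_const_mul_self (x := (n : ℝ)) (Nat.cast_nonneg n)
    have h4 : Chebyshev.psi (n : ℝ) = ∑ d ∈ Icc 1 n, Λ d := by
      unfold Chebyshev.psi
      rw [Nat.floor_natCast]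
      apply Finset.sum_congr _ fun _ _ => rfl
      ext x
      simp only [mem_Ioc, mem_Icc]
      omega
    rw [← h4]
    refine h3.trans ?_
    have h5 : Real.log 4 ≤ 2 := by
      have : Real.log 4 = 2 * Real.log 2 := by
        rw [show (4 : ℝ) = 2 ^ 2 by norm_num, Real.log_pow]
        norm_num
      rw [this]
      have := Real.log_two_lt_d9
      linarith
    nlinarith
  have h3 : n * MM n ≤ ∑ d ∈ Icc 1 n, Λ d * ((n / d : ℕ) : ℝ) + ∑ d ∈ Icc 1 n, Λ d := by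
    unfold MM
    rw [Finset.mul_sum, ← Finset.sum_add_distrib]
    apply Finset.sum_le_sum
    intro d hd
    rw [mem_Icc] at hd
    have h4 : (n : ℝ) / d ≤ ((n / d : ℕ) : ℝ) + 1 := by
      have := Nat.lt_div_mul_add hd.1 (a := n)
      rw [div_le_iff₀ (by exact_mod_cast hd.1)]
      have h6 : (n : ℝ) < (n / d : ℕ) * d + d := by exact_mod_cast this
      linarith
    calc (n : ℝ) * (Λ d / d) = Λ d * ((n : ℝ) / d) := by ring
      _ ≤ Λ d * (((n / d : ℕ) : ℝ) + 1) := mul_le_mul_of_nonneg_left h4 vonMangoldt_nonneg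
      _ = _ := by ring
  have h5 : n * MM n ≤ n * (Real.log n + 6) := by linarith
  exact le_of_mul_le_mul_left h5 hn0

end Pool.Agent.Work.MP_b0c12c_nt
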