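import Mathlib
import Pool.Agent.Work.MP_b0c12c_nt.Rough
import Pool.Agent.Work.MP_b0c12c_nt.Gron
import Pool.Agent.Work.MP_b0c12c_nt.Bfun

/-! Upper bound for the reciprocal sum of rough numbers up to `z^v`. -/

namespace Pool.Agent.Work.MP_b0c12c_nt

open MeasureTheory Filter Finset Topology ArithmeticFunction

/-- reciprocal sum of rough numbers -/
noncomputable def Bz (z n : ℕ) : ℝ := ∑ m ∈ Ro z n, 1 / (m : ℝ)

lemma Ro_mono (z : ℕ) {n m : ℕ} (h : n ≤ m) : Ro z n ⊆ Ro z m := by
  intro x hx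
  rw [mem_Ro] at hx ⊢
  exact ⟨⟨hx.1.1, hx.1.2.trans h⟩, hx.2⟩

lemma Bz_mono (z : ℕ) {n m : ℕ} (h : n ≤ m) : Bz z n ≤ Bz z m :=
  Finset.sum_le_sum_of_subset_of_nonneg (Ro_mono z h) fun _ _ _ => by positivity

lemma Bz_nonneg (z n : ℕ) : 0 ≤ Bz z n := Finset.sum_nonneg fun _ _ => by positivity

lemma Ro_small {z y : ℕ} (h : y ≤ z) (hy : 1 ≤ y) : Ro z y = {1} := by
  ext m
  rw [mem_Ro, mem_singleton]
  constructor
  · rintro ⟨⟨h1, h2⟩, h3⟩
    by_contra hne
    obtain ⟨p, hp, hpm⟩ := Nat.exists_prime_and_dvd hne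
    have hpz : p ≤ z := (Nat.le_of_dvd h1 hpm).trans (h2.trans h)
    have hpp : p ∣ primorial z := hp.dvd_primorial_iff.mpr hpz
    have := Nat.Coprime.eq_one_of_dvd (Nat.Coprime.coprime_dvd_left hpm h3) hpp
    exact hp.one_lt.ne' this
  · rintro rfl
    simp [hy]

lemma inner_small {z y : ℕ} (h : y ≤ z) : ∑ d ∈ Ro z y, Λ d / d = 0 := by
  rcases Nat.eq_zero_or_pos y with h0 | h0
  · subst h0
    have : Ro z 0 = ∅ := by
      ext m
      rw [mem_Ro]
      simp
      omega
    rw [this]
    simp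
  · rw [Ro_small h h0]
    simp

lemma Ro_gt {z y d : ℕ} (hd : d ∈ Ro z y) (h1 : d ≠ 1) : z < d := by
  by_contra hcon
  push Not at hcon
  rw [mem_Ro] at hd
  have : d ∈ Ro z d := by
    rw [mem_Ro]
    exact ⟨⟨hd.1.1, le_refl _⟩, hd.2⟩
  rw [Ro_small hcon hd.1.1, mem_singleton] at this
  exact h1 this

lemma inner_large {z y : ℕ} (hz : 1 ≤ z) (h : z ≤ y) :
    ∑ d ∈ Ro z y, Λ d / d ≤ Real.log y - Real.log z + 7 := by
  have h1 : ∑ d ∈ Ro z y, Λ d / d ≤ MM y - MM z := by
    have h2 : MM y - MM z = ∑ d ∈ Ioc z y, Λ d / d := by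
      unfold MM
      have h3 : Icc 1 y = Icc 1 z ∪ Ioc z y := by
        ext x
        simp only [mem_union, mem_Icc, mem_Ioc]
        omega
      have h4 : Disjoint (Icc 1 z) (Ioc z y) := by
        rw [Finset.disjoint_left]
        intro x hx hx2
        rw [mem_Icc] at hx
        rw [mem_Ioc] at hx2
        omega
      rw [h3, Finset.sum_union h4]
      ring
    rw [h2]
    have h5 : ∑ d ∈ Ro z y, Λ d / d = ∑ d ∈ (Ro z y).erase 1, Λ d / d := by
      symm
      apply Finset.sum_erase
      simp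
    rw [h5]
    apply Finset.sum_le_sum_of_subset_of_nonneg
    · intro d hd
      rw [mem_erase] at hd
      rw [mem_Ioc]
      exact ⟨Ro_gt hd.2 hd.1, (mem_Ro.mp hd.2).1.2⟩
    · intro d _ _
      exact div_nonneg vonMangoldt_nonneg (Nat.cast_nonneg d)
  have h6 := MM_le (hz.trans h)
  have h7 := MM_ge hz
  linarith

/-- `beta z s` -/
noncomputable def beta (z : ℕ) (s : ℝ) : ℝ := Bz z ⌊(z : ℝ) ^ s⌋₊

lemma beta_mono {z : ℕ} (hz : 1 ≤ z) : Monotone (beta z) := by
  intro s t hst
  apply Bz_mono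
  apply Nat.floor_mono
  exact Real.rpow_le_rpow_of_exponent_le (by exact_mod_cast hz) hst

lemma beta_nonneg (z : ℕ) (s : ℝ) : 0 ≤ beta z s := Bz_nonneg _ _

lemma beta_small {z : ℕ} (hz : 2 ≤ z) {s : ℝ} (h0 : 0 ≤ s) (hs : s ≤ 1) : beta z s = 1 := by
  unfold beta Bz
  have hz1 : (1 : ℝ) ≤ z := by exact_mod_cast (by omega : 1 ≤ z)
  have h1 : ⌊(z : ℝ) ^ s⌋₊ ≤ z := by
    have h2 : (z : ℝ) ^ s ≤ z := by
      calc (z : ℝ) ^ s ≤ (z : ℝ) ^ (1 : ℝ) := Real.rpow_le_rpow_of_exponent_le hz1 hs
        _ = z := Real.rpow_one _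
    exact_mod_cast (Nat.floor_le (by positivity)).trans h2
  have h3 : 1 ≤ ⌊(z : ℝ) ^ s⌋₊ := by
    rw [Nat.le_floor_iff (by positivity)]
    push_cast
    exact Real.one_le_rpow hz1 h0
  rw [Ro_small h1 h3]
  simp

/-- indicator -/
noncomputable def gi (z m : ℕ) (s : ℝ) : ℝ := if (m : ℝ) ≤ (z : ℝ) ^ s then 1 else 0

lemma gi_mono {z : ℕ} (hz : 1 ≤ z) (m : ℕ) : Monotone (gi z m) := by
  intro s t hst
  unfold gi
  have h : (z : ℝ) ^ s ≤ (z : ℝ) ^ t := Real.rpow_le_rpow_of_exponent_le (by exact_mod_cast hz) hst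
  split_ifs with h1 h2 h2
  · exact le_refl _
  · exact absurd (h1.trans h) h2
  · norm_num
  · exact le_refl _

lemma gi_nonneg (z m : ℕ) (s : ℝ) : 0 ≤ gi z m s := by
  unfold gi
  split_ifs <;> norm_num

lemma beta_eq {z : ℕ} (hz : 1 ≤ z) {s v : ℝ} (h : s ≤ v) :
    beta z s = ∑ m ∈ Ro z ⌊(z : ℝ) ^ v⌋₊, 1 / (m : ℝ) * gi z m s := by
  unfold beta Bz
  have h1 : ⌊(z : ℝ) ^ s⌋₊ ≤ ⌊(z : ℝ) ^ v⌋₊ :=
    Nat.floor_mono (Real.rpow_le_rpow_of_exponent_le (by exact_mod_cast hz) h)
  symm
  rw [← Finset.sum_subset (Ro_mono z h1)]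
  · apply Finset.sum_congr rfl
    intro m hm
    rw [mem_Ro] at hm
    have h2 : (m : ℝ) ≤ (z : ℝ) ^ s := by
      have := hm.1.2
      exact (Nat.le_floor_iff (by positivity)).mp this
    unfold gi
    rw [if_pos h2, mul_one]
  · intro m hm hm2
    unfold gi
    rw [if_neg, mul_zero]
    intro h3
    apply hm2
    rw [mem_Ro] at hm ⊢
    exact ⟨⟨hm.1.1, (Nat.le_floor_iff (by positivity)).mpr h3⟩, hm.2⟩

lemma gi_integral {z m : ℕ} (hz : 2 ≤ z) (hm : 1 ≤ m) {w : ℝ} (hw : 0 ≤ w) :
    max 0 (w - Real.log m / Real.log z) ≤ ∫ s in (0 : ℝ)..w, gi z m s := by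
  have hz1 : 1 ≤ z := by omega
  have hlz : 0 < Real.log z := Real.log_pos (by exact_mod_cast (by omega : 1 < z))
  have hlm : 0 ≤ Real.log m := Real.log_nonneg (by exact_mod_cast hm)
  have hl : 0 ≤ Real.log m / Real.log z := div_nonneg hlm hlz.le
  rcases le_or_gt w (Real.log m / Real.log z) with h | h
  · rw [max_eq_left (by linarith)]
    exact intervalIntegral.integral_nonneg hw fun s _ => gi_nonneg z m s
  · rw [max_eq_right (by linarith)]
    have hint : ∀ a b : ℝ, IntervalIntegrable (gi z m) volume a b := fun a b =>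
      (gi_mono hz1 m).intervalIntegrable
    rw [← intervalIntegral.integral_add_adjacent_intervals (hint 0 (Real.log m / Real.log z))
      (hint _ w)]
    have h1 : 0 ≤ ∫ s in (0 : ℝ)..(Real.log m / Real.log z), gi z m s :=
      intervalIntegral.integral_nonneg hl fun s _ => gi_nonneg z m s
    have h2 : ∫ s in (Real.log m / Real.log z)..w, gi z m s =
        ∫ s in (Real.log m / Real.log z)..w, (1 : ℝ) := by
      apply intervalIntegral.integral_congr
      intro s hs
      rw [Set.uIcc_of_le h.le] at hs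
      unfold gi
      rw [if_pos]
      have h3 : Real.log m ≤ s * Real.log z := by
        have := hs.1
        rwa [div_le_iff₀ hlz] at this
      have hz0 : (0 : ℝ) < z := by exact_mod_cast (by omega : 0 < z)
      have hm0 : (0 : ℝ) < m := by exact_mod_cast hm
      rw [← Real.exp_log hm0, ← Real.exp_log hz0, ← Real.exp_mul]
      apply Real.exp_le_exp.mpr
      linarith
    rw [h2]
    simp
    linarith

/-- the basic recursion inequality -/
lemma beta_rec {z : ℕ} (hz : 2 ≤ z) {v : ℝ} (hv : 1 ≤ v) :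
    v * beta z v ≤ (∫ s in (0 : ℝ)..v, beta z s) + (∫ s in (0 : ℝ)..(v - 1), beta z s)
      + 7 / Real.log z * beta z v := by
  have hz1 : 1 ≤ z := by omega
  have hz0 : (0 : ℝ) < z := by exact_mod_cast (by omega : 0 < z)
  have hlz : 0 < Real.log z := Real.log_pos (by exact_mod_cast (by omega : 1 < z))
  obtain ⟨n, hn⟩ : ∃ n, n = ⌊(z : ℝ) ^ v⌋₊ := ⟨_, rfl⟩
  have hlogm : ∀ m ∈ Ro z n, Real.log m ≤ v * Real.log z := by
    intro m hm
    rw [mem_Ro] at hm
    have h1 : (m : ℝ) ≤ (z : ℝ) ^ v := by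
      rw [hn] at hm
      exact (Nat.le_floor_iff (by positivity)).mp hm.1.2
    have h2 := Real.log_le_log (by exact_mod_cast hm.1.1) h1
    rwa [Real.log_rpow hz0] at h2
  -- identity
  have hid := sum_log z n (fun m => 1 / (m : ℝ))
  rw [sum_swap z n (fun d e => Λ d * (1 / ((d * e : ℕ) : ℝ)))] at hid
  have hinner : ∀ e ∈ Ro z n, ∑ d ∈ Ro z (n / e), Λ d * (1 / ((d * e : ℕ) : ℝ)) ≤
      1 / (e : ℝ) * (Real.log z * max 0 (v - 1 - Real.log e / Real.log z) + 7) := by
    intro e he
    have he1 : 1 ≤ e := (mem_Ro.mp he).1.1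
    have he0 : (0 : ℝ) < e := by exact_mod_cast he1
    have h1 : ∑ d ∈ Ro z (n / e), Λ d * (1 / ((d * e : ℕ) : ℝ)) =
        1 / (e : ℝ) * ∑ d ∈ Ro z (n / e), Λ d / d := by
      rw [Finset.mul_sum]
      apply Finset.sum_congr rfl
      intro d _
      push_cast
      rw [one_div, mul_inv]
      ring
    rw [h1]
    apply mul_le_mul_of_nonneg_left _ (by positivity)
    rcases le_or_gt (n / e) z with h2 | h2
    · rw [inner_small h2]
      have : 0 ≤ Real.log z * max 0 (v - 1 - Real.log e / Real.log z) :=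
        mul_nonneg hlz.le (le_max_left _ _)
      linarith
    · refine (inner_large hz1 h2.le).trans ?_
      have h3 : Real.log ((n / e : ℕ) : ℝ) ≤ v * Real.log z - Real.log e := by
        have h4 : ((n / e : ℕ) : ℝ) ≤ (z : ℝ) ^ v / e := by
          refine Nat.cast_div_le.trans ?_
          apply div_le_div_of_nonneg_right _ he0.le
          rw [hn]
          exact Nat.floor_le (by positivity)
        have h5 : (0 : ℝ) < ((n / e : ℕ) : ℝ) := by exact_mod_cast (by omega : 0 < n / e)
        have h6 := Real.log_le_log h5 h4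
        rwa [Real.log_div (by positivity) he0.ne', Real.log_rpow hz0] at h6
      have h7 : v * Real.log z - Real.log e - Real.log z =
          Real.log z * (v - 1 - Real.log e / Real.log z) := by
        field_simp
        ring
      have h8 : Real.log z * (v - 1 - Real.log e / Real.log z) ≤
          Real.log z * max 0 (v - 1 - Real.log e / Real.log z) :=
        mul_le_mul_of_nonneg_left (le_max_right _ _) hlz.le
      linarith
  have hsum := Finset.sum_le_sum hinner
  rw [← hid] at hsum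
  -- integrals
  have hI : ∀ w : ℝ, 0 ≤ w → w ≤ v → Real.log z * ∑ m ∈ Ro z n, 1 / (m : ℝ) *
      max 0 (w - Real.log m / Real.log z) ≤ Real.log z * ∫ s in (0 : ℝ)..w, beta z s := by
    intro w hw0 hwv
    apply mul_le_mul_of_nonneg_left _ hlz.le
    have h1 : ∫ s in (0 : ℝ)..w, beta z s = ∑ m ∈ Ro z n, 1 / (m : ℝ) * ∫ s in (0 : ℝ)..w, gi z m s := by
      have h2 : ∫ s in (0 : ℝ)..w, beta z s =
          ∫ s in (0 : ℝ)..w, ∑ m ∈ Ro z n, 1 / (m : ℝ) * gi z m s := by
        apply intervalIntegral.integral_congr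
        intro s hs
        rw [Set.uIcc_of_le hw0] at hs
        simp only
        rw [hn]
        exact beta_eq hz1 (hs.2.trans hwv)
      rw [h2, intervalIntegral.integral_finsetSum]
      · apply Finset.sum_congr rfl
        intro m _
        rw [intervalIntegral.integral_const_mul]
      · intro m _
        exact ((gi_mono hz1 m).intervalIntegrable).const_mul _
    rw [h1]
    apply Finset.sum_le_sum
    intro m hm
    apply mul_le_mul_of_nonneg_left _ (by positivity)
    exact gi_integral hz (mem_Ro.mp hm).1.1 hw0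
  have hI1 := hI v (by linarith) le_rfl
  have hI2 := hI (v - 1) (by linarith) (by linarith)
  have hbeta : beta z v = ∑ m ∈ Ro z n, 1 / (m : ℝ) := by
    rw [hn]
    rfl
  have h1 : ∑ m ∈ Ro z n, 1 / (m : ℝ) * Real.log m = v * Real.log z * beta z v -
      Real.log z * ∑ m ∈ Ro z n, 1 / (m : ℝ) * max 0 (v - Real.log m / Real.log z) := by
    rw [hbeta, Finset.mul_sum, Finset.mul_sum, ← Finset.sum_sub_distrib]
    apply Finset.sum_congr rfl
    intro m hm
    have h2 := hlogm m hm
    rw [max_eq_right]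
    · field_simp
      ring
    · rw [sub_nonneg, div_le_iff₀ hlz]
      exact h2
  have h2 : ∑ e ∈ Ro z n, 1 / (e : ℝ) * (Real.log z * max 0 (v - 1 - Real.log e / Real.log z) + 7) =
      Real.log z * (∑ m ∈ Ro z n, 1 / (m : ℝ) * max 0 (v - 1 - Real.log m / Real.log z)) +
        7 * beta z v := by
    rw [hbeta, Finset.mul_sum, Finset.mul_sum, ← Finset.sum_add_distrib]
    apply Finset.sum_congr rfl
    intro m _
    ring
  rw [h1, h2] at hsum
  have h3 : Real.log z * (v * beta z v) ≤ Real.log z * ((∫ s in (0 : ℝ)..v, beta z s) +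
      (∫ s in (0 : ℝ)..(v - 1), beta z s) + 7 / Real.log z * beta z v) := by
    have h4 : Real.log z * (7 / Real.log z * beta z v) = 7 * beta z v := by field_simp
    rw [mul_add, mul_add, h4]
    linarith
  exact le_of_mul_le_mul_left h3 hlz

lemma beta_integrable {z : ℕ} (hz : 1 ≤ z) (a b : ℝ) : IntervalIntegrable (beta z) volume a b :=
  (beta_mono hz).intervalIntegrable

lemma beta_int_one {z : ℕ} (hz : 2 ≤ z) : ∫ s in (0 : ℝ)..1, beta z s = 1 := by
  have : ∫ s in (0 : ℝ)..1, beta z s = ∫ s in (0 : ℝ)..1, (1 : ℝ) := by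
    apply intervalIntegral.integral_congr
    intro s hs
    rw [Set.uIcc_of_le zero_le_one] at hs
    exact beta_small hz hs.1 hs.2
  rw [this]
  simp

/-- crude bound -/
lemma beta_crude {z : ℕ} (hz : 2 ≤ z) (hlog : 14 ≤ Real.log z) {V : ℝ} :
    ∀ v ∈ Set.Icc (1 : ℝ) V, beta z v ≤ 4 * Real.exp (4 * (v - 1)) := by
  have hz1 : 1 ≤ z := by omega
  apply gronwall_int (K := beta z V) (by norm_num)
  · intro v hv
    exact beta_mono hz1 hv.2
  · exact beta_integrable hz1 _ _
  · intro v hv
    have h1 := beta_rec hz hv.1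
    have h2 : ∫ s in (0 : ℝ)..v, beta z s = 1 + ∫ s in (1 : ℝ)..v, beta z s := by
      rw [← intervalIntegral.integral_add_adjacent_intervals (beta_integrable hz1 0 1)
        (beta_integrable hz1 1 v), beta_int_one hz]
    have h3 : ∫ s in (0 : ℝ)..(v - 1), beta z s ≤ ∫ s in (0 : ℝ)..v, beta z s := by
      rw [← intervalIntegral.integral_add_adjacent_intervals (beta_integrable hz1 0 (v - 1))
        (beta_integrable hz1 (v - 1) v)]
      have : 0 ≤ ∫ s in (v - 1)..v, beta z s :=
        intervalIntegral.integral_nonneg (by linarith) fun s _ => beta_nonneg z s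
      linarith
    have h4 : 7 / Real.log z ≤ 1 / 2 := by
      rw [div_le_iff₀ (by linarith)]
      linarith
    have h5 := beta_nonneg z v
    have h6 : 7 / Real.log z * beta z v ≤ 1 / 2 * beta z v := mul_le_mul_of_nonneg_right h4 h5
    have h7 : beta z v ≤ v * beta z v := by nlinarith [hv.1]
    linarith
  · norm_num

/-- comparison with `b` -/
lemma beta_le {N : ℕ} {b : ℝ → ℝ} (hb : IsB N b) {z : ℕ} (hz : 2 ≤ z) (hlog : 14 ≤ Real.log z)
    {V : ℝ} (hVN : V ≤ N) :
    ∀ v ∈ Set.Icc (1 : ℝ) V, beta z v ≤ b v +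
      (28 * Real.exp (4 * (V - 1)) / Real.log z) * Real.exp (2 * (V - 1)) := by
  have hz1 : 1 ≤ z := by omega
  obtain ⟨η, hη⟩ : ∃ η, η = 28 * Real.exp (4 * (V - 1)) / Real.log z := ⟨_, rfl⟩
  have hη0 : 0 ≤ η := by
    rw [hη]
    apply div_nonneg (by positivity)
    linarith
  obtain ⟨f, hf⟩ : ∃ f : ℝ → ℝ, f = fun s => max (beta z s - b s) 0 := ⟨_, rfl⟩
  have hfi : ∀ a c : ℝ, IntervalIntegrable f volume a c := by
    intro a c
    rw [hf]
    have h1 : IntervalIntegrable (fun s => beta z s - b s) volume a c :=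
      (beta_integrable hz1 a c).sub (hb.cont.intervalIntegrable a c)
    exact ⟨h1.1.pos_part, h1.2.pos_part⟩
  have hf0 : ∀ s, 0 ≤ f s := fun s => by
    rw [hf]
    exact le_max_right _ _
  have hfge : ∀ s, beta z s - b s ≤ f s := fun s => by
    rw [hf]
    exact le_max_left _ _
  have hfone : ∫ s in (0 : ℝ)..1, f s = 0 := by
    have : ∫ s in (0 : ℝ)..1, f s = ∫ s in (0 : ℝ)..1, (0 : ℝ) := by
      apply intervalIntegral.integral_congr
      intro s hs
      rw [Set.uIcc_of_le zero_le_one] at hs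
      rw [hf]
      simp only
      rw [beta_small hz hs.1 hs.2, hb.one s hs.2]
      simp
    rw [this]
    simp
  have hmain : ∀ v ∈ Set.Icc (1 : ℝ) V, f v ≤ η * Real.exp (2 * (v - 1)) := by
    apply gronwall_int (K := beta z V + (|b 0| + ∑ i ∈ range 1, |b i|) +
      sSup ((fun x => |b x|) '' Set.Icc 1 V)) (by norm_num)
    · intro v hv
      have h1 := beta_mono hz1 hv.2
      have h2 : |b v| ≤ sSup ((fun x => |b x|) '' Set.Icc 1 V) := by
        apply le_csSup
        · exact (isCompact_Icc.image (by exact hb.cont.abs)).bddAbove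
        · exact ⟨v, hv, rfl⟩
      have h3 := neg_abs_le (b v)
      have h4 := beta_nonneg z V
      have h5 : 0 ≤ |b 0| + ∑ i ∈ range 1, |b i| := by positivity
      rw [hf]
      simp only
      apply max_le
      · linarith
      · have := abs_nonneg (b v)
        linarith
    · exact hfi _ _
    · intro v hv
      have h1 := beta_rec hz hv.1
      have h2 := hb.volterra hv.1 (hv.2.trans hVN)
      have h3 : 7 / Real.log z * beta z v ≤ η := by
        have h4 := beta_crude (V := V) hz hlog v hv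
        have h5 : Real.exp (4 * (v - 1)) ≤ Real.exp (4 * (V - 1)) :=
          Real.exp_le_exp.mpr (by linarith [hv.2])
        have h6 : beta z v ≤ 4 * Real.exp (4 * (V - 1)) := by linarith
        rw [hη]
        calc 7 / Real.log z * beta z v ≤ 7 / Real.log z * (4 * Real.exp (4 * (V - 1))) := by
              apply mul_le_mul_of_nonneg_left h6
              apply div_nonneg (by norm_num)
              linarith
          _ = _ := by ring
      have hI : ∀ w : ℝ, 0 ≤ w → (∫ s in (0 : ℝ)..w, beta z s) - (∫ s in (0 : ℝ)..w, b s) ≤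
          ∫ s in (0 : ℝ)..w, f s := by
        intro w hw
        rw [← intervalIntegral.integral_sub (beta_integrable hz1 0 w) (hb.cont.intervalIntegrable 0 w)]
        apply intervalIntegral.integral_mono_on hw
          ((beta_integrable hz1 0 w).sub (hb.cont.intervalIntegrable 0 w)) (hfi 0 w)
        intro s _
        exact hfge s
      have h7 := hI v (by linarith [hv.1])
      have h8 := hI (v - 1) (by linarith [hv.1])
      have h9 : ∫ s in (0 : ℝ)..v, f s = ∫ s in (1 : ℝ)..v, f s := by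
        rw [← intervalIntegral.integral_add_adjacent_intervals (hfi 0 1) (hfi 1 v), hfone, zero_add]
      have h10 : ∫ s in (0 : ℝ)..(v - 1), f s ≤ ∫ s in (0 : ℝ)..v, f s := by
        rw [← intervalIntegral.integral_add_adjacent_intervals (hfi 0 (v - 1)) (hfi (v - 1) v)]
        have : 0 ≤ ∫ s in (v - 1)..v, f s :=
          intervalIntegral.integral_nonneg (by linarith) fun s _ => hf0 s
        linarith
      have h11 : v * (beta z v - b v) ≤ 2 * (∫ s in (1 : ℝ)..v, f s) + η := by
        have : v * (beta z v - b v) = v * beta z v - v * b v := by ring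
        rw [this]
        linarith
      have h12 : 0 ≤ ∫ s in (1 : ℝ)..v, f s :=
        intervalIntegral.integral_nonneg hv.1 fun s _ => hf0 s
      have h13 : f v = max (beta z v - b v) 0 := by rw [hf]
      rw [h13]
      apply max_le
      · rcases le_or_gt (beta z v - b v) 0 with h | h
        · linarith
        · have : beta z v - b v ≤ v * (beta z v - b v) := by nlinarith [hv.1]
          linarith
      · linarith
    · exact hη0
  intro v hv
  have h1 := hmain v hv
  have h2 := hfge v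
  have h3 : Real.exp (2 * (v - 1)) ≤ Real.exp (2 * (V - 1)) :=
    Real.exp_le_exp.mpr (by linarith [hv.2])
  have h4 := mul_le_mul_of_nonneg_left h3 hη0
  rw [← hη]
  linarith

end Pool.Agent.Work.MP_b0c12c_nt
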