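import Mathlib
import Pool.Agent.Work.MP_b0c12c_nt.Rough
import Pool.Agent.Work.MP_b0c12c_nt.Kern

/-! Lower bound for the Mertens product: `liminf V(z) log z >= p(1)`. -/

namespace Pool.Agent.Work.MP_b0c12c_nt

open MeasureTheory Filter Finset Topology ArithmeticFunction

/-- Mertens product -/
noncomputable def Vz (z : ℕ) : ℝ := ∏ p ∈ (Icc 1 z).filter Nat.Prime, (1 - 1 / (p : ℝ))

/-- `G n = sum_{p <= n} log p / p` -/
noncomputable def GG (n : ℕ) : ℝ := ∑ p ∈ (Icc 1 n).filter Nat.Prime, Real.log p / p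

lemma GG_le (n : ℕ) (hn : 1 ≤ n) : GG n ≤ Real.log n + 6 := by
  refine le_trans ?_ (MM_le hn)
  unfold GG MM
  rw [Finset.sum_filter]
  apply Finset.sum_le_sum
  intro p hp
  split_ifs with h
  · rw [vonMangoldt_apply_prime h]
  · exact div_nonneg vonMangoldt_nonneg (Nat.cast_nonneg p)

/-- the weight -/
noncomputable def ph (σ t : ℝ) : ℝ := σ * kk (σ * t)

lemma ph_anti {σ : ℝ} (hσ : 0 ≤ σ) {s t : ℝ} (h : s ≤ t) : ph σ t ≤ ph σ s :=
  mul_le_mul_of_nonneg_left (kk_antitone (mul_le_mul_of_nonneg_left h hσ)) hσ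

lemma ph_nonneg {σ : ℝ} (hσ : 0 ≤ σ) (t : ℝ) : 0 ≤ ph σ t := mul_nonneg hσ (kk_nonneg _)

lemma continuous_ph (σ : ℝ) : Continuous (ph σ) := by
  unfold ph
  exact continuous_const.mul (continuous_kk.comp (by fun_prop))

lemma ph_zero_le {σ : ℝ} (hσ : 0 ≤ σ) : ph σ 0 ≤ σ := by
  unfold ph
  have := kk_le_one (t := σ * 0) (by simp)
  nlinarith

lemma ph_mul {σ t : ℝ} : t * ph σ t = 1 - Real.exp (-(σ * t)) := by
  unfold ph
  have := mul_kk (σ * t)
  rw [← this]
  ring

lemma abel_bound {σ : ℝ} (hσ : 0 ≤ σ) (n : ℕ) :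
    ∑ p ∈ (Icc 1 (n + 1)).filter Nat.Prime, Real.log p / p * ph σ (Real.log p) ≤
      (GG (n + 1) - Real.log ((n + 1 : ℕ) : ℝ) - 6) * ph σ (Real.log ((n + 1 : ℕ) : ℝ)) + 6 * ph σ 0 +
      ∫ t in (0 : ℝ)..(Real.log ((n + 1 : ℕ) : ℝ)), ph σ t := by
  induction n with
  | zero =>
    have he : (Icc 1 (0 + 1)).filter Nat.Prime = ∅ := by decide
    rw [he]
    unfold GG
    rw [he]
    simp
  | succ n ih =>
    have hI : (Icc 1 (n + 1 + 1)).filter Nat.Prime =
        if (n + 1 + 1).Prime then insert (n + 1 + 1) ((Icc 1 (n + 1)).filter Nat.Prime)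
        else (Icc 1 (n + 1)).filter Nat.Prime := by
      have h0 : Icc 1 (n + 1 + 1) = insert (n + 1 + 1) (Icc 1 (n + 1)) := by
        ext x
        simp only [mem_insert, mem_Icc]
        omega
      rw [h0, Finset.filter_insert]
    have hnot : (n + 1 + 1) ∉ (Icc 1 (n + 1)).filter Nat.Prime := by
      simp
    have hG : ∀ f : ℕ → ℝ, ∑ p ∈ (Icc 1 (n + 1 + 1)).filter Nat.Prime, f p =
        ∑ p ∈ (Icc 1 (n + 1)).filter Nat.Prime, f p +
          (if (n + 1 + 1).Prime then f (n + 1 + 1) else 0) := by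
      intro f
      rw [hI]
      split_ifs with h
      · rw [Finset.sum_insert hnot]
        ring
      · ring
    obtain ⟨a, ha⟩ : ∃ a : ℝ, a = (if (n + 1 + 1).Prime then Real.log ((n + 1 + 1 : ℕ) : ℝ) /
      ((n + 1 + 1 : ℕ) : ℝ) else 0) := ⟨_, rfl⟩
    have hG1 : GG (n + 1 + 1) = GG (n + 1) + a := by
      unfold GG
      rw [hG (fun p => Real.log p / p), ha]
    have hT := hG (fun p => Real.log p / p * ph σ (Real.log p))
    have hT2 : (if (n + 1 + 1).Prime then (fun p : ℕ => Real.log p / p * ph σ (Real.log p)) (n + 1 + 1)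
        else 0) = a * ph σ (Real.log ((n + 1 + 1 : ℕ) : ℝ)) := by
      rw [ha]
      split_ifs <;> simp
    rw [hT2] at hT
    rw [hT, hG1]
    have hl : Real.log ((n + 1 : ℕ) : ℝ) ≤ Real.log ((n + 1 + 1 : ℕ) : ℝ) := by
      apply Real.log_le_log (by positivity)
      push_cast
      linarith
    have h0 : 0 ≤ Real.log ((n + 1 : ℕ) : ℝ) := Real.log_nonneg (by
      push_cast
      have : (0 : ℝ) ≤ n := Nat.cast_nonneg n
      linarith)
    have h1 := ph_anti hσ hl
    have h2 : GG (n + 1) - Real.log ((n + 1 : ℕ) : ℝ) - 6 ≤ 0 := by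
      have := GG_le (n + 1) (by omega)
      linarith
    have h3 := mul_le_mul_of_nonpos_left h1 h2
    have h4 : ∫ t in (0 : ℝ)..(Real.log ((n + 1 + 1 : ℕ) : ℝ)), ph σ t =
        (∫ t in (0 : ℝ)..(Real.log ((n + 1 : ℕ) : ℝ)), ph σ t) +
        ∫ t in (Real.log ((n + 1 : ℕ) : ℝ))..(Real.log ((n + 1 + 1 : ℕ) : ℝ)), ph σ t := by
      rw [intervalIntegral.integral_add_adjacent_intervals
        ((continuous_ph σ).intervalIntegrable _ _) ((continuous_ph σ).intervalIntegrable _ _)]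
    have h5 : (Real.log ((n + 1 + 1 : ℕ) : ℝ) - Real.log ((n + 1 : ℕ) : ℝ)) *
        ph σ (Real.log ((n + 1 + 1 : ℕ) : ℝ)) ≤
        ∫ t in (Real.log ((n + 1 : ℕ) : ℝ))..(Real.log ((n + 1 + 1 : ℕ) : ℝ)), ph σ t := by
      have h6 : ∫ t in (Real.log ((n + 1 : ℕ) : ℝ))..(Real.log ((n + 1 + 1 : ℕ) : ℝ)),
          ph σ (Real.log ((n + 1 + 1 : ℕ) : ℝ)) ≤
          ∫ t in (Real.log ((n + 1 : ℕ) : ℝ))..(Real.log ((n + 1 + 1 : ℕ) : ℝ)), ph σ t := by
        apply intervalIntegral.integral_mono_on hl (by simp)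
          ((continuous_ph σ).intervalIntegrable _ _)
        intro t ht
        exact ph_anti hσ ht.2
      simpa using h6
    rw [h4]
    nlinarith

lemma sum_ph_le {σ : ℝ} (hσ : 0 ≤ σ) {n : ℕ} (hn : 1 ≤ n) :
    ∑ p ∈ (Icc 1 n).filter Nat.Prime, Real.log p / p * ph σ (Real.log p) ≤
      6 * σ + Ein (σ * Real.log n) := by
  obtain ⟨m, rfl⟩ : ∃ m, n = m + 1 := ⟨n - 1, by omega⟩
  refine (abel_bound hσ m).trans ?_
  have h2 : GG (m + 1) - Real.log ((m + 1 : ℕ) : ℝ) - 6 ≤ 0 := by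
    have := GG_le (m + 1) (by omega)
    linarith
  have h3 := mul_nonpos_of_nonpos_of_nonneg h2 (ph_nonneg hσ (Real.log ((m + 1 : ℕ) : ℝ)))
  have h4 := ph_zero_le hσ
  have h5 : ∫ t in (0 : ℝ)..(Real.log ((m + 1 : ℕ) : ℝ)), ph σ t = Ein (σ * Real.log ((m + 1 : ℕ) : ℝ)) := by
    unfold Ein ph
    rw [intervalIntegral.integral_const_mul, intervalIntegral.mul_integral_comp_mul_left]
    simp
  rw [h5]
  linarith

/-- partial Euler product is at most the full series -/
lemma euler_le {s : ℝ} (hs : 1 < s) (z : ℕ) :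
    (∏ p ∈ (Icc 1 z).filter Nat.Prime, (1 - (p : ℝ) ^ (-s)))⁻¹ ≤ ∑' n : ℕ, 1 / (n : ℝ) ^ s := by
  let f : ℕ →* ℝ :=
    { toFun := fun n => (n : ℝ) ^ (-s)
      map_one' := by simp
      map_mul' := fun m n => by
        rw [Nat.cast_mul, Real.mul_rpow (Nat.cast_nonneg m) (Nat.cast_nonneg n)] }
  have hsum : Summable f := by
    have := Real.summable_one_div_nat_rpow.mpr hs
    refine this.congr fun n => ?_
    show 1 / (n : ℝ) ^ s = (n : ℝ) ^ (-s)
    rw [Real.rpow_neg (Nat.cast_nonneg n), one_div]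
  have h1 := EulerProduct.prod_filter_prime_geometric_eq_tsum_factoredNumbers hsum (Icc 1 z)
  rw [Finset.prod_inv_distrib] at h1
  have h2 : ∏ p ∈ (Icc 1 z).filter Nat.Prime, (1 - f p) =
      ∏ p ∈ (Icc 1 z).filter Nat.Prime, (1 - (p : ℝ) ^ (-s)) := rfl
  rw [h2] at h1
  rw [h1]
  have h3 : ∑' n : ℕ, 1 / (n : ℝ) ^ s = ∑' n, f n := by
    apply tsum_congr
    intro n
    show 1 / (n : ℝ) ^ s = (n : ℝ) ^ (-s)
    rw [Real.rpow_neg (Nat.cast_nonneg n), one_div]
  rw [h3]
  exact Summable.tsum_subtype_le f (Nat.factoredNumbers (Icc 1 z)) (fun n => by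
    show (0 : ℝ) ≤ (n : ℝ) ^ (-s)
    positivity) hsum

lemma factor_ge {σ : ℝ} (hσ : 0 ≤ σ) {p : ℕ} (hp : p.Prime) :
    (1 - (p : ℝ) ^ (-(1 + σ))) * Real.exp (-((1 - Real.exp (-(σ * Real.log p))) / (p - 1))) ≤
      1 - 1 / (p : ℝ) := by
  have hp2 : (2 : ℝ) ≤ p := by exact_mod_cast hp.two_le
  have hp0 : (0 : ℝ) < p := by linarith
  have h1 : (p : ℝ) ^ (-(1 + σ)) = 1 / p * Real.exp (-(σ * Real.log p)) := by
    rw [neg_add, Real.rpow_add hp0, Real.rpow_neg_one, Real.rpow_def_of_pos hp0]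
    rw [one_div]
    congr 2
    ring
  obtain ⟨y, hy⟩ : ∃ y, y = Real.exp (-(σ * Real.log p)) := ⟨_, rfl⟩
  have hy0 : 0 < y := by rw [hy]; exact Real.exp_pos _
  have hy1 : y ≤ 1 := by
    rw [hy]
    apply Real.exp_le_one_iff.mpr
    have := mul_nonneg hσ (Real.log_nonneg (by linarith : (1 : ℝ) ≤ p))
    linarith
  rw [h1, ← hy]
  have h2 : 1 - 1 / (p : ℝ) * y = (1 - 1 / (p : ℝ)) * (1 + (1 - y) / (p - 1)) := by
    have : (p : ℝ) - 1 ≠ 0 := by linarith
    field_simp
    ring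
  have h3 : 0 ≤ (1 - y) / ((p : ℝ) - 1) := div_nonneg (by linarith) (by linarith)
  have h4 : 1 + (1 - y) / ((p : ℝ) - 1) ≤ Real.exp ((1 - y) / (p - 1)) := by
    have := Real.add_one_le_exp ((1 - y) / ((p : ℝ) - 1))
    linarith
  have h5 : 0 < 1 - 1 / (p : ℝ) := by
    rw [sub_pos, div_lt_one hp0]
    linarith
  rw [h2, Real.exp_neg, mul_assoc]
  have h6 : (1 + (1 - y) / ((p : ℝ) - 1)) * (Real.exp ((1 - y) / (p - 1)))⁻¹ ≤ 1 := by
    rw [← div_eq_mul_inv, div_le_one (Real.exp_pos _)]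
    exact h4
  nlinarith

/-- constant for the convergent sum -/
lemma sum_log_div_le (z : ℕ) :
    ∑ p ∈ (Icc 1 z).filter Nat.Prime, Real.log p / (p * (p - 1)) ≤ 4 := by
  have h1 : ∀ n : ℕ, ∑ p ∈ (Icc 1 (n + 1)).filter Nat.Prime, Real.log p / (p * (p - 1)) ≤
      4 - 4 / Real.sqrt (n + 1) := by
    intro n
    induction n with
    | zero =>
      have he : (Icc 1 (0 + 1)).filter Nat.Prime = ∅ := by decide
      rw [he]
      simp
    | succ n ih =>
      have hI : (Icc 1 (n + 1 + 1)).filter Nat.Prime =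
          if (n + 1 + 1).Prime then insert (n + 1 + 1) ((Icc 1 (n + 1)).filter Nat.Prime)
          else (Icc 1 (n + 1)).filter Nat.Prime := by
        have h0 : Icc 1 (n + 1 + 1) = insert (n + 1 + 1) (Icc 1 (n + 1)) := by
          ext x
          simp only [mem_insert, mem_Icc]
          omega
        rw [h0, Finset.filter_insert]
      have hnot : (n + 1 + 1) ∉ (Icc 1 (n + 1)).filter Nat.Prime := by simp
      have hn0 : (0 : ℝ) ≤ n := Nat.cast_nonneg n
      -- term bound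
      have hs1 : 0 < Real.sqrt (n + 1) := Real.sqrt_pos.mpr (by linarith)
      have hs2 : 0 < Real.sqrt (n + 1 + 1) := Real.sqrt_pos.mpr (by linarith)
      have e1 : Real.sqrt (n + 1) ^ 2 = n + 1 := Real.sq_sqrt (by linarith)
      have e2 : Real.sqrt (n + 1 + 1) ^ 2 = n + 1 + 1 := Real.sq_sqrt (by linarith)
      obtain ⟨a, ha⟩ : ∃ a, a = Real.sqrt ((n : ℝ) + 1) := ⟨_, rfl⟩
      obtain ⟨b, hb⟩ : ∃ b, b = Real.sqrt ((n : ℝ) + 1 + 1) := ⟨_, rfl⟩
      rw [← ha] at hs1 e1
      rw [← hb] at hs2 e2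
      have hab : a ≤ b := by
        rw [ha, hb]
        exact Real.sqrt_le_sqrt (by linarith)
      have hlog : Real.log ((n + 1 + 1 : ℕ) : ℝ) ≤ 2 * (b - 1) := by
        have h3 : ((n + 1 + 1 : ℕ) : ℝ) = b ^ 2 := by
          rw [e2]
          push_cast
          ring
        rw [h3, Real.log_pow]
        have := Real.log_le_sub_one_of_pos hs2
        push_cast
        linarith
      have hterm : Real.log ((n + 1 + 1 : ℕ) : ℝ) / (((n + 1 + 1 : ℕ) : ℝ) * (((n + 1 + 1 : ℕ) : ℝ) - 1)) ≤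
          4 / a - 4 / b := by
        have h3 : ((n + 1 + 1 : ℕ) : ℝ) = b ^ 2 := by
          rw [e2]
          push_cast
          ring
        have h4 : ((n + 1 + 1 : ℕ) : ℝ) - 1 = a ^ 2 := by
          rw [e1]
          push_cast
          ring
        rw [h4]
        rw [div_le_iff₀ (by positivity)]
        refine hlog.trans ?_
        rw [h3]
        have h5 : (4 / a - 4 / b) * (b ^ 2 * a ^ 2) = 4 * (a * b) * (b - a) := by
          field_simp
        rw [h5]
        have h6 : b ^ 2 - a ^ 2 = 1 := by rw [e1, e2]; ring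
        have h7 : (b - a) * (b + a) = 1 := by nlinarith
        have h8 : b + a ≤ 2 * b := by linarith
        -- 4ab(b-a) = 4ab/(b+a) >= 2a >= 2(b-1)
        have h9 : 2 * a ≤ 4 * (a * b) * (b - a) := by
          have h10 : 2 * a * ((b - a) * (b + a)) ≤ 4 * (a * b) * (b - a) := by
            have h11 : 0 ≤ b - a := by linarith
            have h12 : 0 ≤ a * (b - a) := mul_nonneg hs1.le h11
            nlinarith
          rw [h7] at h10
          linarith
        have h13 : 1 ≤ a := by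
          rw [ha]
          rw [Real.one_le_sqrt]
          linarith
        have h14 : b ≤ a + 1 := by nlinarith
        linarith
      have hpos : 0 ≤ 4 / a - 4 / b := by
        have : 4 / b ≤ 4 / a := div_le_div_of_nonneg_left (by norm_num) hs1 hab
        linarith
      rw [hI]
      have hcast : Real.sqrt (((n + 1 : ℕ) : ℝ) + 1) = b := by
        rw [hb]
        push_cast
        rfl
      rw [hcast]
      rw [← ha] at ih
      split_ifs with hpr
      · rw [Finset.sum_insert hnot]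
        linarith
      · linarith
  rcases Nat.eq_zero_or_pos z with h | h
  · subst h
    simp
  · obtain ⟨m, rfl⟩ : ∃ m, z = m + 1 := ⟨z - 1, by omega⟩
    refine (h1 m).trans ?_
    have : 0 ≤ 4 / Real.sqrt ((m : ℝ) + 1) := by positivity
    linarith

/-- main lower bound, for fixed `σ` -/
lemma Vz_ge {σ : ℝ} (hσ : 0 < σ) {z : ℕ} (hz : 1 ≤ z) :
    (∑' n : ℕ, 1 / (n : ℝ) ^ (1 + σ))⁻¹ * Real.exp (-(10 * σ + Ein (σ * Real.log z))) ≤ Vz z := by
  have h1 := euler_le (s := 1 + σ) (by linarith) z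
  have hprod : (∏ p ∈ (Icc 1 z).filter Nat.Prime, (1 - (p : ℝ) ^ (-(1 + σ)))) *
      Real.exp (-∑ p ∈ (Icc 1 z).filter Nat.Prime, (1 - Real.exp (-(σ * Real.log p))) / (p - 1)) ≤ Vz z := by
    unfold Vz
    rw [← Finset.sum_neg_distrib, Real.exp_sum, ← Finset.prod_mul_distrib]
    apply Finset.prod_le_prod
    · intro p hp
      rw [mem_filter] at hp
      have hp2 : (1 : ℝ) ≤ p := by exact_mod_cast hp.2.one_lt.le
      apply mul_nonneg _ (Real.exp_pos _).le
      rw [sub_nonneg]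
      exact Real.rpow_le_one_of_one_le_of_nonpos hp2 (by linarith)
    · intro p hp
      rw [mem_filter] at hp
      exact factor_ge hσ.le hp.2
  have hsum : ∑ p ∈ (Icc 1 z).filter Nat.Prime, (1 - Real.exp (-(σ * Real.log p))) / (p - 1) ≤
      10 * σ + Ein (σ * Real.log z) := by
    have h2 : ∀ p ∈ (Icc 1 z).filter Nat.Prime, (1 - Real.exp (-(σ * Real.log p))) / ((p : ℝ) - 1) ≤
        Real.log p / p * ph σ (Real.log p) + σ * (Real.log p / (p * (p - 1))) := by
      intro p hp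
      rw [mem_filter] at hp
      have hp2 : (2 : ℝ) ≤ p := by exact_mod_cast hp.2.two_le
      have hp0 : (0 : ℝ) < p := by linarith
      have hp1 : (0 : ℝ) < (p : ℝ) - 1 := by linarith
      have h3 := ph_mul (σ := σ) (t := Real.log p)
      have h4 : Real.log p / p * ph σ (Real.log p) = (1 - Real.exp (-(σ * Real.log p))) / p := by
        rw [← h3]
        ring
      rw [h4]
      have h5 : 1 - Real.exp (-(σ * Real.log p)) ≤ σ * Real.log p := by
        have := Real.add_one_le_exp (-(σ * Real.log p))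
        linarith
      have h6 : (1 - Real.exp (-(σ * Real.log p))) / ((p : ℝ) - 1) =
          (1 - Real.exp (-(σ * Real.log p))) / p + (1 - Real.exp (-(σ * Real.log p))) / (p * (p - 1)) := by
        field_simp
        ring
      rw [h6]
      have h7 : (1 - Real.exp (-(σ * Real.log p))) / ((p : ℝ) * (p - 1)) ≤
          σ * (Real.log p / (p * (p - 1))) := by
        rw [← mul_div_assoc]
        exact div_le_div_of_nonneg_right h5 (by positivity)
      linarith
    refine (Finset.sum_le_sum h2).trans ?_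
    rw [Finset.sum_add_distrib, ← Finset.mul_sum]
    have h8 := sum_ph_le hσ.le hz
    have h9 := mul_le_mul_of_nonneg_left (sum_log_div_le z) hσ.le
    linarith
  have hpp : 0 < ∏ p ∈ (Icc 1 z).filter Nat.Prime, (1 - (p : ℝ) ^ (-(1 + σ))) := by
    apply Finset.prod_pos
    intro p hp
    rw [mem_filter] at hp
    have hp2 : (1 : ℝ) < p := by exact_mod_cast hp.2.one_lt
    rw [sub_pos]
    exact Real.rpow_lt_one_of_one_lt_of_neg hp2 (by linarith)
  have h10 : (∑' n : ℕ, 1 / (n : ℝ) ^ (1 + σ))⁻¹ ≤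
      ∏ p ∈ (Icc 1 z).filter Nat.Prime, (1 - (p : ℝ) ^ (-(1 + σ))) := by
    rw [inv_le_comm₀ _ hpp]
    · exact h1
    · exact lt_of_lt_of_le (inv_pos.mpr hpp) h1
  refine le_trans ?_ hprod
  apply mul_le_mul h10 _ (Real.exp_pos _).le hpp.le
  apply Real.exp_le_exp.mpr
  linarith

/-- `liminf V(z) log z ≥ p(1)` -/
lemma Vz_eventually {c : ℝ} (hc : c < pp 1) : ∀ᶠ z : ℕ in atTop, c ≤ Vz z * Real.log z := by
  -- choose x with x g(x) > c
  have h1 : ∀ᶠ x in atTop, c < x * gg x := tendsto_xgg.eventually_const_lt hc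
  obtain ⟨x, hx, hx0⟩ := (h1.and (eventually_gt_atTop (0 : ℝ))).exists
  -- limit in z
  have hlog : Tendsto (fun z : ℕ => Real.log z) atTop atTop :=
    Real.tendsto_log_atTop.comp tendsto_natCast_atTop_atTop
  have hσ : Tendsto (fun z : ℕ => x / Real.log z) atTop (𝓝 0) := hlog.const_div_atTop x
  have hσ' : Tendsto (fun z : ℕ => 1 + x / Real.log z) atTop (𝓝[>] 1) := by
    rw [tendsto_nhdsWithin_iff]
    constructor
    · simpa using hσ.const_add 1
    · filter_upwards [hlog.eventually_gt_atTop 0] with z hz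
      show (1 : ℝ) < 1 + x / Real.log z
      have := div_pos hx0 hz
      linarith
  have hz := tendsto_sub_mul_tsum_nat_rpow.comp hσ'
  have hlim : Tendsto (fun z : ℕ => x * ((1 + x / Real.log z - 1) *
      ∑' n : ℕ, 1 / (n : ℝ) ^ (1 + x / Real.log z))⁻¹ * Real.exp (-(10 * (x / Real.log z) + Ein x)))
      atTop (𝓝 (x * 1⁻¹ * Real.exp (-(10 * 0 + Ein x)))) := by
    apply Tendsto.mul
    · exact (hz.inv₀ one_ne_zero).const_mul x
    · apply (Real.continuous_exp.tendsto _).comp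
      apply Tendsto.neg
      exact (hσ.const_mul 10).add_const _
  have hval : x * 1⁻¹ * Real.exp (-(10 * 0 + Ein x)) = x * gg x := by
    unfold gg
    simp
  rw [hval] at hlim
  filter_upwards [hlim.eventually_const_lt hx, eventually_ge_atTop 3] with z h2 hz3
  refine h2.le.trans ?_
  have hlz : 0 < Real.log z := Real.log_pos (by exact_mod_cast (by omega : 1 < z))
  have h3 := Vz_ge (σ := x / Real.log z) (div_pos hx0 hlz) (z := z) (by omega)
  have h4 : x / Real.log z * Real.log z = x := by field_simp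
  rw [h4] at h3
  have h5 := mul_le_mul_of_nonneg_right h3 hlz.le
  refine le_trans (le_of_eq ?_) h5
  have h6 : 1 + x / Real.log z - 1 = x / Real.log z := by ring
  rw [h6, mul_inv]
  have hx0' := hx0.ne'
  have hlz' := hlz.ne'
  rw [inv_div]
  field_simp

end Pool.Agent.Work.MP_b0c12c_nt
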