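import Mathlib
import Pool.Agent.Work.MP_b0c12c_nt.Beta
import Pool.Agent.Work.MP_b0c12c_nt.Vz
import Pool.Agent.Work.PNT70.PNT

/-! Upper bound for the number of rough numbers up to `z^u`. -/

namespace Pool.Agent.Work.MP_b0c12c_nt

open MeasureTheory Filter Finset Topology ArithmeticFunction

lemma inner_psi {z y : ℕ} : ∑ d ∈ Ro z y, Λ d ≤ Chebyshev.psi (y : ℝ) := by
  unfold Chebyshev.psi
  rw [Nat.floor_natCast]
  apply Finset.sum_le_sum_of_subset_of_nonneg
  · intro d hd
    rw [mem_Ro] at hd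
    rw [mem_Ioc]
    omega
  · intro d _ _
    exact vonMangoldt_nonneg

lemma inner_psi_small {z y : ℕ} (h : y ≤ z) : ∑ d ∈ Ro z y, Λ d = 0 := by
  apply Finset.sum_eq_zero
  intro d hd
  by_cases h1 : d = 1
  · subst h1; simp
  · have := Ro_gt hd h1
    have := (mem_Ro.mp hd).1.2
    omega

lemma sum_log_le {z n : ℕ} (hz : 1 ≤ z) {ε : ℝ} (hε : 0 ≤ ε)
    (hψ : ∀ y : ℕ, z ≤ y → Chebyshev.psi (y : ℝ) ≤ (1 + ε) * y) :
    ∑ m ∈ Ro z n, Real.log m ≤ (1 + ε) * n * Bz z (n / z) := by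
  have hid := sum_log z n (fun _ => 1)
  rw [sum_swap z n (fun d e => Λ d * 1)] at hid
  simp only [one_mul, mul_one] at hid
  rw [hid]
  have h1 : ∀ e ∈ Ro z n, ∑ d ∈ Ro z (n / e), Λ d ≤
      if e ≤ n / z then (1 + ε) * n * (1 / (e : ℝ)) else 0 := by
    intro e he
    have he1 : 1 ≤ e := (mem_Ro.mp he).1.1
    have he0 : (0 : ℝ) < e := by exact_mod_cast he1
    rcases le_or_gt (n / e) z with h2 | h2
    · rw [inner_psi_small h2]
      split_ifs
      · positivity
      · exact le_refl _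
    · have h3 : e ≤ n / z := by
        rw [Nat.le_div_iff_mul_le hz]
        calc e * z ≤ e * (n / e) := Nat.mul_le_mul_left e h2.le
          _ ≤ n := Nat.mul_div_le n e
      rw [if_pos h3]
      refine inner_psi.trans ((hψ _ h2.le).trans ?_)
      rw [mul_assoc]
      apply mul_le_mul_of_nonneg_left _ (by linarith)
      rw [mul_one_div]
      exact Nat.cast_div_le
  refine (Finset.sum_le_sum h1).trans ?_
  rw [← Finset.sum_filter]
  have h2 : (Ro z n).filter (fun e => e ≤ n / z) ⊆ Ro z (n / z) := by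
    intro e he
    rw [mem_filter] at he
    rw [mem_Ro] at he ⊢
    exact ⟨⟨he.1.1.1, he.2⟩, he.1.2⟩
  unfold Bz
  rw [Finset.mul_sum]
  apply Finset.sum_le_sum_of_subset_of_nonneg h2
  intro e _ _
  positivity

lemma card_le_of_sum_log {z n w : ℕ} (hw : 1 ≤ w) :
    (((Ro z n).card : ℝ) - w) * Real.log w ≤ ∑ m ∈ Ro z n, Real.log m := by
  have hlw : 0 ≤ Real.log w := Real.log_nonneg (by exact_mod_cast hw)
  have h1 : ∑ m ∈ (Ro z n).filter (fun m => w < m), Real.log m ≤ ∑ m ∈ Ro z n, Real.log m := by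
    apply Finset.sum_le_sum_of_subset_of_nonneg (filter_subset _ _)
    intro m hm _
    exact Real.log_nonneg (by exact_mod_cast (mem_Ro.mp hm).1.1)
  have h2 : (((Ro z n).filter (fun m => w < m)).card : ℝ) * Real.log w ≤
      ∑ m ∈ (Ro z n).filter (fun m => w < m), Real.log m := by
    rw [← nsmul_eq_mul]
    apply Finset.card_nsmul_le_sum
    intro m hm
    rw [mem_filter] at hm
    apply Real.log_le_log (by exact_mod_cast hw)
    exact_mod_cast hm.2.le
  have h3 : ((Ro z n).card : ℝ) - w ≤ (((Ro z n).filter (fun m => w < m)).card : ℝ) := by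
    have h4 := Finset.card_filter_add_card_filter_not (s := Ro z n) (fun m => w < m)
    have h5 : ((Ro z n).filter (fun m => ¬ w < m)).card ≤ w := by
      calc ((Ro z n).filter (fun m => ¬ w < m)).card ≤ (Icc 1 w).card := by
            apply Finset.card_le_card
            intro m hm
            rw [mem_filter] at hm
            rw [mem_Icc]
            exact ⟨(mem_Ro.mp hm.1).1.1, by omega⟩
        _ = w := by simp
    have h6 : ((Ro z n).card : ℝ) = (((Ro z n).filter (fun m => w < m)).card : ℝ) +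
        (((Ro z n).filter (fun m => ¬ w < m)).card : ℝ) := by exact_mod_cast h4.symm
    have h7 : (((Ro z n).filter (fun m => ¬ w < m)).card : ℝ) ≤ w := by exact_mod_cast h5
    linarith
  calc (((Ro z n).card : ℝ) - w) * Real.log w ≤
      (((Ro z n).filter (fun m => w < m)).card : ℝ) * Real.log w := mul_le_mul_of_nonneg_right h3 hlw
    _ ≤ _ := h2.trans h1

lemma psi_upper {ε : ℝ} (hε : 0 < ε) : ∃ y0 : ℕ, ∀ y : ℕ, y0 ≤ y →
    Chebyshev.psi (y : ℝ) ≤ (1 + ε) * y := by
  have h := PNT70.psi_tendsto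
  have h1 := h.eventually_le_const (show (1 : ℝ) < 1 + ε by linarith)
  rw [eventually_atTop] at h1
  obtain ⟨a, ha⟩ := h1
  refine ⟨⌈a⌉₊ + 1, fun y hy => ?_⟩
  have hy0 : (0 : ℝ) < y := by exact_mod_cast (by omega : 0 < y)
  have h2 := ha y ((Nat.le_ceil a).trans (by exact_mod_cast (by omega : ⌈a⌉₊ ≤ y)))
  rwa [div_le_iff₀ hy0] at h2

/-- asymptotic upper bound for the count of rough numbers -/
lemma card_Ro_eventually {N : ℕ} {b : ℝ → ℝ} (hb : IsB N b) {u : ℝ} (hu : 2 ≤ u) (huN : u ≤ N + 1)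
    {c : ℝ} (hc : b (u - 1) / u < c) :
    ∀ᶠ z : ℕ in atTop, ((Ro z ⌊(z : ℝ) ^ u⌋₊).card : ℝ) * Real.log z ≤ c * (z : ℝ) ^ u := by
  -- auxiliary limit
  have hlog : Tendsto (fun z : ℕ => Real.log z) atTop atTop :=
    Real.tendsto_log_atTop.comp tendsto_natCast_atTop_atTop
  obtain ⟨K, hK⟩ : ∃ K, K = 28 * Real.exp (4 * (u - 1 - 1)) * Real.exp (2 * (u - 1 - 1)) := ⟨_, rfl⟩
  -- choose ε, η with (1+ε) (b + ε)/(u - ε) + ε < c
  have hcont : Tendsto (fun ε : ℝ => (1 + ε) * (b (u - 1) + ε) / (u - ε) + ε) (𝓝 0)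
      (𝓝 ((1 + 0) * (b (u - 1) + 0) / (u - 0) + 0)) := by
    apply Tendsto.add _ tendsto_id
    apply Tendsto.div
    · exact (tendsto_id.const_add 1).mul (tendsto_id.const_add _)
    · exact tendsto_id.const_sub u
    · linarith
  have hval : (1 + 0) * (b (u - 1) + 0) / (u - 0) + 0 = b (u - 1) / u := by ring
  rw [hval] at hcont
  have h1 := hcont.eventually_lt_const hc
  have h2 : ∀ᶠ ε : ℝ in 𝓝[>] 0, (1 + ε) * (b (u - 1) + ε) / (u - ε) + ε < c :=
    h1.filter_mono nhdsWithin_le_nhds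
  have h3 : ∀ᶠ ε : ℝ in 𝓝[>] 0, ε < 1 := by
    have : Set.Ioo (0 : ℝ) 1 ∈ 𝓝[>] (0 : ℝ) := Ioo_mem_nhdsGT one_pos
    filter_upwards [this] with ε hε
    exact hε.2
  have h4 : ∀ᶠ ε : ℝ in 𝓝[>] 0, 0 < ε := by
    filter_upwards [self_mem_nhdsWithin] with ε hε
    exact hε
  obtain ⟨ε, hε1, hε2, hε0⟩ := (h2.and (h3.and h4)).exists
  obtain ⟨y0, hy0⟩ := psi_upper hε0
  -- conditions on z
  have hK1 : ∀ᶠ z : ℕ in atTop, K / Real.log z ≤ ε := by
    have : Tendsto (fun z : ℕ => K / Real.log z) atTop (𝓝 0) := hlog.const_div_atTop K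
    exact this.eventually_le_const hε0
  have hK2 : ∀ᶠ z : ℕ in atTop, 1 / Real.log z ≤ ε := by
    have : Tendsto (fun z : ℕ => 1 / Real.log z) atTop (𝓝 0) := hlog.const_div_atTop 1
    exact this.eventually_le_const hε0
  have hK3 : ∀ᶠ z : ℕ in atTop, 2 * Real.log (Real.log z) + Real.log 2 ≤ ε * Real.log z := by
    have h5 : Tendsto (fun x : ℝ => (2 * Real.log x + Real.log 2) / x) atTop (𝓝 0) := by
      have h6 : Tendsto (fun x : ℝ => Real.log x / x) atTop (𝓝 0) := by
        have := Real.isLittleO_log_id_atTop.tendsto_div_nhds_zero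
        simpa using this
      have h7 : Tendsto (fun x : ℝ => Real.log 2 / x) atTop (𝓝 0) :=
        tendsto_id.const_div_atTop _
      have h8 := (h6.const_mul 2).add h7
      simp only [mul_zero, add_zero] at h8
      refine h8.congr fun x => ?_
      ring
    have h9 := (h5.comp hlog).eventually_le_const hε0
    filter_upwards [h9, hlog.eventually_gt_atTop 0] with z hz1 hz2
    rwa [Function.comp_apply, div_le_iff₀ hz2] at hz1
  have hz1 : ∀ᶠ z : ℕ in atTop, (2 : ℝ) ≤ (z : ℝ) ^ u / (Real.log z) ^ 2 := by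
    -- log z <= z, z^u/(log z)^2 >= ... use log z ≤ z^(1/2) * 2
    have h5 : ∀ᶠ z : ℕ in atTop, Real.log z ≤ (z : ℝ) ^ (1 / 2 : ℝ) := by
      have := (isLittleO_log_rpow_atTop (r := 1 / 2) (by norm_num)).bound (c := 1) one_pos
      have h6 := tendsto_natCast_atTop_atTop.eventually this
      filter_upwards [h6, eventually_ge_atTop 1] with z hz hz1
      have hzr : (1 : ℝ) ≤ z := by exact_mod_cast hz1
      rw [Real.norm_of_nonneg (Real.log_nonneg hzr), Real.norm_of_nonneg (by positivity), one_mul] at hz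
      exact hz
    filter_upwards [h5, eventually_ge_atTop 3] with z hz hz3
    have hzr : (1 : ℝ) < z := by exact_mod_cast (by omega : 1 < z)
    have hlz : 0 < Real.log z := Real.log_pos hzr
    rw [le_div_iff₀ (by positivity)]
    have h6 : (Real.log (z : ℝ)) ^ 2 ≤ (z : ℝ) := by
      calc (Real.log (z : ℝ)) ^ 2 ≤ ((z : ℝ) ^ (1 / 2 : ℝ)) ^ 2 := by
            apply pow_le_pow_left₀ hlz.le hz
        _ = (z : ℝ) := by
            rw [← Real.rpow_natCast, ← Real.rpow_mul (by linarith)]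
            norm_num
    have h7 : (z : ℝ) ^ (2 : ℝ) ≤ (z : ℝ) ^ u := Real.rpow_le_rpow_of_exponent_le hzr.le hu
    have h8 : (z : ℝ) ^ (2 : ℝ) = z * z := by
      rw [show (2 : ℝ) = ((2 : ℕ) : ℝ) by norm_num, Real.rpow_natCast]
      ring
    have h9 : (3 : ℝ) ≤ z := by exact_mod_cast hz3
    have h10 : 2 * (z : ℝ) ≤ z * z := by nlinarith
    rw [h8] at h7
    linarith
  filter_upwards [hK1, hK2, hK3, hz1, hlog.eventually_ge_atTop 14, eventually_ge_atTop 3,
    eventually_ge_atTop y0] with z k1 k2 k3 k4 k5 k6 k7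
  have hzr : (1 : ℝ) < z := by exact_mod_cast (by omega : 1 < z)
  have hz0 : (0 : ℝ) < z := by linarith
  have hlz : 0 < Real.log z := Real.log_pos hzr
  obtain ⟨n, hn⟩ : ∃ n, n = ⌊(z : ℝ) ^ u⌋₊ := ⟨_, rfl⟩
  rw [← hn]
  have hnle : (n : ℝ) ≤ (z : ℝ) ^ u := by
    rw [hn]
    exact Nat.floor_le (by positivity)
  have hA := sum_log_le (z := z) (n := n) (by omega) hε0.le (fun y hy => hy0 y (by omega))
  have hnz : n / z = ⌊(z : ℝ) ^ (u - 1)⌋₊ := by
    rw [hn, ← Nat.floor_div_natCast]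
    congr 1
    rw [Real.rpow_sub_one hz0.ne']
  have hB : Bz z (n / z) ≤ b (u - 1) + ε := by
    rw [hnz]
    have h5 := beta_le hb (z := z) (by omega) k5 (V := u - 1) (by linarith) (u - 1)
      ⟨by linarith, le_refl _⟩
    refine h5.trans ?_
    have h6 : 28 * Real.exp (4 * (u - 1 - 1)) / Real.log z * Real.exp (2 * (u - 1 - 1)) =
        K / Real.log z := by
      rw [hK]
      ring
    rw [h6]
    linarith
  obtain ⟨W, hW⟩ : ∃ W, W = (z : ℝ) ^ u / (Real.log z) ^ 2 := ⟨_, rfl⟩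
  rw [← hW] at k4
  obtain ⟨w, hw⟩ : ∃ w, w = ⌊W⌋₊ := ⟨_, rfl⟩
  have hw1 : 1 ≤ w := by
    rw [hw, Nat.le_floor_iff (by linarith)]
    push_cast
    linarith
  have hwle : (w : ℝ) ≤ W := by
    rw [hw]
    exact Nat.floor_le (by linarith)
  have hwge : W / 2 ≤ w := by
    have := Nat.lt_floor_add_one W
    rw [← hw] at this
    linarith
  have hlw : (u - ε) * Real.log z ≤ Real.log w := by
    have h5 : Real.log (W / 2) ≤ Real.log w := Real.log_le_log (by linarith) hwge
    have h6 : Real.log (W / 2) = u * Real.log z - 2 * Real.log (Real.log z) - Real.log 2 := by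
      rw [Real.log_div (by linarith) (by norm_num), hW, Real.log_div (by positivity) (by positivity),
        Real.log_rpow hz0, Real.log_pow]
      push_cast
      ring
    rw [h6] at h5
    linarith
  have hC := card_le_of_sum_log (z := z) (n := n) hw1
  obtain ⟨cr, hcr⟩ : ∃ cr, cr = ((Ro z n).card : ℝ) := ⟨_, rfl⟩
  rw [← hcr] at hC ⊢
  have hue : 0 < u - ε := by linarith
  have hbnn : 0 ≤ b (u - 1) + ε := le_trans (Bz_nonneg _ _) hB
  -- (cr - w) * (u-ε) log z ≤ (1+ε) z^u (b+ε)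
  have h10 : (cr - w) * ((u - ε) * Real.log z) ≤ (1 + ε) * (z : ℝ) ^ u * (b (u - 1) + ε) := by
    have h11 : (1 + ε) * n * Bz z (n / z) ≤ (1 + ε) * (z : ℝ) ^ u * (b (u - 1) + ε) := by
      apply mul_le_mul _ hB (Bz_nonneg _ _) (by positivity)
      exact mul_le_mul_of_nonneg_left hnle (by linarith)
    rcases le_or_gt (cr - w) 0 with h | h
    · have : (cr - w) * ((u - ε) * Real.log z) ≤ 0 :=
        mul_nonpos_of_nonpos_of_nonneg h (by positivity)
      have : 0 ≤ (1 + ε) * (z : ℝ) ^ u * (b (u - 1) + ε) := by positivity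
      linarith
    · calc (cr - w) * ((u - ε) * Real.log z) ≤ (cr - w) * Real.log w :=
            mul_le_mul_of_nonneg_left hlw h.le
        _ ≤ _ := hC.trans (hA.trans h11)
  have h12 : (cr - w) * Real.log z ≤ (1 + ε) * (b (u - 1) + ε) / (u - ε) * (z : ℝ) ^ u := by
    have : (cr - w) * Real.log z = (cr - w) * ((u - ε) * Real.log z) / (u - ε) := by field_simp
    rw [this, div_mul_eq_mul_div]
    apply div_le_div_of_nonneg_right _ hue.le
    linarith
  have h13 : (w : ℝ) * Real.log z ≤ ε * (z : ℝ) ^ u := by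
    calc (w : ℝ) * Real.log z ≤ W * Real.log z := mul_le_mul_of_nonneg_right hwle hlz.le
      _ = 1 / Real.log z * (z : ℝ) ^ u := by
          rw [hW]
          field_simp
      _ ≤ ε * (z : ℝ) ^ u := mul_le_mul_of_nonneg_right k2 (by positivity)
  have h14 : 0 < (z : ℝ) ^ u := by positivity
  nlinarith

end Pool.Agent.Work.MP_b0c12c_nt
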