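import Mathlib
import Pool.Agent.Work.MP_b0c12c_nt.Kern

/-! `p(1) = exp (-gamma)`. -/

namespace Pool.Agent.Work.MP_b0c12c_nt

open MeasureTheory Filter Finset Topology

/-- integrand for the harmonic number -/
noncomputable def hh (n : ℕ) (s : ℝ) : ℝ := ∑ k ∈ range n, (1 / (n : ℝ)) * (1 - s / n) ^ k

lemma continuous_hh (n : ℕ) : Continuous (hh n) := by
  unfold hh
  fun_prop

lemma hh_mul {n : ℕ} (hn : 1 ≤ n) (s : ℝ) : s * hh n s = 1 - (1 - s / n) ^ n := by
  have hn0 : (n : ℝ) ≠ 0 := by exact_mod_cast (by omega : n ≠ 0)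
  unfold hh
  rw [← Finset.mul_sum]
  have h := mul_neg_geom_sum (1 - s / (n : ℝ)) n
  rw [← h]
  ring

lemma hh_integral {n : ℕ} (hn : 1 ≤ n) : ∫ s in (0 : ℝ)..n, hh n s = (harmonic n : ℝ) := by
  have hn0 : (n : ℝ) ≠ 0 := by exact_mod_cast (by omega : n ≠ 0)
  unfold hh
  rw [intervalIntegral.integral_finsetSum]
  · rw [harmonic]
    push_cast
    apply Finset.sum_congr rfl
    intro k _
    have h : ∫ s in (0 : ℝ)..n, (1 / (n : ℝ)) * (1 - s / n) ^ k =
        (-(1 - (n : ℝ) / n) ^ (k + 1) / (k + 1)) - (-(1 - (0 : ℝ) / n) ^ (k + 1) / (k + 1)) := by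
      apply intervalIntegral.integral_eq_sub_of_hasDerivAt
        (f := fun s => -(1 - s / (n : ℝ)) ^ (k + 1) / (k + 1))
      · intro s _
        have h1 : HasDerivAt (fun s : ℝ => 1 - s / n) (-(1 / n)) s := by
          have := ((hasDerivAt_id s).div_const (n : ℝ)).const_sub 1
          simpa using this
        have h2 := ((h1.pow (k + 1)).neg).div_const ((k : ℝ) + 1)
        refine h2.congr_deriv ?_
        have hk : (k : ℝ) + 1 ≠ 0 := by positivity
        simp only [Nat.add_sub_cancel]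
        push_cast
        field_simp
      · apply Continuous.intervalIntegrable
        fun_prop
    rw [h, div_self hn0]
    simp
    ring
  · intro k _
    apply Continuous.intervalIntegrable
    fun_prop

lemma pow_ge_exp {n : ℕ} (hn : 1 ≤ n) {s : ℝ} (h0 : 0 ≤ s) (h1 : s ≤ n) :
    Real.exp (-s) - (1 - s / n) ^ n ≤ s ^ 2 * Real.exp (-s) / n := by
  have hn0 : (0 : ℝ) < n := by exact_mod_cast (by omega : 0 < n)
  have hx0 : 0 ≤ 1 - s / n := by
    rw [sub_nonneg, div_le_one hn0]
    exact h1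
  have hx1 : s / n ≤ 1 := by linarith
  have hs0 : 0 ≤ s / n := div_nonneg h0 hn0.le
  have h2 : 1 - s / n * (s / n) ≤ (1 - s / n) * Real.exp (s / n) := by
    have := Real.add_one_le_exp (s / n)
    nlinarith
  have h3 : 0 ≤ 1 - s / n * (s / n) := by nlinarith
  have h4 : (1 - s / n * (s / n)) ^ n ≤ ((1 - s / n) * Real.exp (s / n)) ^ n :=
    pow_le_pow_left₀ h3 h2 n
  have h5 : 1 + (n : ℝ) * (-(s / n * (s / n))) ≤ (1 + -(s / n * (s / n))) ^ n :=
    one_add_mul_le_pow (by nlinarith) n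
  have h6 : ((1 - s / n) * Real.exp (s / n)) ^ n = (1 - s / n) ^ n * Real.exp s := by
    rw [mul_pow, ← Real.exp_nat_mul]
    congr 2
    field_simp
  rw [h6] at h4
  have h7 : (n : ℝ) * (-(s / n * (s / n))) = -(s ^ 2 / n) := by
    field_simp
  rw [h7] at h5
  have h8 : 1 - s ^ 2 / n ≤ (1 - s / n) ^ n * Real.exp s := by
    calc 1 - s ^ 2 / n = 1 + -(s ^ 2 / n) := by ring
      _ ≤ (1 + -(s / n * (s / n))) ^ n := h5
      _ = (1 - s / n * (s / n)) ^ n := by ring
      _ ≤ _ := h4
  have h9 := mul_le_mul_of_nonneg_right h8 (Real.exp_pos (-s)).le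
  have h10 : (1 - s / n) ^ n * Real.exp s * Real.exp (-s) = (1 - s / n) ^ n := by
    rw [mul_assoc, ← Real.exp_add]
    simp
  rw [h10] at h9
  have h11 : s ^ 2 * Real.exp (-s) / n = s ^ 2 / n * Real.exp (-s) := by ring
  rw [h11]
  linarith

lemma pow_le_exp' {n : ℕ} (hn : 1 ≤ n) {s : ℝ} (h1 : s ≤ n) :
    (1 - s / n) ^ n ≤ Real.exp (-s) := by
  have hn0 : (0 : ℝ) < n := by exact_mod_cast (by omega : 0 < n)
  have hx0 : 0 ≤ 1 - s / n := by
    rw [sub_nonneg, div_le_one hn0]
    exact h1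
  have h2 : 1 - s / n ≤ Real.exp (-(s / n)) := by
    have := Real.add_one_le_exp (-(s / n))
    linarith
  calc (1 - s / n) ^ n ≤ (Real.exp (-(s / n))) ^ n := pow_le_pow_left₀ hx0 h2 n
    _ = Real.exp (-s) := by
        rw [← Real.exp_nat_mul]
        congr 1
        field_simp

lemma kk_zero : kk 0 = 1 := by
  unfold kk
  simp

lemma hh_sub_kk {n : ℕ} (hn : 1 ≤ n) {s : ℝ} (h0 : 0 ≤ s) (h1 : s ≤ n) :
    |hh n s - kk s| ≤ 2 / n * Real.exp (-(1 / 2) * s) := by
  have hn0 : (0 : ℝ) < n := by exact_mod_cast (by omega : 0 < n)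
  rcases h0.eq_or_lt with h | h
  · rw [← h, kk_zero]
    have : hh n 0 = 1 := by
      unfold hh
      simp
      field_simp
    rw [this]
    simp
    positivity
  · have e1 := hh_mul hn s
    have e2 := mul_kk s
    have e3 : hh n s - kk s = (Real.exp (-s) - (1 - s / n) ^ n) / s := by
      rw [eq_div_iff h.ne']
      linarith
    rw [e3, abs_of_nonneg (div_nonneg (by linarith [pow_le_exp' hn h1]) h.le)]
    have h2 := pow_ge_exp hn h0 h1
    have h3 := x_exp_le (c := 1) (x := s) one_pos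
    calc (Real.exp (-s) - (1 - s / n) ^ n) / s ≤ (s ^ 2 * Real.exp (-s) / n) / s :=
          div_le_div_of_nonneg_right h2 h.le
      _ = 1 / n * (s * Real.exp (-1 * s)) := by
          rw [neg_one_mul]
          field_simp
      _ ≤ 1 / n * ((2 / 1) * Real.exp (-(1 / 2) * s)) :=
          mul_le_mul_of_nonneg_left h3 (by positivity)
      _ = _ := by ring

lemma Ein_harmonic {n : ℕ} (hn : 1 ≤ n) : |Ein n - (harmonic n : ℝ)| ≤ 4 / n := by
  have hn0 : (0 : ℝ) < n := by exact_mod_cast (by omega : 0 < n)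
  rw [← hh_integral hn, abs_sub_comm]
  unfold Ein
  rw [← intervalIntegral.integral_sub ((continuous_hh n).intervalIntegrable _ _)
    (continuous_kk.intervalIntegrable _ _)]
  have h1 : |∫ s in (0 : ℝ)..n, (hh n s - kk s)| ≤ ∫ s in (0 : ℝ)..n, 2 / n * Real.exp (-(1 / 2) * s) := by
    have h2 := intervalIntegral.norm_integral_le_integral_norm (f := fun s => hh n s - kk s)
      (μ := volume) hn0.le
    rw [Real.norm_eq_abs] at h2
    refine h2.trans ?_
    apply intervalIntegral.integral_mono_on hn0.le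
    · exact ((continuous_hh n).sub continuous_kk).norm.intervalIntegrable _ _
    · apply Continuous.intervalIntegrable
      fun_prop
    · intro s hs
      rw [Real.norm_eq_abs]
      exact hh_sub_kk hn hs.1 hs.2
  refine h1.trans ?_
  have h3 : ∫ s in (0 : ℝ)..n, 2 / (n : ℝ) * Real.exp (-(1 / 2) * s) =
      (-(4 / n) * Real.exp (-(1 / 2) * n)) - (-(4 / n) * Real.exp (-(1 / 2) * 0)) := by
    apply intervalIntegral.integral_eq_sub_of_hasDerivAt
      (f := fun s => -(4 / (n : ℝ)) * Real.exp (-(1 / 2) * s))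
    · intro s _
      have h4 : HasDerivAt (fun s : ℝ => -(1 / 2) * s) (-(1 / 2)) s := by
        simpa using (hasDerivAt_id s).const_mul (-(1 / 2) : ℝ)
      refine (h4.exp.const_mul (-(4 / (n : ℝ)))).congr_deriv ?_
      ring
    · apply Continuous.intervalIntegrable
      fun_prop
  rw [h3]
  simp only [mul_zero, Real.exp_zero, mul_one]
  have h5 : 0 < 4 / (n : ℝ) * Real.exp (-(1 / 2) * n) := by positivity
  linarith

theorem pp_one_eq : pp 1 = Real.exp (-Real.eulerMascheroniConstant) := by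
  have h1 : Tendsto (fun n : ℕ => (n : ℝ) * gg n) atTop (𝓝 (pp 1)) :=
    tendsto_xgg.comp tendsto_natCast_atTop_atTop
  have h2 : Tendsto (fun n : ℕ => Ein n - Real.log n) atTop (𝓝 Real.eulerMascheroniConstant) := by
    have h3 := Real.tendsto_harmonic_sub_log
    have h4 : Tendsto (fun n : ℕ => Ein n - (harmonic n : ℝ)) atTop (𝓝 0) := by
      apply squeeze_zero_norm' (a := fun n : ℕ => 4 / (n : ℝ))
      · filter_upwards [eventually_ge_atTop 1] with n hn
        rw [Real.norm_eq_abs]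
        exact Ein_harmonic hn
      · exact tendsto_natCast_atTop_atTop.const_div_atTop 4
    have h5 := h4.add h3
    rw [zero_add] at h5
    refine h5.congr fun n => ?_
    ring
  have h6 : Tendsto (fun n : ℕ => (n : ℝ) * gg n) atTop
      (𝓝 (Real.exp (-Real.eulerMascheroniConstant))) := by
    have h7 := (Real.continuous_exp.tendsto _).comp h2.neg
    refine h7.congr' ?_
    filter_upwards [eventually_ge_atTop 1] with n hn
    have hn0 : (0 : ℝ) < n := by exact_mod_cast (by omega : 0 < n)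
    simp only [Function.comp_apply]
    unfold gg
    rw [neg_sub, Real.exp_sub, Real.exp_log hn0, Real.exp_neg]
    rfl
  exact tendsto_nhds_unique h1 h6

end Pool.Agent.Work.MP_b0c12c_nt
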