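import Mathlib
import Pool.Agent.Work.MP_b0c12c_nt.Gam
import Pool.Agent.Work.MP_b0c12c_nt.Count

/-! Buchstab's function, removal of one large prime from the modulus. -/

namespace Pool.Agent.Work.MP_b0c12c_nt

open MeasureTheory Filter Finset Topology ArithmeticFunction

/-- `w` is Buchstab's function on `[1, ∞)`. -/
def IsBuchstab (w : ℝ → ℝ) : Prop :=
  (∀ u ∈ Set.Icc (1 : ℝ) 2, w u = 1 / u) ∧
    ∀ u : ℝ, 2 ≤ u → u * w u = 1 + ∫ v in (1 : ℝ)..(u - 1), w v

lemma IsBuchstab.eq_b {w : ℝ → ℝ} (hw : IsBuchstab w) {N : ℕ} {b : ℝ → ℝ} (hb : IsB N b) :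
    ∀ n : ℕ, ∀ u : ℝ, 1 ≤ u → u ≤ n + 2 → u ≤ N + 1 → u * w u = b (u - 1) := by
  intro n
  induction n with
  | zero =>
    intro u h1 h2 _
    rw [hw.1 u ⟨h1, by simpa using h2⟩, hb.one (u - 1) (by push_cast at h2; linarith)]
    field_simp
  | succ n ih =>
    intro u h1 h2 h3
    rcases le_or_gt u ((n : ℝ) + 2) with h | h
    · exact ih u h1 h h3
    · have hn : (0 : ℝ) ≤ n := Nat.cast_nonneg n
      rw [hw.2 u (by linarith), hb.eq (u - 1) (by linarith) (by linarith)]
      congr 1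
      apply intervalIntegral.integral_congr
      intro v hv
      rw [Set.uIcc_of_le (by linarith)] at hv
      simp only
      rw [max_eq_left hv.1]
      push_cast at h2
      have h4 := ih v hv.1 (by linarith [hv.2]) (by linarith [hv.2])
      have : v ≠ 0 := by linarith [hv.1]
      field_simp
      linarith

/-- In every interval `[n, n+1]`, `n ≥ 1`, Buchstab's function takes a value `< e^{-γ}`. -/
lemma IsBuchstab.exists_lt {w : ℝ → ℝ} (hw : IsBuchstab w) {n : ℕ} (hn : 1 ≤ n) :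
    ∃ u : ℝ, (n : ℝ) ≤ u ∧ u ≤ n + 1 ∧ w u < Real.exp (-Real.eulerMascheroniConstant) := by
  obtain ⟨b, hb⟩ := exists_isB n
  obtain ⟨v, hv1, hv2, hv3⟩ := hb.deficit hn le_rfl
  have hn1 : (1 : ℝ) ≤ n := by exact_mod_cast hn
  refine ⟨v + 1, by linarith, by linarith, ?_⟩
  have h := hw.eq_b hb n (v + 1) (by linarith) (by linarith) (by linarith)
  rw [add_sub_cancel_right] at h
  rw [← h, pp_one_eq] at hv3
  have : (0 : ℝ) < v + 1 := by linarith
  nlinarith

end Pool.Agent.Work.MP_b0c12c_nt
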