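import Mathlib
import Pool.Agent.Work.MP_b0c12c_nt.Omega

/-! Numbers coprime to `q`, where `q` is the primorial of `z` or the primorial with one
large prime removed. -/

namespace Pool.Agent.Work.MP_b0c12c_nt

open MeasureTheory Filter Finset Topology ArithmeticFunction

/-- numbers up to `n` coprime to `q` -/
def Cq (q n : ℕ) : Finset ℕ := (Icc 1 n).filter (fun m => m.Coprime q)

lemma Cq_primorial (z n : ℕ) : Cq (primorial z) n = Ro z n := rfl

lemma card_Cq_le (q n : ℕ) : (Cq q n).card ≤ n := by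
  calc (Cq q n).card ≤ (Icc 1 n).card := Finset.card_filter_le _ _
    _ = n := by simp

lemma card_Cq_diff (q : ℕ) (n m : ℕ) : (Cq q m).card ≤ (Cq q n).card + (m - n) := by
  have h1 : Cq q m ⊆ Cq q n ∪ Ioc n m := by
    intro x hx
    unfold Cq at hx ⊢
    rw [mem_filter, mem_Icc] at hx
    rw [mem_union, mem_filter, mem_Icc, mem_Ioc]
    by_cases hxn : x ≤ n
    · left
      exact ⟨⟨hx.1.1, hxn⟩, hx.2⟩
    · right
      omega
  calc (Cq q m).card ≤ (Cq q n ∪ Ioc n m).card := Finset.card_le_card h1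
    _ ≤ (Cq q n).card + (Ioc n m).card := Finset.card_union_le _ _
    _ = _ := by simp

lemma Cq_step {z q p : ℕ} (hp : p.Prime) (hq : q * p = primorial z) (n : ℕ) :
    (Cq q n).card ≤ (Ro z n).card + (Cq q (n / p)).card := by
  have h1 : Cq q n ⊆ Ro z n ∪ (Cq q (n / p)).image (fun m => p * m) := by
    intro x hx
    unfold Cq at hx
    rw [mem_filter, mem_Icc] at hx
    rw [mem_union]
    by_cases hpx : p ∣ x
    · right
      obtain ⟨y, rfl⟩ := hpx
      rw [mem_image]
      refine ⟨y, ?_, rfl⟩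
      unfold Cq
      rw [mem_filter, mem_Icc]
      refine ⟨⟨?_, ?_⟩, Nat.Coprime.coprime_mul_left hx.2⟩
      · by_contra hcon
        have : y = 0 := by omega
        subst this
        omega
      · rw [Nat.le_div_iff_mul_le hp.pos, mul_comm]
        exact hx.1.2
    · left
      rw [mem_Ro]
      refine ⟨hx.1, ?_⟩
      rw [← hq]
      exact Nat.Coprime.mul_right hx.2 ((Nat.Prime.coprime_iff_not_dvd hp).mpr hpx).symm
  calc (Cq q n).card ≤ _ := Finset.card_le_card h1
    _ ≤ (Ro z n).card + ((Cq q (n / p)).image (fun m => p * m)).card := Finset.card_union_le _ _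
    _ ≤ _ := by
        apply Nat.add_le_add_left
        exact Finset.card_image_le

lemma Cq_iter {z q p : ℕ} (hp : p.Prime) (hq : q * p = primorial z) (n J : ℕ) :
    (Cq q n).card ≤ ∑ j ∈ range J, (Ro z (n / p ^ j)).card + (Cq q (n / p ^ J)).card := by
  induction J with
  | zero => simp
  | succ J ih =>
    rw [Finset.sum_range_succ]
    have h := Cq_step hp hq (n / p ^ J)
    rw [Nat.div_div_eq_div_mul, ← pow_succ] at h
    omega

/-- uniform crude bound -/
lemma card_Ro_crude (N : ℕ) (hN : 2 ≤ N) : ∃ C : ℝ, 0 < C ∧ ∀ᶠ z : ℕ in atTop, ∀ y : ℕ,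
    (z : ℝ) ^ (3 / 2 : ℝ) ≤ y → (y : ℝ) ≤ (z : ℝ) ^ (N : ℝ) →
      ((Ro z y).card : ℝ) * Real.log z ≤ C * y := by
  obtain ⟨K, hK⟩ : ∃ K, K = 4 * Real.exp (4 * ((N : ℝ) - 1 - 1)) := ⟨_, rfl⟩
  have hK0 : 0 < K := by rw [hK]; positivity
  refine ⟨8 * K + 1, by linarith, ?_⟩
  have hlog : Tendsto (fun z : ℕ => Real.log z) atTop atTop :=
    Real.tendsto_log_atTop.comp tendsto_natCast_atTop_atTop
  obtain ⟨y0, hy0⟩ := psi_upper (ε := 1) one_pos
  have h5 : ∀ᶠ z : ℕ in atTop, Real.log z ≤ (z : ℝ) ^ (3 / 4 : ℝ) := by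
    have := (isLittleO_log_rpow_atTop (r := 3 / 4) (by norm_num)).bound (c := 1) one_pos
    have h6 := tendsto_natCast_atTop_atTop.eventually this
    filter_upwards [h6, eventually_ge_atTop 1] with z hz hz1
    have hzr : (1 : ℝ) ≤ z := by exact_mod_cast hz1
    rw [Real.norm_of_nonneg (Real.log_nonneg hzr), Real.norm_of_nonneg (by positivity), one_mul] at hz
    exact hz
  filter_upwards [hlog.eventually_ge_atTop 14, eventually_ge_atTop y0, eventually_ge_atTop 3, h5]
    with z k1 k2 k3 k4 y hy1 hy2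
  have hzr : (1 : ℝ) < z := by exact_mod_cast (by omega : 1 < z)
  have hz0 : (0 : ℝ) < z := by linarith
  have hlz : 0 < Real.log z := by linarith
  have hA := sum_log_le (z := z) (n := y) (by omega) zero_le_one (fun y hy => hy0 y (by omega))
  have hB : Bz z (y / z) ≤ K := by
    have h1 : y / z ≤ ⌊(z : ℝ) ^ ((N : ℝ) - 1)⌋₊ := by
      rw [Nat.le_floor_iff (by positivity)]
      refine Nat.cast_div_le.trans ?_
      rw [Real.rpow_sub_one hz0.ne']
      exact div_le_div_of_nonneg_right hy2 hz0.le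
    have h2 := beta_crude (z := z) (by omega) k1 (V := (N : ℝ) - 1) ((N : ℝ) - 1) ⟨by
      have : (2 : ℝ) ≤ N := by exact_mod_cast hN
      linarith, le_refl _⟩
    rw [← hK] at h2
    exact (Bz_mono z h1).trans h2
  have hy00 : (0 : ℝ) < y := lt_of_lt_of_le (by positivity) hy1
  have hzs : (z : ℝ) ^ (3 / 4 : ℝ) ≤ Real.sqrt y := by
    rw [Real.le_sqrt (by positivity) hy00.le, ← Real.rpow_natCast, ← Real.rpow_mul hz0.le]
    norm_num
    exact hy1
  obtain ⟨w, hw⟩ : ∃ w, w = ⌊Real.sqrt y⌋₊ := ⟨_, rfl⟩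
  have hs14 : 14 ≤ Real.sqrt y := (k1.trans k4).trans hzs
  have hw1 : 1 ≤ w := by
    rw [hw, Nat.le_floor_iff (by linarith)]
    push_cast
    linarith
  have hwle : (w : ℝ) ≤ Real.sqrt y := by
    rw [hw]
    exact Nat.floor_le (by linarith)
  have hwge : Real.sqrt y / 2 ≤ w := by
    have := Nat.lt_floor_add_one (Real.sqrt y)
    rw [← hw] at this
    linarith
  have hlw : 1 / 2 * Real.log z ≤ Real.log w := by
    have h6 : Real.log ((z : ℝ) ^ (3 / 4 : ℝ) / 2) ≤ Real.log w := by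
      apply Real.log_le_log (by positivity)
      refine le_trans ?_ hwge
      exact div_le_div_of_nonneg_right hzs (by norm_num)
    rw [Real.log_div (by positivity) (by norm_num), Real.log_rpow hz0] at h6
    have h7 : Real.log 2 ≤ 1 := by
      have := Real.log_two_lt_d9
      linarith
    linarith
  have hC := card_le_of_sum_log (z := z) (n := y) hw1
  obtain ⟨cr, hcr⟩ : ∃ cr, cr = ((Ro z y).card : ℝ) := ⟨_, rfl⟩
  rw [← hcr] at hC ⊢
  have h8 : (1 + 1) * (y : ℝ) * Bz z (y / z) ≤ 2 * y * K := by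
    have := mul_le_mul_of_nonneg_left hB (show (0 : ℝ) ≤ (1 + 1) * y by positivity)
    linarith
  have h9 : (cr - w) * Real.log z ≤ 8 * K * y := by
    rcases le_or_gt (cr - w) 0 with h | h
    · have h10 : (cr - w) * Real.log z ≤ 0 := mul_nonpos_of_nonpos_of_nonneg h hlz.le
      have h11 : 0 ≤ 8 * K * y := by positivity
      linarith
    · have h10 : (cr - w) * (1 / 2 * Real.log z) ≤ (cr - w) * Real.log w :=
        mul_le_mul_of_nonneg_left hlw h.le
      have h11 : 0 < K * y := by positivity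
      nlinarith
  have h12 : (w : ℝ) * Real.log z ≤ y := by
    calc (w : ℝ) * Real.log z ≤ Real.sqrt y * Real.sqrt y := by
          apply mul_le_mul hwle (k4.trans hzs) hlz.le (Real.sqrt_nonneg _)
      _ = y := Real.mul_self_sqrt hy00.le
  have h13 : cr * Real.log z = (cr - w) * Real.log z + w * Real.log z := by ring
  rw [h13]
  linarith

/-- the moduli used -/
def IsMod (K z q : ℕ) : Prop :=
  q = primorial z ∨ ∃ p : ℕ, p.Prime ∧ K < p ∧ p ≤ z ∧ q * p = primorial z

lemma IsMod.dvd {K z q : ℕ} (h : IsMod K z q) : q ∣ primorial z := by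
  rcases h with h | ⟨p, _, _, _, h⟩
  · rw [h]
  · exact Dvd.intro _ h

lemma primorial_pos' (z : ℕ) : 0 < primorial z := primorial_pos z

lemma IsMod.pos {K z q : ℕ} (h : IsMod K z q) : 0 < q :=
  Nat.pos_of_dvd_of_pos h.dvd (primorial_pos z)

lemma primeFactors_primorial (z : ℕ) : (primorial z).primeFactors ⊆ (Icc 1 z).filter Nat.Prime := by
  intro p hp
  rw [Nat.mem_primeFactors] at hp
  rw [mem_filter, mem_Icc]
  exact ⟨⟨hp.1.one_lt.le, hp.1.dvd_primorial_iff.mp hp.2.1⟩, hp.1⟩

lemma totient_ge {q z : ℕ} (hq : q ∣ primorial z) (hq0 : 0 < q) :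
    Vz z * q ≤ (q.totient : ℝ) := by
  have h1 := Nat.totient_eq_mul_prod_factors q
  have h2 : (q.totient : ℝ) = q * ∏ p ∈ q.primeFactors, (1 - 1 / (p : ℝ)) := by
    have : ((q.totient : ℚ) : ℝ) = ((q * ∏ p ∈ q.primeFactors, (1 - (p : ℚ)⁻¹) : ℚ) : ℝ) := by
      rw [h1]
    push_cast at this
    rw [this]
    congr 1
    apply Finset.prod_congr rfl
    intro p _
    rw [one_div]
  rw [h2, mul_comm]
  apply mul_le_mul_of_nonneg_left _ (Nat.cast_nonneg q)
  unfold Vz
  have h3 : q.primeFactors ⊆ (Icc 1 z).filter Nat.Prime :=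
    (Nat.primeFactors_mono hq (primorial_pos z).ne').trans (primeFactors_primorial z)
  rw [← Finset.prod_sdiff h3]
  have h4 : ∏ p ∈ ((Icc 1 z).filter Nat.Prime) \ q.primeFactors, (1 - 1 / (p : ℝ)) ≤ 1 := by
    apply Finset.prod_le_one
    · intro p hp
      rw [Finset.mem_sdiff, mem_filter] at hp
      have : (1 : ℝ) ≤ p := by exact_mod_cast hp.1.2.one_lt.le
      rw [sub_nonneg, div_le_one (by linarith)]
      exact this
    · intro p _
      have : 0 ≤ 1 / (p : ℝ) := by positivity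
      linarith
  have h5 : 0 ≤ ∏ p ∈ q.primeFactors, (1 - 1 / (p : ℝ)) := by
    apply Finset.prod_nonneg
    intro p hp
    have : (1 : ℝ) ≤ p := by exact_mod_cast (Nat.prime_of_mem_primeFactors hp).one_lt.le
    rw [sub_nonneg, div_le_one (by linarith)]
    exact this
  nlinarith

end Pool.Agent.Work.MP_b0c12c_nt
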