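import Mathlib
import Pool.Agent.Work.MP_b0c12c_nt.Interface2

/-!
Assembly, first part: residue classes by orthogonality, concentration of the Gaussian weight.
-/

namespace Pool.Agent.Work.MP_b0c12c_nt.Assem

open Filter Finset MeasureTheory ArithmeticFunction
open scoped Topology
open Pool.Agent.Work.MP_b0c12c_nt.Itf2

/-- the weight -/
noncomputable def wt (τ Y : ℝ) (n : ℕ) : ℝ := Real.exp (-(Real.log (n / Y)) ^ 2 / (2 * τ ^ 2))

theorem wt_pos (τ Y : ℝ) (n : ℕ) : 0 < wt τ Y n := Real.exp_pos _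

theorem term_nonneg (τ Y : ℝ) (n : ℕ) : 0 ≤ Λ n * wt τ Y n :=
  mul_nonneg ArithmeticFunction.vonMangoldt_nonneg (wt_pos _ _ _).le

theorem class_sum {τ Y : ℝ} (hs : Summable fun n : ℕ => Λ n * wt τ Y n) {q : ℕ} [NeZero q]
    {a : ℕ} (ha : a.Coprime q) (F : Finset ℕ) (hF : ∀ n ∈ F, n ≡ a [MOD q]) :
    (q.totient : ℝ) * ∑ n ∈ F, Λ n * wt τ Y n ≤ ∑' n : ℕ, Λ n * wt τ Y n +
      ∑ χ ∈ (univ : Finset (DirichletCharacter ℂ q)).filter (fun χ => χ ≠ 1),
        ‖gaussSum' χ τ Y‖ := by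
  classical
  set f : ℕ → ℝ := fun n => Λ n * wt τ Y n with hf
  have hf0 : ∀ n, 0 ≤ f n := term_nonneg τ Y
  have hgs : ∀ χ : DirichletCharacter ℂ q, gaussSum' χ τ Y = ∑' n : ℕ, (f n : ℂ) * χ n := by
    intro χ
    unfold gaussSum'
    refine tsum_congr fun n => ?_
    simp only [hf, wt]
    push_cast
    ring
  have hsχ : ∀ χ : DirichletCharacter ℂ q, Summable fun n : ℕ => (f n : ℂ) * χ n := by
    intro χ
    refine Summable.of_norm_bounded hs fun n => ?_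
    rw [norm_mul, Complex.norm_real, Real.norm_of_nonneg (hf0 n)]
    calc f n * ‖χ (n : ZMod q)‖ ≤ f n * 1 := by
          apply mul_le_mul_of_nonneg_left (χ.norm_le_one _) (hf0 n)
      _ = f n := mul_one _
  have haU : IsUnit ((a : ℕ) : ZMod q) := (ZMod.isUnit_iff_coprime a q).2 ha
  -- orthogonality
  have h1 : ∑ χ : DirichletCharacter ℂ q, χ ((a : ZMod q)⁻¹) * gaussSum' χ τ Y =
      ((q.totient : ℝ) : ℂ) * ((∑' n : ℕ, (if (a : ZMod q) = n then f n else 0) : ℝ) : ℂ) := by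
    have h2 : ∀ χ : DirichletCharacter ℂ q, χ ((a : ZMod q)⁻¹) * gaussSum' χ τ Y =
        ∑' n : ℕ, χ ((a : ZMod q)⁻¹) * ((f n : ℂ) * χ n) := by
      intro χ
      rw [hgs, tsum_mul_left]
    simp only [h2]
    rw [← Summable.tsum_finsetSum (fun χ _ => (hsχ χ).mul_left _)]
    rw [Complex.ofReal_tsum, ← tsum_mul_left]
    refine tsum_congr fun n => ?_
    have h3 : ∑ χ : DirichletCharacter ℂ q, χ ((a : ZMod q)⁻¹) * ((f n : ℂ) * χ n) =
        (f n : ℂ) * ∑ χ : DirichletCharacter ℂ q, χ ((a : ZMod q)⁻¹) * χ n := by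
      rw [Finset.mul_sum]
      refine Finset.sum_congr rfl fun χ _ => ?_
      ring
    rw [h3, DirichletCharacter.sum_char_inv_mul_char_eq ℂ haU]
    split_ifs
    · push_cast
      ring
    · simp
  have hsF : Summable fun n : ℕ => (if (a : ZMod q) = n then f n else 0) := by
    refine Summable.of_nonneg_of_le (fun n => ?_) (fun n => ?_) hs
    · split_ifs
      · exact hf0 n
      · exact le_rfl
    · split_ifs
      · exact le_rfl
      · exact hf0 n
  have h4 : ∑ n ∈ F, f n ≤ ∑' n : ℕ, (if (a : ZMod q) = n then f n else 0) := by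
    have h5 : ∑ n ∈ F, f n = ∑ n ∈ F, (if (a : ZMod q) = n then f n else 0) := by
      refine Finset.sum_congr rfl fun n hn => ?_
      have h6 : (a : ZMod q) = n := by
        rw [ZMod.natCast_eq_natCast_iff]
        exact (hF n hn).symm
      rw [if_pos h6]
    rw [h5]
    apply hsF.sum_le_tsum
    intro n _
    split_ifs
    · exact hf0 n
    · exact le_rfl
  have h7 : (q.totient : ℝ) * ∑' n : ℕ, (if (a : ZMod q) = n then f n else 0) ≤
      ∑ χ : DirichletCharacter ℂ q, ‖gaussSum' χ τ Y‖ := by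
    have h8 : (q.totient : ℝ) * ∑' n : ℕ, (if (a : ZMod q) = n then f n else 0) =
        ‖((q.totient : ℝ) : ℂ) *
          ((∑' n : ℕ, (if (a : ZMod q) = n then f n else 0) : ℝ) : ℂ)‖ := by
      rw [← Complex.ofReal_mul, Complex.norm_real, Real.norm_of_nonneg]
      apply mul_nonneg (Nat.cast_nonneg _)
      apply tsum_nonneg
      intro n
      split_ifs
      · exact hf0 n
      · exact le_rfl
    rw [h8, ← h1]
    refine (norm_sum_le _ _).trans (Finset.sum_le_sum fun χ _ => ?_)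
    rw [norm_mul]
    calc ‖χ ((a : ZMod q)⁻¹)‖ * ‖gaussSum' χ τ Y‖ ≤ 1 * ‖gaussSum' χ τ Y‖ := by
          apply mul_le_mul_of_nonneg_right (χ.norm_le_one _) (norm_nonneg _)
      _ = _ := one_mul _
  have h9 : ∑ χ : DirichletCharacter ℂ q, ‖gaussSum' χ τ Y‖ =
      ‖gaussSum' (1 : DirichletCharacter ℂ q) τ Y‖ +
      ∑ χ ∈ (univ : Finset (DirichletCharacter ℂ q)).filter (fun χ => χ ≠ 1),
        ‖gaussSum' χ τ Y‖ := by
    rw [← Finset.add_sum_erase univ _ (Finset.mem_univ (1 : DirichletCharacter ℂ q))]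
    congr 1
    apply Finset.sum_congr _ (fun _ _ => rfl)
    ext χ
    simp
  have h10 : ‖gaussSum' (1 : DirichletCharacter ℂ q) τ Y‖ ≤ ∑' n : ℕ, f n := by
    rw [hgs]
    have h11 : ∀ n : ℕ, ‖(f n : ℂ) * (1 : DirichletCharacter ℂ q) n‖ ≤ f n := by
      intro n
      rw [norm_mul, Complex.norm_real, Real.norm_of_nonneg (hf0 n)]
      calc f n * ‖(1 : DirichletCharacter ℂ q) (n : ZMod q)‖ ≤ f n * 1 := by
            apply mul_le_mul_of_nonneg_left (DirichletCharacter.norm_le_one _ _) (hf0 n)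
        _ = f n := mul_one _
    have h12 : Summable fun n : ℕ => ‖(f n : ℂ) * (1 : DirichletCharacter ℂ q) n‖ :=
      Summable.of_nonneg_of_le (fun n => norm_nonneg _) h11 hs
    exact (norm_tsum_le_tsum_norm h12).trans (h12.tsum_le_tsum h11 hs)
  have h13 : (q.totient : ℝ) * ∑ n ∈ F, f n ≤
      (q.totient : ℝ) * ∑' n : ℕ, (if (a : ZMod q) = n then f n else 0) :=
    mul_le_mul_of_nonneg_left h4 (Nat.cast_nonneg _)
  linarith

/-- concentration of the Gaussian weight -/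
theorem gauss_mass {τ Δ : ℝ} (hτ : 0 < τ) (hΔ : 0 < Δ) :
    τ * Real.sqrt (2 * Real.pi) - Real.exp (-Δ ^ 2 / (4 * τ ^ 2)) * (2 * τ * Real.sqrt Real.pi) ≤
      ∫ u in (-Δ)..Δ, Real.exp (-u ^ 2 / (2 * τ ^ 2)) := by
  have hb1 : 0 < 1 / (2 * τ ^ 2) := by positivity
  have hb2 : 0 < 1 / (4 * τ ^ 2) := by positivity
  have e1 : (fun u : ℝ => Real.exp (-u ^ 2 / (2 * τ ^ 2))) =
      fun u : ℝ => Real.exp (-(1 / (2 * τ ^ 2)) * u ^ 2) := by
    funext u
    congr 1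
    ring
  have e2 : (fun u : ℝ => Real.exp (-u ^ 2 / (4 * τ ^ 2))) =
      fun u : ℝ => Real.exp (-(1 / (4 * τ ^ 2)) * u ^ 2) := by
    funext u
    congr 1
    ring
  have i1 : Integrable (fun u : ℝ => Real.exp (-u ^ 2 / (2 * τ ^ 2))) := by
    rw [e1]
    exact integrable_exp_neg_mul_sq hb1
  have i2 : Integrable (fun u : ℝ => Real.exp (-u ^ 2 / (4 * τ ^ 2))) := by
    rw [e2]
    exact integrable_exp_neg_mul_sq hb2
  have v1 : ∫ u : ℝ, Real.exp (-u ^ 2 / (2 * τ ^ 2)) = τ * Real.sqrt (2 * Real.pi) := by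
    rw [e1, integral_gaussian]
    have : Real.pi / (1 / (2 * τ ^ 2)) = τ ^ 2 * (2 * Real.pi) := by
      field_simp
    rw [this, Real.sqrt_mul (by positivity), Real.sqrt_sq hτ.le]
  have v2 : ∫ u : ℝ, Real.exp (-u ^ 2 / (4 * τ ^ 2)) = 2 * τ * Real.sqrt Real.pi := by
    rw [e2, integral_gaussian]
    have : Real.pi / (1 / (4 * τ ^ 2)) = (2 * τ) ^ 2 * Real.pi := by
      field_simp
      ring
    rw [this, Real.sqrt_mul (by positivity), Real.sqrt_sq (by positivity)]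
  have hle : ∀ u : ℝ, Real.exp (-u ^ 2 / (2 * τ ^ 2)) ≤
      Set.indicator (Set.Ioc (-Δ) Δ) (fun u => Real.exp (-u ^ 2 / (2 * τ ^ 2))) u +
      Real.exp (-Δ ^ 2 / (4 * τ ^ 2)) * Real.exp (-u ^ 2 / (4 * τ ^ 2)) := by
    intro u
    by_cases hu : u ∈ Set.Ioc (-Δ) Δ
    · rw [Set.indicator_of_mem hu]
      have : 0 ≤ Real.exp (-Δ ^ 2 / (4 * τ ^ 2)) * Real.exp (-u ^ 2 / (4 * τ ^ 2)) := by positivity
      linarith
    · rw [Set.indicator_of_notMem hu, zero_add, ← Real.exp_add]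
      apply Real.exp_le_exp.2
      have hu2 : Δ ^ 2 ≤ u ^ 2 := by
        rw [Set.mem_Ioc, not_and_or, not_lt, not_le] at hu
        rcases hu with hu | hu
        · nlinarith
        · nlinarith
      rw [← add_div, div_le_div_iff₀ (by positivity) (by positivity)]
      have : 0 < τ ^ 2 := by positivity
      nlinarith
  have i3 : Integrable (Set.indicator (Set.Ioc (-Δ) Δ)
      (fun u : ℝ => Real.exp (-u ^ 2 / (2 * τ ^ 2)))) := i1.indicator measurableSet_Ioc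
  have h1 := integral_mono i1 (i3.add (i2.const_mul (Real.exp (-Δ ^ 2 / (4 * τ ^ 2))))) hle
  rw [v1] at h1
  simp only [Pi.add_apply] at h1
  rw [integral_add i3 (i2.const_mul _), integral_indicator measurableSet_Ioc,
    integral_const_mul, v2] at h1
  rw [intervalIntegral.integral_of_le (by linarith)]
  linarith

/-- choice of the parameters -/
theorem exists_params {ε : ℝ} (hε : 0 < ε) : ∃ Δ τ ε₁ m : ℝ, 0 < Δ ∧ Δ ≤ 1 / 4 ∧ 0 < τ ∧ τ ≤ 1 ∧
    0 < ε₁ ∧ 0 < m ∧ m ≤ ∫ u in (-Δ)..Δ, Real.exp (-u ^ 2 / (2 * τ ^ 2)) ∧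
    ((1 + ε₁) * (τ * Real.sqrt (2 * Real.pi) * Real.exp (τ ^ 2 / 2)) + ε₁) *
      (2 * Real.exp Δ - Real.exp (-Δ)) ≤ (1 + ε) * m := by
  -- Δ
  have t1 : Tendsto (fun Δ : ℝ => 2 * Real.exp Δ - Real.exp (-Δ)) (𝓝[>] 0) (𝓝 1) := by
    have : Continuous fun Δ : ℝ => 2 * Real.exp Δ - Real.exp (-Δ) := by fun_prop
    have h := this.tendsto 0
    simp only [Real.exp_zero, neg_zero] at h
    norm_num at h
    exact h.mono_left nhdsWithin_le_nhds
  have hmin : 0 < min ε 1 := lt_min hε one_pos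
  have e1 := t1.eventually_lt_const (show (1 : ℝ) < 1 + min ε 1 / 8 by linarith)
  have e2 : ∀ᶠ Δ : ℝ in 𝓝[>] 0, 0 < Δ ∧ Δ ≤ 1 / 4 := by
    filter_upwards [Ioc_mem_nhdsGT (show (0 : ℝ) < 1 / 4 by norm_num)] with Δ h
    exact h
  obtain ⟨Δ, hΔ1, hΔ0, hΔ4⟩ := (e1.and e2).exists
  -- τ
  have t2 : Tendsto (fun τ : ℝ => Real.exp (-Δ ^ 2 / (4 * τ ^ 2)) * Real.sqrt 2) (𝓝[>] 0) (𝓝 0) := by
    have h1 : Tendsto (fun τ : ℝ => (4 * τ ^ 2)⁻¹) (𝓝[>] 0) atTop := by
      apply Filter.Tendsto.comp tendsto_inv_nhdsGT_zero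
      rw [tendsto_nhdsWithin_iff]
      constructor
      · have : Continuous fun τ : ℝ => 4 * τ ^ 2 := by fun_prop
        have h := this.tendsto 0
        norm_num at h
        exact h.mono_left nhdsWithin_le_nhds
      · filter_upwards [self_mem_nhdsWithin] with τ hτ
        have : (0 : ℝ) < τ := hτ
        show (0 : ℝ) < 4 * τ ^ 2
        positivity
    have h2 : Tendsto (fun τ : ℝ => -Δ ^ 2 / (4 * τ ^ 2)) (𝓝[>] 0) atBot := by
      have h3 : Tendsto (fun τ : ℝ => (4 * τ ^ 2)⁻¹ * (-Δ ^ 2)) (𝓝[>] 0) atBot :=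
        h1.atTop_mul_const_of_neg (by have := pow_pos hΔ0 2; linarith)
      refine h3.congr fun τ => ?_
      rw [div_eq_mul_inv, mul_comm]
    have h4 := (Real.tendsto_exp_atBot.comp h2).mul_const (Real.sqrt 2)
    simpa using h4
  have t3 : Tendsto (fun τ : ℝ => Real.exp (τ ^ 2 / 2)) (𝓝[>] 0) (𝓝 1) := by
    have : Continuous fun τ : ℝ => Real.exp (τ ^ 2 / 2) := by fun_prop
    have h := this.tendsto 0
    norm_num at h
    exact h.mono_left nhdsWithin_le_nhds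
  have e3 := t2.eventually_lt_const (show (0 : ℝ) < min ε 1 / 16 by linarith)
  have e4 := t3.eventually_lt_const (show (1 : ℝ) < 1 + min ε 1 / 16 by linarith)
  have e5 : ∀ᶠ τ : ℝ in 𝓝[>] 0, 0 < τ ∧ τ ≤ 1 := by
    filter_upwards [Ioc_mem_nhdsGT (show (0 : ℝ) < 1 by norm_num)] with τ h
    exact h
  obtain ⟨τ, hτ1, hτ2, hτ0, hτ3⟩ := (e3.and (e4.and e5)).exists
  set s : ℝ := τ * Real.sqrt (2 * Real.pi) with hs
  have hs0 : 0 < s := by positivity
  have hs2 : 2 * τ * Real.sqrt Real.pi = s * Real.sqrt 2 := by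
    rw [hs, Real.sqrt_mul (by norm_num)]
    have : Real.sqrt 2 * Real.sqrt 2 = 2 := Real.mul_self_sqrt (by norm_num)
    calc 2 * τ * Real.sqrt Real.pi = (Real.sqrt 2 * Real.sqrt 2) * τ * Real.sqrt Real.pi := by
          rw [this]
      _ = _ := by ring
  -- ε₁
  set e : ℝ := min ε 1 with he
  have he1 : e ≤ 1 := min_le_right _ _
  have heε : e ≤ ε := min_le_left _ _
  refine ⟨Δ, τ, min (e / 32) (s * (e / 32)), s * (1 - e / 16), hΔ0, hΔ4, hτ0, hτ3, ?_, ?_, ?_, ?_⟩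
  · apply lt_min
    · linarith
    · positivity
  · apply mul_pos hs0
    linarith
  · refine le_trans ?_ (gauss_mass hτ0 hΔ0)
    rw [hs2, ← hs]
    have : Real.exp (-Δ ^ 2 / (4 * τ ^ 2)) * (s * Real.sqrt 2) ≤ s * (e / 16) := by
      calc Real.exp (-Δ ^ 2 / (4 * τ ^ 2)) * (s * Real.sqrt 2)
          = s * (Real.exp (-Δ ^ 2 / (4 * τ ^ 2)) * Real.sqrt 2) := by ring
        _ ≤ _ := mul_le_mul_of_nonneg_left hτ1.le hs0.le
    nlinarith
  · obtain ⟨ε₁, hε₁⟩ : ∃ x, x = min (e / 32) (s * (e / 32)) := ⟨_, rfl⟩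
    rw [← hε₁]
    have h1 : ε₁ ≤ e / 32 := by rw [hε₁]; exact min_le_left _ _
    have h2 : ε₁ ≤ s * (e / 32) := by rw [hε₁]; exact min_le_right _ _
    have h0 : 0 < ε₁ := by
      rw [hε₁]
      apply lt_min
      · linarith
      · positivity
    have h3 : (1 + ε₁) * (s * Real.exp (τ ^ 2 / 2)) ≤ (1 + e / 32) * (s * (1 + e / 16)) := by
      gcongr
    have h4 : (1 + ε₁) * (s * Real.exp (τ ^ 2 / 2)) + ε₁ ≤
        s * ((1 + e / 32) * (1 + e / 16) + e / 32) := by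
      nlinarith
    have h5 : (1 + e / 32) * (1 + e / 16) + e / 32 ≤ 1 + e / 4 := by nlinarith
    have h6 : 0 ≤ (1 + ε₁) * (s * Real.exp (τ ^ 2 / 2)) + ε₁ := by positivity
    have h7 : 0 ≤ 2 * Real.exp Δ - Real.exp (-Δ) := by
      have h8 : 1 ≤ Real.exp Δ := Real.one_le_exp hΔ0.le
      have h9 : Real.exp (-Δ) ≤ 1 := Real.exp_le_one_iff.2 (by linarith)
      linarith
    calc ((1 + ε₁) * (s * Real.exp (τ ^ 2 / 2)) + ε₁) * (2 * Real.exp Δ - Real.exp (-Δ))
        ≤ (s * (1 + e / 4)) * (1 + e / 8) := by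
          apply mul_le_mul _ hΔ1.le h7 (by positivity)
          refine h4.trans ?_
          exact mul_le_mul_of_nonneg_left h5 hs0.le
      _ = s * ((1 + e / 4) * (1 + e / 8)) := by ring
      _ ≤ s * ((1 + e) * (1 - e / 16)) := by
          apply mul_le_mul_of_nonneg_left _ hs0.le
          nlinarith
      _ ≤ (1 + ε) * (s * (1 - e / 16)) := by
          have h10 : 0 ≤ s * (1 - e / 16) := by
            apply mul_nonneg hs0.le
            linarith
          nlinarith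

end Pool.Agent.Work.MP_b0c12c_nt.Assem
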