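import Mathlib
import Pool.Agent.Work.MP_b0c12c_nt_helper70.LBound

/-!
Divisor sums and the mollified product, for the crude density theorem.
-/

namespace Pool.Agent.Work.MP_b0c12c_nt.Dens

open Finset ArithmeticFunction
open scoped ArithmeticFunction.Moebius ArithmeticFunction.zeta

noncomputable def Hm (M : ℕ) : ℝ := ∑ i ∈ Icc 1 M, 1 / (i : ℝ)

theorem Hm_nonneg (M : ℕ) : 0 ≤ Hm M := Finset.sum_nonneg fun i _ => by positivity

theorem Hm_le {M : ℕ} : Hm M ≤ 1 + Real.log M := by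
  unfold Hm
  have h1 := harmonic_le_one_add_log M
  rw [harmonic_eq_sum_Icc] at h1
  push_cast at h1
  simpa [one_div] using h1

theorem card_anti (k : ℕ) : k.divisorsAntidiagonal.card = k.divisors.card := by
  rw [← Nat.map_div_right_divisors, Finset.card_map]

/-- divisor count as a real number -/
noncomputable def dd (k : ℕ) : ℝ := (k.divisors.card : ℝ)

theorem dd_nonneg (k : ℕ) : 0 ≤ dd k := Nat.cast_nonneg _

theorem dd_mul_le (a b : ℕ) : dd (a * b) ≤ dd a * dd b := by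
  unfold dd
  rw [Nat.divisors_mul]
  exact_mod_cast Finset.card_mul_le

theorem sum_div_le (f : ℕ → ℝ) (hf0 : ∀ k, 0 ≤ f k) (hf : ∀ a b, f (a * b) ≤ f a * f b) (M : ℕ) :
    ∑ k ∈ Icc 1 M, f k * dd k / k ≤ (∑ a ∈ Icc 1 M, f a / a) ^ 2 := by
  have h1 : ∀ k ∈ Icc 1 M, f k * dd k / k ≤
      ∑ p ∈ (Icc 1 M ×ˢ Icc 1 M).filter (fun p => p.1 * p.2 = k), (f p.1 / p.1) * (f p.2 / p.2) := by
    intro k hk
    rw [Finset.mem_Icc] at hk
    have h2 : (Icc 1 M ×ˢ Icc 1 M).filter (fun p : ℕ × ℕ => p.1 * p.2 = k) =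
        k.divisorsAntidiagonal := by
      ext p
      simp only [Finset.mem_filter, Finset.mem_product, Finset.mem_Icc,
        Nat.mem_divisorsAntidiagonal]
      constructor
      · rintro ⟨-, h⟩
        exact ⟨h, by omega⟩
      · rintro ⟨h, h0⟩
        have hp1 : 0 < p.1 := by
          rcases Nat.eq_zero_or_pos p.1 with h3 | h3
          · rw [h3, zero_mul] at h
            omega
          · exact h3
        have hp2 : 0 < p.2 := by
          rcases Nat.eq_zero_or_pos p.2 with h3 | h3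
          · rw [h3, mul_zero] at h
            omega
          · exact h3
        have h4 : p.1 ≤ k := Nat.le_of_dvd (by omega) ⟨p.2, h.symm⟩
        have h5 : p.2 ≤ k := Nat.le_of_dvd (by omega) ⟨p.1, by rw [← h, mul_comm]⟩
        exact ⟨⟨⟨hp1, by omega⟩, ⟨hp2, by omega⟩⟩, h⟩
    rw [h2]
    have h3 : (k.divisors.card : ℝ) = ∑ _p ∈ k.divisorsAntidiagonal, (1 : ℝ) := by
      rw [Finset.sum_const, nsmul_eq_mul, mul_one, card_anti]
    unfold dd
    rw [h3, Finset.mul_sum, Finset.sum_div]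
    refine Finset.sum_le_sum fun p hp => ?_
    rw [Nat.mem_divisorsAntidiagonal] at hp
    have h4 : (k : ℝ) = p.1 * p.2 := by
      rw [← hp.1]
      push_cast
      ring
    rw [mul_one, div_mul_div_comm, h4, ← hp.1]
    exact div_le_div_of_nonneg_right (hf _ _) (by positivity)
  calc ∑ k ∈ Icc 1 M, f k * dd k / k
      ≤ ∑ k ∈ Icc 1 M, ∑ p ∈ (Icc 1 M ×ˢ Icc 1 M).filter (fun p => p.1 * p.2 = k),
        (f p.1 / p.1) * (f p.2 / p.2) := Finset.sum_le_sum h1
    _ ≤ ∑ p ∈ (Icc 1 M ×ˢ Icc 1 M), (f p.1 / p.1) * (f p.2 / p.2) := by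
        rw [← Finset.sum_biUnion]
        · apply Finset.sum_le_sum_of_subset_of_nonneg
          · intro p hp
            rw [Finset.mem_biUnion] at hp
            obtain ⟨k, -, hp⟩ := hp
            exact (Finset.mem_filter.1 hp).1
          · intro p _ _
            have := hf0 p.1
            have := hf0 p.2
            positivity
        · intro k _ k' _ hkk'
          rw [Function.onFun, Finset.disjoint_left]
          intro p hp hp'
          apply hkk'
          rw [← (Finset.mem_filter.1 hp).2, ← (Finset.mem_filter.1 hp').2]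
    _ = (∑ a ∈ Icc 1 M, f a / a) ^ 2 := by
        rw [Finset.sum_product, sq, Finset.sum_mul_sum]

theorem sum_dd_le (M : ℕ) : ∑ k ∈ Icc 1 M, dd k / k ≤ Hm M ^ 2 := by
  have := sum_div_le (fun _ => 1) (fun _ => zero_le_one) (fun _ _ => by norm_num) M
  simpa [Hm] using this

theorem sum_dd_sq_le (M : ℕ) : ∑ k ∈ Icc 1 M, dd k * dd k / k ≤ Hm M ^ 4 := by
  have h1 := sum_div_le dd dd_nonneg dd_mul_le M
  refine h1.trans ?_
  have h2 := sum_dd_le M
  have h3 : 0 ≤ ∑ k ∈ Icc 1 M, dd k / k := Finset.sum_nonneg fun k _ => by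
    have := dd_nonneg k
    positivity
  calc (∑ a ∈ Icc 1 M, dd a / a) ^ 2 ≤ (Hm M ^ 2) ^ 2 := pow_le_pow_left₀ h3 h2 2
    _ = Hm M ^ 4 := by ring

/-- coefficients of the mollified product -/
noncomputable def cc (N X k : ℕ) : ℂ :=
  ∑ p ∈ (Icc 1 N ×ˢ Icc 1 X).filter (fun p => p.1 * p.2 = k), ((μ p.2 : ℤ) : ℂ)

theorem norm_cc_le (N X : ℕ) {k : ℕ} (hk : 1 ≤ k) : ‖cc N X k‖ ≤ dd k := by
  unfold cc dd
  refine (norm_sum_le _ _).trans ?_
  calc ∑ p ∈ (Icc 1 N ×ˢ Icc 1 X).filter (fun p => p.1 * p.2 = k), ‖((μ p.2 : ℤ) : ℂ)‖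
      ≤ ∑ _p ∈ (Icc 1 N ×ˢ Icc 1 X).filter (fun p => p.1 * p.2 = k), (1 : ℝ) := by
        refine Finset.sum_le_sum fun p _ => ?_
        rw [Complex.norm_intCast]
        exact_mod_cast ArithmeticFunction.abs_moebius_le_one
    _ = (((Icc 1 N ×ˢ Icc 1 X).filter (fun p => p.1 * p.2 = k)).card : ℝ) := by simp
    _ ≤ (k.divisorsAntidiagonal.card : ℝ) := by
        have : (Icc 1 N ×ˢ Icc 1 X).filter (fun p : ℕ × ℕ => p.1 * p.2 = k) ⊆
            k.divisorsAntidiagonal := by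
          intro p hp
          rw [Finset.mem_filter] at hp
          rw [Nat.mem_divisorsAntidiagonal]
          exact ⟨hp.2, by omega⟩
        exact_mod_cast Finset.card_le_card this
    _ = _ := by rw [card_anti]

theorem cc_small {N X k : ℕ} (hXN : X ≤ N) (hk : 1 ≤ k) (hkX : k ≤ X) :
    cc N X k = if k = 1 then 1 else 0 := by
  unfold cc
  have h2 : (Icc 1 N ×ˢ Icc 1 X).filter (fun p : ℕ × ℕ => p.1 * p.2 = k) =
      k.divisorsAntidiagonal := by
    ext p
    simp only [Finset.mem_filter, Finset.mem_product, Finset.mem_Icc,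
      Nat.mem_divisorsAntidiagonal]
    constructor
    · rintro ⟨-, h⟩
      exact ⟨h, by omega⟩
    · rintro ⟨h, h0⟩
      have hp1 : 0 < p.1 := by
        rcases Nat.eq_zero_or_pos p.1 with h3 | h3
        · rw [h3, zero_mul] at h
          omega
        · exact h3
      have hp2 : 0 < p.2 := by
        rcases Nat.eq_zero_or_pos p.2 with h3 | h3
        · rw [h3, mul_zero] at h
          omega
        · exact h3
      have h4 : p.1 ≤ k := Nat.le_of_dvd (by omega) ⟨p.2, h.symm⟩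
      have h5 : p.2 ≤ k := Nat.le_of_dvd (by omega) ⟨p.1, by rw [← h, mul_comm]⟩
      exact ⟨⟨⟨hp1, by omega⟩, ⟨hp2, by omega⟩⟩, h⟩
  rw [h2]
  have h3 : ((ζ : ArithmeticFunction ℤ) * μ) k = (1 : ArithmeticFunction ℤ) k := by
    rw [ArithmeticFunction.coe_zeta_mul_moebius]
  rw [ArithmeticFunction.mul_apply, ArithmeticFunction.one_apply] at h3
  have h4 : ∑ x ∈ k.divisorsAntidiagonal, (ζ : ArithmeticFunction ℤ) x.1 * μ x.2 =
      ∑ x ∈ k.divisorsAntidiagonal, μ x.2 := by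
    refine Finset.sum_congr rfl fun x hx => ?_
    rw [Nat.mem_divisorsAntidiagonal] at hx
    have : x.1 ≠ 0 := by
      intro h5
      rw [h5, zero_mul] at hx
      exact hx.2 hx.1.symm
    simp [ArithmeticFunction.natCoe_apply, ArithmeticFunction.zeta_apply, this]
  rw [h4] at h3
  rw [← Int.cast_sum, h3]
  split_ifs <;> simp

theorem product_eq {q : ℕ} (χ : DirichletCharacter ℂ q) (N X : ℕ) (s : ℂ) :
    (∑ n ∈ Icc 1 N, χ (n : ZMod q) * (n : ℂ) ^ (-s)) *
      (∑ m ∈ Icc 1 X, ((μ m : ℤ) : ℂ) * (χ (m : ZMod q) * (m : ℂ) ^ (-s))) =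
    ∑ k ∈ Icc 1 (N * X), cc N X k * (χ (k : ZMod q) * (k : ℂ) ^ (-s)) := by
  rw [Finset.sum_mul_sum, ← Finset.sum_product']
  rw [← Finset.sum_fiberwise_of_maps_to (s := Icc 1 N ×ˢ Icc 1 X) (t := Icc 1 (N * X))
    (g := fun p : ℕ × ℕ => p.1 * p.2)]
  · refine Finset.sum_congr rfl fun k hk => ?_
    unfold cc
    rw [Finset.sum_mul]
    refine Finset.sum_congr rfl fun p hp => ?_
    rw [Finset.mem_filter] at hp
    rw [← hp.2]
    push_cast
    rw [map_mul, Complex.natCast_mul_natCast_cpow]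
    ring
  · intro p hp
    rw [Finset.mem_product, Finset.mem_Icc, Finset.mem_Icc] at hp
    rw [Finset.mem_Icc]
    exact ⟨Nat.mul_pos hp.1.1 hp.2.1, Nat.mul_le_mul hp.1.2 hp.2.2⟩

end Pool.Agent.Work.MP_b0c12c_nt.Dens
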