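import Mathlib
import Pool.Agent.Work.MP_b0c12c_nt.Interface2
import Pool.Agent.Work.MP_b0c12c_nt.Dens1

/-!
Crude density theorem for the zeros of Dirichlet L-functions near the line `Re s = 1`
(elementary mollifier and Halasz-Montgomery duality).
-/

namespace Pool.Agent.Work.MP_b0c12c_nt.Dens

open Finset ArithmeticFunction
open scoped ArithmeticFunction.Moebius ComplexConjugate
open Pool.Agent.Work.MP_b0c12c_nt_helper70

variable {q : ℕ} [NeZero q]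

theorem Icc_split {X M : ℕ} (hXM : X ≤ M) (f : ℕ → ℂ) :
    ∑ k ∈ Icc 1 M, f k = ∑ k ∈ Icc 1 X, f k + ∑ k ∈ Ioc X M, f k := by
  have h1 : ∀ n : ℕ, Icc 1 n = Ioc 0 n := fun n => by
    ext k
    simp only [Finset.mem_Icc, Finset.mem_Ioc]
    omega
  rw [h1, h1, Finset.sum_Ioc_consecutive f (Nat.zero_le _) hXM]

theorem block_bound (ψ : DirichletCharacter ℂ q) (hψ : ψ ≠ 1) {X M : ℕ} (hX : 1 ≤ X) (hXM : X ≤ M)
    {w : ℂ} (hw : 0 < w.re) :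
    ‖∑ k ∈ Ioc X M, ψ (k : ZMod q) * (k : ℂ) ^ (-w)‖ ≤
      2 * (‖w‖ * (q * (X : ℝ) ^ (-w.re) / w.re)) := by
  have h1 := LFunction_eq ψ hψ hX hw
  have h2 := LFunction_eq ψ hψ (hX.trans hXM) hw
  have h3 := norm_mellin_SF ψ hψ hX hw
  have h4 := norm_mellin_SF ψ hψ (hX.trans hXM) hw
  rw [Icc_split hXM] at h2
  have h5 : ∑ k ∈ Ioc X M, ψ (k : ZMod q) * (k : ℂ) ^ (-w) =
      w * mellin (SF ψ X) (-w) - w * mellin (SF ψ M) (-w) := by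
    linear_combination h1 - h2
  rw [h5]
  refine (norm_sub_le _ _).trans ?_
  rw [norm_mul, norm_mul]
  have hX0 : (0 : ℝ) < X := by exact_mod_cast hX
  have h6 : (M : ℝ) ^ (-w.re) ≤ (X : ℝ) ^ (-w.re) := by
    apply Real.rpow_le_rpow_of_nonpos hX0
    · exact_mod_cast hXM
    · linarith
  have h7 : (q : ℝ) * (M : ℝ) ^ (-w.re) / w.re ≤ q * (X : ℝ) ^ (-w.re) / w.re := by gcongr
  have h8 : ‖w‖ * ‖mellin (SF ψ X) (-w)‖ ≤ ‖w‖ * (q * (X : ℝ) ^ (-w.re) / w.re) := by gcongr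
  have h9 : ‖w‖ * ‖mellin (SF ψ M) (-w)‖ ≤ ‖w‖ * (q * (X : ℝ) ^ (-w.re) / w.re) := by
    apply mul_le_mul_of_nonneg_left (h4.trans h7) (norm_nonneg _)
  linarith

omit [NeZero q] in
theorem norm_term_le (χ : DirichletCharacter ℂ q) {k : ℕ} (hk : 1 ≤ k) (s : ℂ) :
    ‖χ (k : ZMod q) * (k : ℂ) ^ (-s)‖ ≤ (k : ℝ) ^ (-s.re) := by
  rw [norm_mul, Complex.norm_natCast_cpow_of_pos hk]
  have h1 : ‖χ (k : ZMod q)‖ ≤ 1 := χ.norm_le_one _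
  have h2 : (0 : ℝ) ≤ (k : ℝ) ^ (-s).re := by positivity
  calc ‖χ (k : ZMod q)‖ * (k : ℝ) ^ (-s).re ≤ 1 * (k : ℝ) ^ (-s).re := by gcongr
    _ = _ := by simp

theorem detect (χ : DirichletCharacter ℂ q) (hχ : χ ≠ 1) {ρ : ℂ} (hρ : χ.LFunction ρ = 0)
    (h1 : 1 / 2 ≤ ρ.re) (h2 : ρ.re ≤ 1) {X : ℕ} (hX1 : 1 ≤ X) (hX : (|ρ.im| + 1) * q ≤ X) :
    1 / 2 ≤ ‖∑ k ∈ Ioc X ((4 * X ^ 2) ^ 2 * X), cc ((4 * X ^ 2) ^ 2) X k *
      (χ (k : ZMod q) * (k : ℂ) ^ (-ρ))‖ := by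
  set N : ℕ := (4 * X ^ 2) ^ 2 with hN
  have hρ0 : 0 < ρ.re := by linarith
  have hX0 : (0 : ℝ) < X := by exact_mod_cast hX1
  have hN1 : 1 ≤ N := by
    rw [hN]
    exact Nat.one_le_pow _ _ (by positivity)
  have hXN : X ≤ N := by
    rw [hN]
    nlinarith [Nat.one_le_pow 2 X hX1, Nat.one_le_pow 3 X hX1]
  have e1 := LFunction_eq χ hχ hN1 hρ0
  rw [hρ] at e1
  have e2 : ∑ n ∈ Icc 1 N, χ (n : ZMod q) * (n : ℂ) ^ (-ρ) = -(ρ * mellin (SF χ N) (-ρ)) := by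
    linear_combination -e1
  have hNpow : (N : ℝ) ^ (-ρ.re) ≤ 1 / (4 * (X : ℝ) ^ 2) := by
    have h3 : (N : ℝ) ^ (-ρ.re) ≤ (N : ℝ) ^ (-(1 / 2) : ℝ) := by
      apply Real.rpow_le_rpow_of_exponent_le
      · exact_mod_cast hN1
      · linarith
    have h4 : (N : ℝ) ^ (-(1 / 2) : ℝ) = 1 / (4 * (X : ℝ) ^ 2) := by
      rw [Real.rpow_neg (by positivity), ← Real.sqrt_eq_rpow, hN]
      push_cast
      rw [Real.sqrt_sq (by positivity), one_div]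
    rw [h4] at h3
    exact h3
  have hρn : ‖ρ‖ ≤ |ρ.im| + 1 := by
    have := Complex.norm_le_abs_re_add_abs_im ρ
    rw [abs_of_pos hρ0] at this
    linarith
  have e3 : ‖∑ n ∈ Icc 1 N, χ (n : ZMod q) * (n : ℂ) ^ (-ρ)‖ ≤ 1 / (2 * X) := by
    rw [e2, norm_neg, norm_mul]
    have h5 := norm_mellin_SF χ hχ hN1 hρ0
    calc ‖ρ‖ * ‖mellin (SF χ N) (-ρ)‖ ≤ (|ρ.im| + 1) * (q * (1 / (4 * (X : ℝ) ^ 2)) / (1 / 2)) := by
          apply mul_le_mul hρn _ (norm_nonneg _) (by positivity)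
          refine h5.trans ?_
          gcongr
      _ = ((|ρ.im| + 1) * q) * (1 / (2 * (X : ℝ) ^ 2)) := by
          field_simp
          ring
      _ ≤ X * (1 / (2 * (X : ℝ) ^ 2)) := by gcongr
      _ = 1 / (2 * X) := by field_simp
  have e4 : ‖∑ m ∈ Icc 1 X, ((μ m : ℤ) : ℂ) * (χ (m : ZMod q) * (m : ℂ) ^ (-ρ))‖ ≤ X := by
    refine (norm_sum_le _ _).trans ?_
    calc ∑ m ∈ Icc 1 X, ‖((μ m : ℤ) : ℂ) * (χ (m : ZMod q) * (m : ℂ) ^ (-ρ))‖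
        ≤ ∑ m ∈ Icc 1 X, (1 : ℝ) := by
          refine Finset.sum_le_sum fun m hm => ?_
          rw [Finset.mem_Icc] at hm
          rw [norm_mul]
          have h6 : ‖((μ m : ℤ) : ℂ)‖ ≤ 1 := by
            rw [Complex.norm_intCast]
            exact_mod_cast ArithmeticFunction.abs_moebius_le_one
          have h7 : ‖χ (m : ZMod q) * (m : ℂ) ^ (-ρ)‖ ≤ 1 := by
            refine (norm_term_le χ hm.1 ρ).trans ?_
            apply Real.rpow_le_one_of_one_le_of_nonpos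
            · exact_mod_cast hm.1
            · linarith
          calc ‖((μ m : ℤ) : ℂ)‖ * ‖χ (m : ZMod q) * (m : ℂ) ^ (-ρ)‖ ≤ 1 * 1 :=
                mul_le_mul h6 h7 (norm_nonneg _) zero_le_one
            _ = 1 := one_mul 1
      _ = X := by simp
  have e5 := product_eq χ N X ρ
  have hXNX : X ≤ N * X := Nat.le_mul_of_pos_left X hN1
  rw [Icc_split hXNX] at e5
  have e6 : ∑ k ∈ Icc 1 X, cc N X k * (χ (k : ZMod q) * (k : ℂ) ^ (-ρ)) = 1 := by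
    rw [Finset.sum_eq_single_of_mem 1 (by rw [Finset.mem_Icc]; exact ⟨le_rfl, hX1⟩)]
    · rw [cc_small hXN le_rfl hX1]
      simp
    · intro k hk hk1
      rw [Finset.mem_Icc] at hk
      rw [cc_small hXN hk.1 hk.2, if_neg hk1, zero_mul]
  rw [e6] at e5
  have e7 : ‖(∑ n ∈ Icc 1 N, χ (n : ZMod q) * (n : ℂ) ^ (-ρ)) *
      (∑ m ∈ Icc 1 X, ((μ m : ℤ) : ℂ) * (χ (m : ZMod q) * (m : ℂ) ^ (-ρ)))‖ ≤ 1 / 2 := by
    rw [norm_mul]
    calc _ ≤ 1 / (2 * (X : ℝ)) * X := mul_le_mul e3 e4 (norm_nonneg _) (by positivity)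
      _ = 1 / 2 := by field_simp
  rw [e5] at e7
  set Z := ∑ k ∈ Ioc X (N * X), cc N X k * (χ (k : ZMod q) * (k : ℂ) ^ (-ρ)) with hZ
  have e8 : (1 : ℝ) ≤ ‖(1 : ℂ) + Z‖ + ‖Z‖ := by
    calc (1 : ℝ) = ‖(1 + Z) - Z‖ := by simp
      _ ≤ _ := norm_sub_le _ _
  linarith

theorem conj_natCast_cpow {k : ℕ} (hk : 1 ≤ k) (s : ℂ) :
    conj ((k : ℂ) ^ (-s)) = (k : ℂ) ^ (-(conj s)) := by
  have hk0 : (k : ℂ) ≠ 0 := by
    exact_mod_cast (by omega : k ≠ 0)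
  rw [Complex.cpow_def_of_ne_zero hk0, Complex.cpow_def_of_ne_zero hk0, ← Complex.exp_conj,
    map_mul, map_neg, ← Complex.natCast_log, Complex.conj_ofReal]

omit [NeZero q] in
theorem duality (S : Finset (DirichletCharacter ℂ q)) (ρ : DirichletCharacter ℂ q → ℂ)
    (c : ℕ → ℂ) (I : Finset ℕ) (hI : ∀ k ∈ I, 1 ≤ k) (σ : ℝ) :
    (∑ χ ∈ S, ‖∑ k ∈ I, c k * (χ (k : ZMod q) * (k : ℂ) ^ (-(ρ χ)))‖) ^ 2 ≤
      (∑ k ∈ I, ‖c k‖ ^ 2 * (k : ℝ) ^ (1 - 2 * σ)) *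
      ∑ χ ∈ S, ∑ χ' ∈ S, ‖∑ k ∈ I, (χ * χ'⁻¹) (k : ZMod q) *
        (k : ℂ) ^ (-(ρ χ + conj (ρ χ') + 1 - 2 * (σ : ℂ)))‖ := by
  set F : DirichletCharacter ℂ q → ℂ := fun χ =>
    ∑ k ∈ I, c k * (χ (k : ZMod q) * (k : ℂ) ^ (-(ρ χ))) with hF
  set u : DirichletCharacter ℂ q → ℂ := fun χ => conj (F χ) / (‖F χ‖ : ℂ) with hu
  have hu1 : ∀ χ, ‖u χ‖ ≤ 1 := by
    intro χ
    simp only [hu]
    rw [norm_div, Complex.norm_conj, Complex.norm_real, norm_norm]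
    exact div_self_le_one _
  have huF : ∀ χ, u χ * F χ = (‖F χ‖ : ℂ) := by
    intro χ
    simp only [hu]
    by_cases h : F χ = 0
    · simp [h]
    · have : (‖F χ‖ : ℂ) ≠ 0 := by simpa using h
      rw [div_mul_eq_mul_div, mul_comm (conj (F χ)), Complex.mul_conj, div_eq_iff this]
      rw [Complex.normSq_eq_norm_sq]
      push_cast
      ring
  set g : ℕ → ℂ := fun k => ∑ χ ∈ S, u χ * (χ (k : ZMod q) * (k : ℂ) ^ (-(ρ χ))) with hg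
  have h1 : ((∑ χ ∈ S, ‖F χ‖ : ℝ) : ℂ) = ∑ k ∈ I, c k * g k := by
    push_cast
    rw [← Finset.sum_congr rfl (fun χ _ => huF χ)]
    simp only [hF, hg, Finset.mul_sum]
    rw [Finset.sum_comm]
    refine Finset.sum_congr rfl fun k _ => Finset.sum_congr rfl fun χ _ => ?_
    ring
  have h2 : (∑ χ ∈ S, ‖F χ‖) ≤ ∑ k ∈ I, (‖c k‖ * (k : ℝ) ^ ((1 - 2 * σ) / 2)) *
      (‖g k‖ * (k : ℝ) ^ ((2 * σ - 1) / 2)) := by
    have h3 : (∑ χ ∈ S, ‖F χ‖) = ‖∑ k ∈ I, c k * g k‖ := by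
      rw [← h1, Complex.norm_real, Real.norm_of_nonneg (Finset.sum_nonneg fun _ _ => norm_nonneg _)]
    rw [h3]
    refine (norm_sum_le _ _).trans (Finset.sum_le_sum fun k hk => ?_)
    have hk0 : (0 : ℝ) < k := by exact_mod_cast hI k hk
    have h4 : (k : ℝ) ^ ((1 - 2 * σ) / 2) * (k : ℝ) ^ ((2 * σ - 1) / 2) = 1 := by
      rw [← Real.rpow_add hk0, show (1 - 2 * σ) / 2 + (2 * σ - 1) / 2 = 0 by ring, Real.rpow_zero]
    rw [norm_mul]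
    calc ‖c k‖ * ‖g k‖ = ‖c k‖ * ‖g k‖ *
          ((k : ℝ) ^ ((1 - 2 * σ) / 2) * (k : ℝ) ^ ((2 * σ - 1) / 2)) := by rw [h4, mul_one]
      _ ≤ _ := le_of_eq (by ring)
  have h5 : (∑ χ ∈ S, ‖F χ‖) ^ 2 ≤ (∑ k ∈ I, ‖c k‖ ^ 2 * (k : ℝ) ^ (1 - 2 * σ)) *
      ∑ k ∈ I, ‖g k‖ ^ 2 * (k : ℝ) ^ (2 * σ - 1) := by
    calc (∑ χ ∈ S, ‖F χ‖) ^ 2 ≤ (∑ k ∈ I, (‖c k‖ * (k : ℝ) ^ ((1 - 2 * σ) / 2)) *
          (‖g k‖ * (k : ℝ) ^ ((2 * σ - 1) / 2))) ^ 2 :=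
          pow_le_pow_left₀ (Finset.sum_nonneg fun _ _ => norm_nonneg _) h2 2
      _ ≤ (∑ k ∈ I, (‖c k‖ * (k : ℝ) ^ ((1 - 2 * σ) / 2)) ^ 2) *
          ∑ k ∈ I, (‖g k‖ * (k : ℝ) ^ ((2 * σ - 1) / 2)) ^ 2 :=
          Finset.sum_mul_sq_le_sq_mul_sq _ _ _
      _ = _ := by
          congr 1
          · refine Finset.sum_congr rfl fun k hk => ?_
            have hk0 : (0 : ℝ) ≤ k := Nat.cast_nonneg k
            rw [mul_pow, ← Real.rpow_natCast ((k : ℝ) ^ ((1 - 2 * σ) / 2)) 2, ← Real.rpow_mul hk0]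
            norm_num
          · refine Finset.sum_congr rfl fun k hk => ?_
            have hk0 : (0 : ℝ) ≤ k := Nat.cast_nonneg k
            rw [mul_pow, ← Real.rpow_natCast ((k : ℝ) ^ ((2 * σ - 1) / 2)) 2, ← Real.rpow_mul hk0]
            norm_num
  refine h5.trans ?_
  apply mul_le_mul_of_nonneg_left
  swap
  · exact Finset.sum_nonneg fun k _ => by positivity
  -- expand the second factor
  have h6 : ((∑ k ∈ I, ‖g k‖ ^ 2 * (k : ℝ) ^ (2 * σ - 1) : ℝ) : ℂ) =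
      ∑ χ ∈ S, ∑ χ' ∈ S, (u χ * conj (u χ')) * ∑ k ∈ I, (χ * χ'⁻¹) (k : ZMod q) *
        (k : ℂ) ^ (-(ρ χ + conj (ρ χ') + 1 - 2 * (σ : ℂ))) := by
    push_cast
    simp only [Finset.mul_sum]
    have h7 : ∀ k ∈ I, (‖g k‖ : ℂ) ^ 2 * (((k : ℝ) ^ (2 * σ - 1) : ℝ) : ℂ) =
        ∑ χ ∈ S, ∑ χ' ∈ S, (u χ * conj (u χ')) * ((χ * χ'⁻¹) (k : ZMod q) *
        (k : ℂ) ^ (-(ρ χ + conj (ρ χ') + 1 - 2 * (σ : ℂ)))) := by
      intro k hk
      have hk1 := hI k hk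
      have hk0 : (k : ℂ) ≠ 0 := by exact_mod_cast (by omega : k ≠ 0)
      have h8 : (‖g k‖ : ℂ) ^ 2 = g k * conj (g k) := by
        rw [Complex.mul_conj, Complex.normSq_eq_norm_sq]
        push_cast
        rfl
      have h9 : (((k : ℝ) ^ (2 * σ - 1) : ℝ) : ℂ) = (k : ℂ) ^ (2 * (σ : ℂ) - 1) := by
        rw [Complex.ofReal_cpow (Nat.cast_nonneg k)]
        push_cast
        rfl
      rw [h8, h9]
      simp only [hg]
      rw [map_sum, Finset.sum_mul_sum, Finset.sum_mul]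
      refine Finset.sum_congr rfl fun χ _ => ?_
      rw [Finset.sum_mul]
      refine Finset.sum_congr rfl fun χ' _ => ?_
      rw [map_mul, map_mul, conj_natCast_cpow hk1]
      have h10 : conj (χ' (k : ZMod q)) = χ'⁻¹ (k : ZMod q) := by
        rw [← MulChar.star_apply']
        rfl
      have h11 : (k : ℂ) ^ (-(ρ χ + conj (ρ χ') + 1 - 2 * (σ : ℂ))) =
          (k : ℂ) ^ (-(ρ χ)) * (k : ℂ) ^ (-(conj (ρ χ'))) * (k : ℂ) ^ (2 * (σ : ℂ) - 1) := by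
        rw [← Complex.cpow_add _ _ hk0, ← Complex.cpow_add _ _ hk0]
        ring_nf
      rw [h10, h11, MulChar.mul_apply]
      ring
    have h12 : ∀ k : ℕ, (((k : ℝ) ^ (2 * σ - 1) : ℝ) : ℂ) = (k : ℂ) ^ (2 * (σ : ℂ) - 1) := by
      intro k
      rw [Complex.ofReal_cpow (Nat.cast_nonneg k)]
      push_cast
      rfl
    rw [Finset.sum_congr rfl h7]
    rw [Finset.sum_comm]
    refine Finset.sum_congr rfl fun χ _ => ?_
    rw [Finset.sum_comm]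
  have h13 : (∑ k ∈ I, ‖g k‖ ^ 2 * (k : ℝ) ^ (2 * σ - 1)) =
      ‖((∑ k ∈ I, ‖g k‖ ^ 2 * (k : ℝ) ^ (2 * σ - 1) : ℝ) : ℂ)‖ := by
    rw [Complex.norm_real, Real.norm_of_nonneg]
    exact Finset.sum_nonneg fun k _ => by positivity
  rw [h13, h6]
  refine (norm_sum_le _ _).trans (Finset.sum_le_sum fun χ _ => ?_)
  refine (norm_sum_le _ _).trans (Finset.sum_le_sum fun χ' _ => ?_)
  rw [norm_mul, norm_mul, Complex.norm_conj]
  calc ‖u χ‖ * ‖u χ'‖ * _ ≤ 1 * 1 * _ := by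
        apply mul_le_mul_of_nonneg_right _ (norm_nonneg _)
        exact mul_le_mul (hu1 χ) (hu1 χ') (norm_nonneg _) zero_le_one
    _ = _ := by ring

end Pool.Agent.Work.MP_b0c12c_nt.Dens
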