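import Mathlib
import Pool.Agent.Work.MP_b0c12c_nt.Interface2

/-!
Sum over the nonprincipal characters (levels of zeros against the density bound).
-/

namespace Pool.Agent.Work.MP_b0c12c_nt.Lev

open Filter Finset DirichletCharacter
open scoped Topology
open Pool.Agent.Work.MP_b0c12c_nt.Itf2

theorem tendsto_pow_exp (m c a : ℝ) (hc : 0 < c) (ha : 0 < a) :
    Tendsto (fun x : ℝ => x ^ m * Real.exp (-c * x ^ a)) atTop (𝓝 0) := by
  have h1 := (tendsto_rpow_mul_exp_neg_mul_atTop_nhds_zero (m / a) c hc).comp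
    (tendsto_rpow_atTop ha)
  refine h1.congr' ?_
  filter_upwards [eventually_gt_atTop 0] with x hx
  simp only [Function.comp]
  rw [← Real.rpow_mul hx.le, mul_div_cancel₀ m ha.ne']

theorem levels {α : Type*} (S : Finset α) (J : ℕ) (j : α → ℕ) (hj : ∀ χ ∈ S, j χ ≤ J)
    (b : ℕ → ℝ) (hb : ∀ k, 0 ≤ b k) (G : α → ℝ) (hG : ∀ χ ∈ S, G χ ≤ b (j χ)) (N : ℕ → ℝ)
    (hN : ∀ k ≤ J, ((S.filter fun χ => j χ = k).card : ℝ) ≤ N k) :
    ∑ χ ∈ S, G χ ≤ ∑ k ∈ range (J + 1), N k * b k := by
  calc ∑ χ ∈ S, G χ ≤ ∑ χ ∈ S, b (j χ) := Finset.sum_le_sum hG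
    _ = ∑ k ∈ range (J + 1), ∑ χ ∈ S.filter (fun χ => j χ = k), b (j χ) := by
        rw [Finset.sum_fiberwise_of_maps_to]
        intro χ hχ
        rw [Finset.mem_range]
        exact Nat.lt_succ_of_le (hj χ hχ)
    _ = ∑ k ∈ range (J + 1), ((S.filter fun χ => j χ = k).card : ℝ) * b k := by
        refine Finset.sum_congr rfl fun k _ => ?_
        rw [Finset.sum_congr rfl (g := fun _ => b k), Finset.sum_const, nsmul_eq_mul]
        intro χ hχ
        rw [(Finset.mem_filter.1 hχ).2]
    _ ≤ _ := by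
        refine Finset.sum_le_sum fun k hk => ?_
        exact mul_le_mul_of_nonneg_right (hN k (Nat.lt_succ_iff.1 (Finset.mem_range.1 hk))) (hb k)

theorem card_chars_le {q : ℕ} [NeZero q] (S : Finset (DirichletCharacter ℂ q)) :
    (S.card : ℝ) ≤ q := by
  have h1 : S.card ≤ Fintype.card (DirichletCharacter ℂ q) := Finset.card_le_univ S
  have h2 : Fintype.card (DirichletCharacter ℂ q) = q.totient := by
    rw [← Nat.card_eq_fintype_card]
    exact DirichletCharacter.card_eq_totient_of_hasEnoughRootsOfUnity ℂ q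
  have h3 : q.totient ≤ q := Nat.totient_le q
  exact_mod_cast (h1.trans (h2.le.trans h3))

/-- The main sum, for explicit parameters. -/
theorem main_sum {C : ℝ} (hC : 0 < C)
    (hD : ∀ (q : ℕ) [NeZero q] (T σ : ℝ), 1 ≤ T → 1 / 2 ≤ σ → σ ≤ 1 →
      ∀ S : Finset (DirichletCharacter ℂ q),
        (∀ χ ∈ S, χ ≠ 1 ∧ ∃ s : ℂ, σ ≤ s.re ∧ |s.im| ≤ T ∧ χ.LFunction s = 0) →
        (S.card : ℝ) ≤ C * T * (Real.log (q * (T + 2))) ^ C * (q * (T + 2)) ^ (C * (1 - σ)))
    {x : ℝ} (hx : 1 ≤ x) {q : ℕ} [NeZero q] (hq : (q : ℝ) * (x + 5) ≤ Real.exp (3 * x))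
    {η : ℝ} (hη : 0 < η) (hη4 : η ≤ 1 / 4)
    (hZ : ∀ χ : DirichletCharacter ℂ q, χ ≠ 1 → ZF χ (1 - η) (x + 3))
    {l : ℝ} (hl : 2 * (6 * C + 12) * x ≤ l)
    (G : DirichletCharacter ℂ q → ℝ)
    (hG : ∀ χ : DirichletCharacter ℂ q, χ ≠ 1 → ∀ σ₀ : ℝ, 1 / 2 ≤ σ₀ → σ₀ ≤ 1 →
      ZF χ σ₀ (x + 3) → G χ ≤ Real.exp (σ₀ * l)) :
    ∑ χ ∈ (univ : Finset (DirichletCharacter ℂ q)).filter (fun χ => χ ≠ 1), G χ
      ≤ (1 / (2 * η) + 1) * (1 + C * (x + 3) * (3 * x) ^ C) * (Real.exp l * Real.exp (-(η * l / 2))) := by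
  classical
  set J : ℕ := ⌊1 / (2 * η)⌋₊ with hJ
  have hJle : (J : ℝ) ≤ 1 / (2 * η) := Nat.floor_le (by positivity)
  have hJη : (J : ℝ) * η ≤ 1 / 2 := by
    calc (J : ℝ) * η ≤ 1 / (2 * η) * η := by gcongr
      _ = 1 / 2 := by field_simp
  have hJη2 : 1 / 4 ≤ (J : ℝ) * η := by
    have h1 : 1 / (2 * η) < J + 1 := Nat.lt_floor_add_one _
    have h2 : 1 / (2 * η) * η < (J + 1) * η := by
      exact mul_lt_mul_of_pos_right h1 hη
    have h3 : 1 / (2 * η) * η = 1 / 2 := by field_simp
    nlinarith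
  have hJ1 : 1 ≤ J := by
    by_contra hcon
    have : J = 0 := by omega
    rw [this] at hJη2
    norm_num at hJη2
  set P : DirichletCharacter ℂ q → ℕ → Prop := fun χ k => ZF χ (1 - k * η) (x + 3) with hP
  set j : DirichletCharacter ℂ q → ℕ := fun χ => Nat.findGreatest (P χ) J with hj
  have hjJ : ∀ χ, j χ ≤ J := fun χ => Nat.findGreatest_le J
  have hP1 : ∀ χ : DirichletCharacter ℂ q, χ ≠ 1 → P χ 1 := by
    intro χ hχ
    simpa [hP] using hZ χ hχ
  have hj1 : ∀ χ : DirichletCharacter ℂ q, χ ≠ 1 → 1 ≤ j χ := fun χ hχ =>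
    Nat.le_findGreatest hJ1 (hP1 χ hχ)
  have hPj : ∀ χ : DirichletCharacter ℂ q, χ ≠ 1 → P χ (j χ) := fun χ hχ =>
    Nat.findGreatest_spec hJ1 (hP1 χ hχ)
  set S := (univ : Finset (DirichletCharacter ℂ q)).filter (fun χ => χ ≠ 1) with hS
  set D : ℝ := 1 + C * (x + 3) * (3 * x) ^ C with hDdef
  have hD1 : 1 ≤ D := by
    have : 0 ≤ C * (x + 3) * (3 * x) ^ C := by positivity
    linarith
  set c' : ℝ := 6 * C + 12 with hc'
  have hx0 : 0 < x := by linarith
  have hqx : 0 < (q : ℝ) * (x + 5) := by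
    have : (0 : ℝ) < q := by exact_mod_cast Nat.pos_of_ne_zero (NeZero.ne q)
    positivity
  have hlogq : Real.log ((q : ℝ) * (x + 5)) ≤ 3 * x := by
    rw [← Real.log_exp (3 * x)]
    exact Real.log_le_log hqx hq
  have hqle : (q : ℝ) ≤ Real.exp (3 * x) := by
    refine le_trans ?_ hq
    have : (0 : ℝ) ≤ q := Nat.cast_nonneg q
    nlinarith
  have hq1 : (1 : ℝ) ≤ (q : ℝ) := by exact_mod_cast Nat.one_le_iff_ne_zero.2 (NeZero.ne q)
  have hlogq0 : 0 ≤ Real.log ((q : ℝ) * (x + 5)) := by
    apply Real.log_nonneg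
    nlinarith
  -- count
  have hcount : ∀ k ≤ J, ((S.filter fun χ => j χ = k).card : ℝ) ≤
      (if k = 0 then 0 else D * Real.exp (c' * x * (k * η))) := by
    intro k hk
    split_ifs with hk0
    · have : S.filter (fun χ => j χ = k) = ∅ := by
        rw [Finset.filter_eq_empty_iff]
        intro χ hχ
        have := hj1 χ (Finset.mem_filter.1 hχ).2
        omega
      rw [this]
      simp
    · by_cases hkJ : k = J
      · calc ((S.filter fun χ => j χ = k).card : ℝ) ≤ q := card_chars_le _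
          _ ≤ Real.exp (3 * x) := hqle
          _ ≤ Real.exp (c' * x * (k * η)) := by
              apply Real.exp_le_exp.2
              rw [hkJ, hc']
              have h1 : 12 * x * (1 / 4) ≤ (6 * C + 12) * x * (J * η) := by
                apply mul_le_mul _ hJη2 (by norm_num) (by positivity)
                nlinarith
              linarith
          _ ≤ D * Real.exp (c' * x * (k * η)) := by
              nlinarith [Real.exp_pos (c' * x * (k * η))]
      · have hkJ' : k + 1 ≤ J := by omega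
        have hk1 : 1 ≤ k := by omega
        have hkη : ((k : ℝ) + 1) * η ≤ 1 / 2 := by
          have : ((k : ℝ) + 1) ≤ J := by exact_mod_cast hkJ'
          calc ((k : ℝ) + 1) * η ≤ J * η := by gcongr
            _ ≤ 1 / 2 := hJη
        have hkη2 : ((k : ℝ) + 1) * η ≤ 2 * (k * η) := by
          have : (1 : ℝ) ≤ k := by exact_mod_cast hk1
          nlinarith
        have hkη0 : 0 ≤ ((k : ℝ) + 1) * η := by positivity
        have h1 := hD q (x + 3) (1 - ((k : ℝ) + 1) * η) (by linarith) (by linarith) (by linarith)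
          (S.filter fun χ => j χ = k) (by
            intro χ hχ
            rw [Finset.mem_filter, Finset.mem_filter] at hχ
            obtain ⟨⟨-, hχ1⟩, hχk⟩ := hχ
            refine ⟨hχ1, ?_⟩
            have h2 : ¬ P χ (k + 1) := by
              apply Nat.findGreatest_is_greatest _ hkJ'
              rw [← hχk]
              exact Nat.lt_succ_self _
            simp only [hP, ZF] at h2
            push Not at h2
            obtain ⟨s, hs1, hs2, hs3⟩ := h2
            exact ⟨s, by push_cast at hs1; exact hs1, hs2, hs3⟩)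
        have e5 : x + 3 + 2 = x + 5 := by ring
        rw [e5, sub_sub_cancel] at h1
        refine h1.trans ?_
        have h3 : (Real.log ((q : ℝ) * (x + 5))) ^ C ≤ (3 * x) ^ C :=
          Real.rpow_le_rpow hlogq0 hlogq hC.le
        have h4 : ((q : ℝ) * (x + 5)) ^ (C * (((k : ℝ) + 1) * η)) ≤ Real.exp (c' * x * (k * η)) := by
          calc ((q : ℝ) * (x + 5)) ^ (C * (((k : ℝ) + 1) * η))
              ≤ (Real.exp (3 * x)) ^ (C * (((k : ℝ) + 1) * η)) :=
                Real.rpow_le_rpow hqx.le hq (by positivity)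
            _ = Real.exp (3 * x * (C * (((k : ℝ) + 1) * η))) := by
                rw [← Real.exp_mul]
            _ ≤ _ := by
                apply Real.exp_le_exp.2
                rw [hc']
                have h5 : 3 * x * C * (((k : ℝ) + 1) * η) ≤ 3 * x * C * (2 * (k * η)) := by
                  apply mul_le_mul_of_nonneg_left hkη2
                  positivity
                have h6 : 0 ≤ 12 * x * (k * η) := by positivity
                nlinarith
        calc C * (x + 3) * (Real.log ((q : ℝ) * (x + 5))) ^ C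
              * ((q : ℝ) * (x + 5)) ^ (C * (((k : ℝ) + 1) * η))
            ≤ C * (x + 3) * (3 * x) ^ C * Real.exp (c' * x * (k * η)) := by gcongr
          _ ≤ D * Real.exp (c' * x * (k * η)) := by
              rw [hDdef]
              nlinarith [Real.exp_pos (c' * x * (k * η))]
  have hmain := levels S J j (fun χ _ => hjJ χ) (fun k => Real.exp ((1 - k * η) * l))
    (fun k => (Real.exp_pos _).le) G (by
      intro χ hχ
      have hχ1 : χ ≠ 1 := (Finset.mem_filter.1 hχ).2
      apply hG χ hχ1 (1 - (j χ : ℝ) * η) _ _ (hPj χ hχ1)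
      · have : (j χ : ℝ) ≤ J := by exact_mod_cast hjJ χ
        have : (j χ : ℝ) * η ≤ J * η := by gcongr
        linarith
      · have : 0 ≤ (j χ : ℝ) * η := by positivity
        linarith)
    (fun k => if k = 0 then 0 else D * Real.exp (c' * x * (k * η))) hcount
  refine hmain.trans ?_
  have hterm : ∀ k ∈ range (J + 1), (if k = 0 then 0 else D * Real.exp (c' * x * (k * η))) *
      Real.exp ((1 - k * η) * l) ≤ D * (Real.exp l * Real.exp (-(η * l / 2))) := by
    intro k _
    split_ifs with hk0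
    · rw [zero_mul]
      positivity
    · have hk1 : (1 : ℝ) ≤ k := by exact_mod_cast Nat.one_le_iff_ne_zero.2 hk0
      rw [mul_assoc, ← Real.exp_add, ← Real.exp_add]
      apply mul_le_mul_of_nonneg_left _ (by linarith)
      apply Real.exp_le_exp.2
      have h1 : c' * x ≤ l / 2 := by linarith
      have h2 : c' * x * (k * η) ≤ l / 2 * (k * η) := by
        apply mul_le_mul_of_nonneg_right h1
        positivity
      have hl0 : 0 ≤ l := by
        have : 0 ≤ 2 * (6 * C + 12) * x := by positivity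
        linarith
      have h3 : η * l ≤ k * (η * l) := by
        have : 0 ≤ η * l := by positivity
        nlinarith
      nlinarith
  calc ∑ k ∈ range (J + 1), (if k = 0 then 0 else D * Real.exp (c' * x * (k * η))) *
        Real.exp ((1 - k * η) * l)
      ≤ ∑ k ∈ range (J + 1), D * (Real.exp l * Real.exp (-(η * l / 2))) :=
        Finset.sum_le_sum hterm
    _ = ((J : ℝ) + 1) * (D * (Real.exp l * Real.exp (-(η * l / 2)))) := by
        rw [Finset.sum_const, Finset.card_range, nsmul_eq_mul]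
        push_cast
        ring
    _ ≤ (1 / (2 * η) + 1) * (D * (Real.exp l * Real.exp (-(η * l / 2)))) := by
        apply mul_le_mul_of_nonneg_right _ (by positivity)
        linarith
    _ = _ := by ring

end Pool.Agent.Work.MP_b0c12c_nt.Lev
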