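import Mathlib
import Pool.Agent.Work.MP_b0c12c_nt.Dens2
import Pool.Agent.Work.MP_b0c12c_nt.Lev

/-!
Crude density theorem, conclusion.
-/

namespace Pool.Agent.Work.MP_b0c12c_nt.Dens

open Finset ArithmeticFunction
open scoped ArithmeticFunction.Moebius ComplexConjugate
open Pool.Agent.Work.MP_b0c12c_nt_helper70
open Pool.Agent.Work.MP_b0c12c_nt.Itf2

variable {q : ℕ} [NeZero q]

theorem V_bound (N X M : ℕ) {σ : ℝ} (hσ : σ ≤ 1) (hM : 1 ≤ M) :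
    ∑ k ∈ Ioc X M, ‖cc N X k‖ ^ 2 * (k : ℝ) ^ (1 - 2 * σ) ≤
      (M : ℝ) ^ (2 * (1 - σ)) * Hm M ^ 4 := by
  calc ∑ k ∈ Ioc X M, ‖cc N X k‖ ^ 2 * (k : ℝ) ^ (1 - 2 * σ)
      ≤ ∑ k ∈ Ioc X M, (M : ℝ) ^ (2 * (1 - σ)) * (dd k * dd k / k) := by
        refine Finset.sum_le_sum fun k hk => ?_
        rw [Finset.mem_Ioc] at hk
        have hk1 : 1 ≤ k := by omega
        have hk0 : (0 : ℝ) < k := by exact_mod_cast hk1
        have h1 : ‖cc N X k‖ ^ 2 ≤ dd k ^ 2 :=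
          pow_le_pow_left₀ (norm_nonneg _) (norm_cc_le N X hk1) 2
        have h2 : (k : ℝ) ^ (1 - 2 * σ) = (k : ℝ) ^ (2 * (1 - σ)) / k := by
          rw [show 1 - 2 * σ = 2 * (1 - σ) - 1 by ring, Real.rpow_sub_one hk0.ne']
        have h3 : (k : ℝ) ^ (2 * (1 - σ)) ≤ (M : ℝ) ^ (2 * (1 - σ)) := by
          apply Real.rpow_le_rpow hk0.le
          · exact_mod_cast hk.2
          · linarith
        rw [h2]
        calc ‖cc N X k‖ ^ 2 * ((k : ℝ) ^ (2 * (1 - σ)) / k)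
            ≤ dd k ^ 2 * ((M : ℝ) ^ (2 * (1 - σ)) / k) := by gcongr
          _ = _ := by ring
    _ ≤ ∑ k ∈ Icc 1 M, (M : ℝ) ^ (2 * (1 - σ)) * (dd k * dd k / k) := by
        apply Finset.sum_le_sum_of_subset_of_nonneg
        · intro k hk
          rw [Finset.mem_Ioc] at hk
          rw [Finset.mem_Icc]
          omega
        · intro k _ _
          have := dd_nonneg k
          positivity
    _ = (M : ℝ) ^ (2 * (1 - σ)) * ∑ k ∈ Icc 1 M, dd k * dd k / k := by rw [Finset.mul_sum]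
    _ ≤ _ := by
        apply mul_le_mul_of_nonneg_left (sum_dd_sq_le M)
        positivity

omit [NeZero q] in
theorem pair_diag (χ : DirichletCharacter ℂ q) {X M : ℕ} {w : ℂ} (hw : 1 ≤ w.re) :
    ‖∑ k ∈ Ioc X M, χ (k : ZMod q) * (k : ℂ) ^ (-w)‖ ≤ Hm M := by
  refine (norm_sum_le _ _).trans ?_
  calc ∑ k ∈ Ioc X M, ‖χ (k : ZMod q) * (k : ℂ) ^ (-w)‖ ≤ ∑ k ∈ Ioc X M, 1 / (k : ℝ) := by
        refine Finset.sum_le_sum fun k hk => ?_
        rw [Finset.mem_Ioc] at hk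
        have hk1 : 1 ≤ k := by omega
        refine (norm_term_le χ hk1 w).trans ?_
        rw [one_div, ← Real.rpow_neg_one]
        apply Real.rpow_le_rpow_of_exponent_le
        · exact_mod_cast hk1
        · linarith
    _ ≤ Hm M := by
        unfold Hm
        apply Finset.sum_le_sum_of_subset_of_nonneg
        · intro k hk
          rw [Finset.mem_Ioc] at hk
          rw [Finset.mem_Icc]
          omega
        · intro k _ _
          positivity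

theorem pair_off (ψ : DirichletCharacter ℂ q) (hψ : ψ ≠ 1) {X M : ℕ} (hX : 1 ≤ X) (hXM : X ≤ M)
    {T : ℝ} (hT : 1 ≤ T) (hXT : (q : ℝ) ^ 2 * (T + 1) ≤ X)
    {w : ℂ} (hw : 1 ≤ w.re) (hw2 : |w.im| ≤ 2 * T) :
    ‖∑ k ∈ Ioc X M, ψ (k : ZMod q) * (k : ℂ) ^ (-w)‖ ≤ 4 / q := by
  refine (block_bound ψ hψ hX hXM (by linarith)).trans ?_
  have hq : (0 : ℝ) < q := by exact_mod_cast Nat.pos_of_ne_zero (NeZero.ne q)
  have hX0 : (0 : ℝ) < X := by exact_mod_cast hX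
  have hwre : 0 < w.re := by linarith
  have h1 : ‖w‖ ≤ (1 + 2 * T) * w.re := by
    have := Complex.norm_le_abs_re_add_abs_im w
    rw [abs_of_pos hwre] at this
    nlinarith
  have h2 : (X : ℝ) ^ (-w.re) ≤ 1 / X := by
    rw [one_div, ← Real.rpow_neg_one]
    apply Real.rpow_le_rpow_of_exponent_le
    · exact_mod_cast hX
    · linarith
  calc 2 * (‖w‖ * (q * (X : ℝ) ^ (-w.re) / w.re))
      ≤ 2 * (((1 + 2 * T) * w.re) * (q * (1 / X) / w.re)) := by gcongr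
    _ = 2 * (1 + 2 * T) * q / X := by
        field_simp
    _ ≤ 2 * (2 * (T + 1)) * q / (q ^ 2 * (T + 1)) := by
        apply div_le_div₀ (by positivity) _ (by positivity) hXT
        apply mul_le_mul_of_nonneg_right _ hq.le
        linarith
    _ = 4 / q := by
        field_simp
        ring

theorem card_bound {T σ : ℝ} (hT : 1 ≤ T) (hσ : 1 / 2 ≤ σ) (hσ1 : σ ≤ 1)
    (S : Finset (DirichletCharacter ℂ q))
    (hS : ∀ χ ∈ S, χ ≠ 1 ∧ ∃ s : ℂ, σ ≤ s.re ∧ |s.im| ≤ T ∧ χ.LFunction s = 0)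
    {X : ℕ} (hX : 1 ≤ X) (hXT : (q : ℝ) ^ 2 * (T + 1) ≤ X) :
    (S.card : ℝ) ≤ 4 * ((((4 * X ^ 2) ^ 2 * X : ℕ) : ℝ) ^ (2 * (1 - σ)) *
      Hm ((4 * X ^ 2) ^ 2 * X) ^ 4 * (Hm ((4 * X ^ 2) ^ 2 * X) + 4)) := by
  classical
  set M : ℕ := (4 * X ^ 2) ^ 2 * X with hM
  have hq : (0 : ℝ) < q := by exact_mod_cast Nat.pos_of_ne_zero (NeZero.ne q)
  have hq1 : (1 : ℝ) ≤ q := by exact_mod_cast Nat.one_le_iff_ne_zero.2 (NeZero.ne q)
  have hXM : X ≤ M := Nat.le_mul_of_pos_left X (by positivity)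
  have hM1 : 1 ≤ M := hX.trans hXM
  have hex : ∀ χ : DirichletCharacter ℂ q, ∃ s : ℂ, χ ∈ S → χ ≠ 1 ∧ σ ≤ s.re ∧ |s.im| ≤ T ∧
      χ.LFunction s = 0 := by
    intro χ
    by_cases h : χ ∈ S
    · obtain ⟨h1, s, h2, h3, h4⟩ := hS χ h
      exact ⟨s, fun _ => ⟨h1, h2, h3, h4⟩⟩
    · exact ⟨0, fun h' => absurd h' h⟩
  choose ρ hρ using hex
  have hdet : ∀ χ ∈ S, 1 / 2 ≤ ‖∑ k ∈ Ioc X M, cc ((4 * X ^ 2) ^ 2) X k *
      (χ (k : ZMod q) * (k : ℂ) ^ (-(ρ χ)))‖ := by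
    intro χ hχ
    obtain ⟨h1, h2, h3, h4⟩ := hρ χ hχ
    have h5 : (ρ χ).re ≤ 1 := by
      by_contra hcon
      push Not at hcon
      exact DirichletCharacter.LFunction_ne_zero_of_one_le_re χ (Or.inl h1) hcon.le h4
    refine detect χ h1 h4 (by linarith) h5 hX ?_
    calc (|(ρ χ).im| + 1) * q ≤ (T + 1) * q := by gcongr
      _ ≤ (q : ℝ) ^ 2 * (T + 1) := by
          have h6 : (q : ℝ) ≤ (q : ℝ) ^ 2 := by nlinarith
          have h7 : (0 : ℝ) ≤ T + 1 := by linarith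
          nlinarith [mul_le_mul_of_nonneg_right h6 h7]
      _ ≤ X := hXT
  have hsum : (S.card : ℝ) / 2 ≤ ∑ χ ∈ S, ‖∑ k ∈ Ioc X M, cc ((4 * X ^ 2) ^ 2) X k *
      (χ (k : ZMod q) * (k : ℂ) ^ (-(ρ χ)))‖ := by
    calc (S.card : ℝ) / 2 = ∑ χ ∈ S, (1 / 2 : ℝ) := by
          rw [Finset.sum_const, nsmul_eq_mul]
          ring
      _ ≤ _ := Finset.sum_le_sum hdet
  have hdual := duality S ρ (cc ((4 * X ^ 2) ^ 2) X) (Ioc X M) (fun k hk => by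
    rw [Finset.mem_Ioc] at hk
    omega) σ
  have hH0 : 0 ≤ Hm M := Hm_nonneg M
  have hpairs : ∑ χ ∈ S, ∑ χ' ∈ S, ‖∑ k ∈ Ioc X M, (χ * χ'⁻¹) (k : ZMod q) *
        (k : ℂ) ^ (-(ρ χ + conj (ρ χ') + 1 - 2 * (σ : ℂ)))‖ ≤ S.card * (Hm M + 4) := by
    have h1 : ∀ χ ∈ S, ∑ χ' ∈ S, ‖∑ k ∈ Ioc X M, (χ * χ'⁻¹) (k : ZMod q) *
        (k : ℂ) ^ (-(ρ χ + conj (ρ χ') + 1 - 2 * (σ : ℂ)))‖ ≤ Hm M + 4 := by
      intro χ hχ
      obtain ⟨h1, h2, h3, h4⟩ := hρ χ hχ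
      have hpt : ∀ χ' ∈ S, ‖∑ k ∈ Ioc X M, (χ * χ'⁻¹) (k : ZMod q) *
        (k : ℂ) ^ (-(ρ χ + conj (ρ χ') + 1 - 2 * (σ : ℂ)))‖ ≤
          (if χ' = χ then Hm M else 0) + 4 / q := by
        intro χ' hχ'
        obtain ⟨g1, g2, g3, g4⟩ := hρ χ' hχ'
        have hre : (ρ χ + conj (ρ χ') + 1 - 2 * (σ : ℂ)).re = (ρ χ).re + (ρ χ').re + 1 - 2 * σ := by
          simp
        have him : (ρ χ + conj (ρ χ') + 1 - 2 * (σ : ℂ)).im = (ρ χ).im - (ρ χ').im := by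
          simp [sub_eq_add_neg]
        have hw : 1 ≤ (ρ χ + conj (ρ χ') + 1 - 2 * (σ : ℂ)).re := by
          rw [hre]
          linarith
        have hw2 : |(ρ χ + conj (ρ χ') + 1 - 2 * (σ : ℂ)).im| ≤ 2 * T := by
          rw [him]
          refine (abs_sub _ _).trans ?_
          linarith
        split_ifs with heq
        · have h5 := pair_diag (χ * χ'⁻¹) (X := X) (M := M) hw
          have h6 : (0 : ℝ) ≤ 4 / q := by positivity
          linarith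
        · rw [zero_add]
          have hne : χ * χ'⁻¹ ≠ 1 := by
            rw [Ne, mul_inv_eq_one]
            exact fun h => heq h.symm
          exact pair_off _ hne hX hXM hT hXT hw hw2
      refine (Finset.sum_le_sum hpt).trans ?_
      rw [Finset.sum_add_distrib, Finset.sum_ite_eq' S χ, if_pos hχ, Finset.sum_const,
        nsmul_eq_mul]
      have h7 : (S.card : ℝ) * (4 / q) ≤ 4 := by
        have h8 := Lev.card_chars_le S
        calc (S.card : ℝ) * (4 / q) ≤ q * (4 / q) := by gcongr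
          _ = 4 := by field_simp
      linarith
    calc _ ≤ ∑ χ ∈ S, (Hm M + 4) := Finset.sum_le_sum h1
      _ = _ := by rw [Finset.sum_const, nsmul_eq_mul]
  have hV := V_bound ((4 * X ^ 2) ^ 2) X M hσ1 hM1
  have hV0 : 0 ≤ ∑ k ∈ Ioc X M, ‖cc ((4 * X ^ 2) ^ 2) X k‖ ^ 2 * (k : ℝ) ^ (1 - 2 * σ) :=
    Finset.sum_nonneg fun k _ => by positivity
  set V : ℝ := (M : ℝ) ^ (2 * (1 - σ)) * Hm M ^ 4 with hVdef
  have hVn : 0 ≤ V := by positivity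
  have hfin : ((S.card : ℝ) / 2) ^ 2 ≤ V * (S.card * (Hm M + 4)) := by
    calc ((S.card : ℝ) / 2) ^ 2 ≤ _ := pow_le_pow_left₀ (by positivity) hsum 2
      _ ≤ _ := hdual
      _ ≤ V * (S.card * (Hm M + 4)) := by
          apply mul_le_mul hV hpairs _ hVn
          exact Finset.sum_nonneg fun _ _ => Finset.sum_nonneg fun _ _ => norm_nonneg _
  rcases Nat.eq_zero_or_pos S.card with h0 | h0
  · rw [h0]
    push_cast
    positivity
  · have hc0 : (0 : ℝ) < S.card := by exact_mod_cast h0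
    have h9 : (S.card : ℝ) * S.card ≤ S.card * (4 * (V * (Hm M + 4))) := by nlinarith
    have h10 := le_of_mul_le_mul_left h9 hc0
    exact h10

theorem density : Density := by
  refine ⟨4 * 14 ^ 4 * 18, by norm_num, ?_⟩
  intro q _ T σ hT hσ hσ1 S hS
  have hq1 : (1 : ℝ) ≤ q := by exact_mod_cast Nat.one_le_iff_ne_zero.2 (NeZero.ne q)
  set D : ℝ := (q : ℝ) * (T + 2) with hD
  have hD3 : 3 ≤ D := by
    rw [hD]
    nlinarith
  set X : ℕ := q ^ 2 * ⌈T + 1⌉₊ with hX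
  have hc1 : T + 1 ≤ (⌈T + 1⌉₊ : ℝ) := Nat.le_ceil _
  have hc2 : (⌈T + 1⌉₊ : ℝ) < T + 1 + 1 := Nat.ceil_lt_add_one (by linarith)
  have hXT : (q : ℝ) ^ 2 * (T + 1) ≤ X := by
    rw [hX]
    push_cast
    gcongr
  have hX1 : 1 ≤ X := by
    have : (1 : ℝ) ≤ X := by
      refine le_trans ?_ hXT
      nlinarith
    exact_mod_cast this
  have hXD : (X : ℝ) ≤ D ^ 2 := by
    rw [hX, hD]
    push_cast
    have h1 : (q : ℝ) ^ 2 * (⌈T + 1⌉₊ : ℝ) ≤ (q : ℝ) ^ 2 * (T + 2) := by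
      gcongr
      linarith
    have h2 : (q : ℝ) ^ 2 * (T + 2) ≤ (q : ℝ) ^ 2 * (T + 2) ^ 2 := by
      gcongr
      nlinarith
    nlinarith
  set M : ℕ := (4 * X ^ 2) ^ 2 * X with hM
  have hMD : (M : ℝ) ≤ D ^ 13 := by
    rw [hM]
    push_cast
    have h1 : (X : ℝ) ^ 5 ≤ (D ^ 2) ^ 5 := pow_le_pow_left₀ (Nat.cast_nonneg _) hXD 5
    have h2 : (16 : ℝ) ≤ D ^ 3 := by
      have : (3 : ℝ) ^ 3 ≤ D ^ 3 := pow_le_pow_left₀ (by norm_num) hD3 3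
      linarith
    calc (4 * (X : ℝ) ^ 2) ^ 2 * X = 16 * (X : ℝ) ^ 5 := by ring
      _ ≤ D ^ 3 * (D ^ 2) ^ 5 := by gcongr
      _ = D ^ 13 := by ring
  have hM1 : 1 ≤ M := by
    rw [hM]
    exact Nat.mul_pos (by positivity) hX1
  have hM0 : (0 : ℝ) < M := by exact_mod_cast hM1
  have hlogD : 1 ≤ Real.log D := by
    rw [← Real.log_exp 1]
    apply Real.log_le_log (Real.exp_pos _)
    have := Real.exp_one_lt_d9
    linarith
  have hHm : Hm M ≤ 14 * Real.log D := by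
    have h1 : Real.log M ≤ 13 * Real.log D := by
      have := Real.log_le_log hM0 hMD
      rw [Real.log_pow] at this
      exact_mod_cast this
    have h2 := Hm_le (M := M)
    linarith
  have h0 := Hm_nonneg M
  refine (card_bound hT hσ hσ1 S hS hX1 hXT).trans ?_
  have h3 : ((M : ℕ) : ℝ) ^ (2 * (1 - σ)) ≤ D ^ ((4 * 14 ^ 4 * 18 : ℝ) * (1 - σ)) := by
    calc ((M : ℕ) : ℝ) ^ (2 * (1 - σ)) ≤ (D ^ 13) ^ (2 * (1 - σ)) :=
          Real.rpow_le_rpow hM0.le hMD (by linarith)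
      _ = D ^ (13 * (2 * (1 - σ))) := by
          rw [← Real.rpow_natCast D 13, ← Real.rpow_mul (by linarith)]
          norm_num
      _ ≤ _ := by
          apply Real.rpow_le_rpow_of_exponent_le (by linarith)
          nlinarith
  have h4 : Hm M ^ 4 * (Hm M + 4) ≤ 14 ^ 4 * 18 * Real.log D ^ 5 := by
    calc Hm M ^ 4 * (Hm M + 4) ≤ (14 * Real.log D) ^ 4 * (14 * Real.log D + 4 * Real.log D) := by
          gcongr
          linarith
      _ = _ := by ring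
  have h5 : Real.log D ^ 5 ≤ Real.log D ^ (4 * 14 ^ 4 * 18 : ℝ) := by
    rw [← Real.rpow_natCast (Real.log D) 5]
    apply Real.rpow_le_rpow_of_exponent_le hlogD
    norm_num
  have h6 : (0 : ℝ) ≤ D ^ ((4 * 14 ^ 4 * 18 : ℝ) * (1 - σ)) := by positivity
  have h7 : (0 : ℝ) ≤ Real.log D ^ (4 * 14 ^ 4 * 18 : ℝ) := by positivity
  calc 4 * ((M : ℝ) ^ (2 * (1 - σ)) * Hm M ^ 4 * (Hm M + 4))
      = 4 * ((M : ℝ) ^ (2 * (1 - σ)) * (Hm M ^ 4 * (Hm M + 4))) := by ring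
    _ ≤ 4 * (D ^ ((4 * 14 ^ 4 * 18 : ℝ) * (1 - σ)) *
          (14 ^ 4 * 18 * Real.log D ^ (4 * 14 ^ 4 * 18 : ℝ))) := by
        have h8 : Hm M ^ 4 * (Hm M + 4) ≤ 14 ^ 4 * 18 * Real.log D ^ (4 * 14 ^ 4 * 18 : ℝ) :=
          h4.trans (by gcongr)
        have h9 : 0 ≤ Hm M ^ 4 * (Hm M + 4) := by positivity
        apply mul_le_mul_of_nonneg_left _ (by norm_num)
        exact mul_le_mul h3 h8 h9 h6
    _ = (4 * 14 ^ 4 * 18) * 1 * Real.log D ^ (4 * 14 ^ 4 * 18 : ℝ) *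
          D ^ ((4 * 14 ^ 4 * 18 : ℝ) * (1 - σ)) := by ring
    _ ≤ (4 * 14 ^ 4 * 18) * T * Real.log D ^ (4 * 14 ^ 4 * 18 : ℝ) *
          D ^ ((4 * 14 ^ 4 * 18 : ℝ) * (1 - σ)) := by gcongr

end Pool.Agent.Work.MP_b0c12c_nt.Dens
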