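import Mathlib
import Pool.Agent.Work.MP_b0c12c_nt.Assem1
import Pool.Agent.Work.MP_b0c12c_nt.Exc
import Pool.Agent.Work.MP_b0c12c_nt.Small

/-!
Assembly, second part: uniform prime number theorem (upper bound) for the good moduli.
-/

namespace Pool.Agent.Work.MP_b0c12c_nt.Assem

open Filter Finset MeasureTheory ArithmeticFunction
open scoped Topology
open Pool.Agent.Work.MP_b0c12c_nt.Itf2

theorem wt_eq {τ X v : ℝ} (hX : 0 < X) {n : ℕ} (hn : 1 ≤ n) :
    wt τ (Real.exp (Real.log X + v)) n =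
      Real.exp (-(v - Real.log (n / X)) ^ 2 / (2 * τ ^ 2)) := by
  unfold wt
  have hn0 : (0 : ℝ) < n := by exact_mod_cast hn
  have h1 : Real.log ((n : ℝ) / Real.exp (Real.log X + v)) = Real.log (n / X) - v := by
    rw [Real.log_div hn0.ne' (Real.exp_pos _).ne', Real.log_exp, Real.log_div hn0.ne' hX.ne']
    ring
  rw [h1]
  congr 2
  ring

/-- integration over the shift -/
theorem integrate_shift {τ Δ X m c : ℝ} (hX : 0 < X) (hΔ : 0 < Δ)
    (hm : m ≤ ∫ u in (-Δ)..Δ, Real.exp (-u ^ 2 / (2 * τ ^ 2)))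
    (F : Finset ℕ) (hF : ∀ n ∈ F, X < (n : ℝ) ∧ (n : ℝ) ≤ 2 * X)
    (hc : ∀ v : ℝ, -Δ ≤ v → v ≤ Real.log 2 + Δ →
      ∑ n ∈ F, Λ n * wt τ (Real.exp (Real.log X + v)) n ≤ c * Real.exp (Real.log X + v)) :
    m * ∑ n ∈ F, Λ n ≤ c * X * (2 * Real.exp Δ - Real.exp (-Δ)) := by
  have hlog2 : 0 < Real.log 2 := Real.log_pos (by norm_num)
  have hn1 : ∀ n ∈ F, 1 ≤ n := by
    intro n hn
    have h1 := (hF n hn).1
    have : (0 : ℝ) < n := hX.trans h1
    exact_mod_cast this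
  have hcont : ∀ n : ℕ, Continuous fun v : ℝ =>
      Real.exp (-(v - Real.log (n / X)) ^ 2 / (2 * τ ^ 2)) := by
    intro n
    fun_prop
  have h1 : ∀ n ∈ F, m ≤ ∫ v in (-Δ)..(Real.log 2 + Δ),
      Real.exp (-(v - Real.log (n / X)) ^ 2 / (2 * τ ^ 2)) := by
    intro n hn
    obtain ⟨g1, g2⟩ := hF n hn
    obtain ⟨t, ht⟩ : ∃ t, t = Real.log (n / X) := ⟨_, rfl⟩
    rw [← ht]
    have ht0 : 0 ≤ t := by
      rw [ht]
      apply Real.log_nonneg
      rw [le_div_iff₀ hX]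
      linarith
    have ht2 : t ≤ Real.log 2 := by
      rw [ht]
      apply Real.log_le_log
      · have : (0 : ℝ) < n := hX.trans g1
        positivity
      · rw [div_le_iff₀ hX]
        exact g2
    have h2 : ∫ u in (-Δ)..Δ, Real.exp (-u ^ 2 / (2 * τ ^ 2)) =
        ∫ v in (t - Δ)..(t + Δ), Real.exp (-(v - t) ^ 2 / (2 * τ ^ 2)) := by
      have h3 := intervalIntegral.integral_comp_sub_right
        (fun u : ℝ => Real.exp (-u ^ 2 / (2 * τ ^ 2))) t (a := t - Δ) (b := t + Δ)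
      rw [h3]
      congr 1 <;> ring
    refine hm.trans ?_
    rw [h2]
    apply intervalIntegral.integral_mono_interval
    · linarith
    · linarith
    · linarith
    · exact Filter.Eventually.of_forall fun v => (Real.exp_pos _).le
    · have : Continuous fun v : ℝ => Real.exp (-(v - t) ^ 2 / (2 * τ ^ 2)) := by fun_prop
      exact this.intervalIntegrable _ _
  have h4 : ∫ v in (-Δ)..(Real.log 2 + Δ), ∑ n ∈ F, Λ n *
      Real.exp (-(v - Real.log (n / X)) ^ 2 / (2 * τ ^ 2)) ≤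
      ∫ v in (-Δ)..(Real.log 2 + Δ), c * Real.exp (Real.log X + v) := by
    apply intervalIntegral.integral_mono_on (by linarith)
    · apply Continuous.intervalIntegrable
      exact continuous_finsetSum _ fun n _ => continuous_const.mul (hcont n)
    · apply Continuous.intervalIntegrable
      fun_prop
    · intro v hv
      refine le_trans (le_of_eq ?_) (hc v hv.1 hv.2)
      refine Finset.sum_congr rfl fun n hn => ?_
      rw [wt_eq hX (hn1 n hn)]
  have h5 : ∫ v in (-Δ)..(Real.log 2 + Δ), ∑ n ∈ F, Λ n *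
      Real.exp (-(v - Real.log (n / X)) ^ 2 / (2 * τ ^ 2)) =
      ∑ n ∈ F, Λ n * ∫ v in (-Δ)..(Real.log 2 + Δ),
        Real.exp (-(v - Real.log (n / X)) ^ 2 / (2 * τ ^ 2)) := by
    rw [intervalIntegral.integral_finsetSum]
    · refine Finset.sum_congr rfl fun n _ => ?_
      rw [intervalIntegral.integral_const_mul]
    · intro n _
      exact ((continuous_const.mul (hcont n)).intervalIntegrable _ _)
  have h6 : ∫ v in (-Δ)..(Real.log 2 + Δ), c * Real.exp (Real.log X + v) =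
      c * X * (2 * Real.exp Δ - Real.exp (-Δ)) := by
    have h7 : ∀ v : ℝ, c * Real.exp (Real.log X + v) = (c * X) * Real.exp v := by
      intro v
      rw [Real.exp_add, Real.exp_log hX]
      ring
    simp only [h7]
    rw [intervalIntegral.integral_const_mul, integral_exp, Real.exp_add,
      Real.exp_log (by norm_num)]
  rw [h5, h6] at h4
  refine le_trans ?_ h4
  rw [Finset.mul_sum]
  refine Finset.sum_le_sum fun n hn => ?_
  rw [mul_comm]
  exact mul_le_mul_of_nonneg_left (h1 n hn) ArithmeticFunction.vonMangoldt_nonneg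

theorem uniformPntStrong (hZF : ZeroFree) (hD : Density) (hGB : GaussBound) (hP : GaussPnt) :
    UniformPntStrong := by
  intro κ hκ B ε hε K
  obtain ⟨Δ, τ, ε₁, m, hΔ, hΔ4, hτ, hτ1, hε₁, hm0, hm, hfinal⟩ := exists_params hε
  obtain ⟨z1, hz1⟩ := Exc.exists_modulus hZF (κ / 2) (by linarith) K
  obtain ⟨z2, hz2⟩ := Small.char_sum_small hD hGB (κ := κ) (κ' := κ / 2) (by linarith)
    (by linarith) B hτ hτ1 hε₁
  obtain ⟨Y0, hY0⟩ := hP τ hτ ε₁ hε₁
  have ev : ∀ᶠ z : ℕ in atTop, max 2 (2 * Y0) ≤ (z : ℝ) ^ (1 + κ) :=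
    ((tendsto_rpow_atTop (by linarith : (0 : ℝ) < 1 + κ)).comp
      tendsto_natCast_atTop_atTop).eventually_ge_atTop _
  obtain ⟨z3, hz3⟩ := eventually_atTop.1 ev
  refine ⟨max (max z1 z2) (max z3 2), fun z hz => ?_⟩
  have hzz1 : z1 ≤ z := (le_max_left z1 z2).trans ((le_max_left _ _).trans hz)
  have hzz2 : z2 ≤ z := (le_max_right z1 z2).trans ((le_max_left _ _).trans hz)
  have hzz3 : z3 ≤ z := (le_max_left z3 2).trans ((le_max_right _ _).trans hz)
  have hz2' : 2 ≤ z := (le_max_right z3 2).trans ((le_max_right _ _).trans hz)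
  have hzr : (2 : ℝ) ≤ z := by exact_mod_cast hz2'
  obtain ⟨q, hqne, hq, hqZ⟩ := hz1 z hzz1
  refine ⟨q, hq, fun X hX hX1 hX2 a ha => ?_⟩
  have hqdvd : q ∣ primorial z := by
    rcases hq with h | ⟨p, _, _, _, h⟩
    · rw [h]
    · exact ⟨p, h.symm⟩
  have hqle : (q : ℝ) ≤ primorial z := by
    exact_mod_cast Nat.le_of_dvd (primorial_pos z) hqdvd
  -- the zero free region
  set W : ℝ := Real.log ((primorial z : ℝ) * ((z : ℝ) + 5)) with hW
  have hWle : W ≤ 3 * z := by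
    rw [hW, ← Real.log_exp (3 * (z : ℝ))]
    apply Real.log_le_log
    · have : (0 : ℝ) < primorial z := by exact_mod_cast primorial_pos z
      positivity
    · exact Small.primorial_mul_le hz2' (Nat.cast_nonneg _) le_rfl
  have hW0 : 0 < W := by
    refine lt_of_lt_of_le ?_ (Exc.logQ_ge z)
    apply Real.log_pos
    linarith
  have hpow : (3 * (z : ℝ)) ^ (-(1 + κ / 2)) ≤ W ^ (-(1 + κ / 2)) := by
    apply Real.rpow_le_rpow_of_nonpos hW0 hWle
    linarith
  have hZ : ∀ χ : DirichletCharacter ℂ q, χ ≠ 1 →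
      ZF χ (1 - (3 * (z : ℝ)) ^ (-(1 + κ / 2))) ((z : ℝ) + 3) := by
    intro χ hχ s hs1 hs2
    exact hqZ χ hχ s (by linarith) hs2
  have hev := hz3 z hzz3
  have hev1 : 2 ≤ (z : ℝ) ^ (1 + κ) := (le_max_left _ _).trans hev
  have hev2 : 2 * Y0 ≤ (z : ℝ) ^ (1 + κ) := (le_max_right _ _).trans hev
  have hlog2 : Real.log 2 < 0.7 := by
    have := Real.log_two_lt_d9
    linarith
  have hφ : (0 : ℝ) < q.totient := by
    exact_mod_cast Nat.totient_pos.mpr (Nat.pos_of_ne_zero (NeZero.ne q))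
  set F : Finset ℕ := (Ioc ⌊X⌋₊ ⌊2 * X⌋₊).filter (fun p => p.Prime ∧ p ≡ a [MOD q]) with hF
  have hFX : ∀ n ∈ F, X < (n : ℝ) ∧ (n : ℝ) ≤ 2 * X := by
    intro n hn
    rw [hF, Finset.mem_filter, Finset.mem_Ioc] at hn
    constructor
    · exact (Nat.floor_lt hX.le).1 hn.1.1
    · exact (Nat.le_floor_iff (by positivity)).1 hn.1.2
  have hFa : ∀ n ∈ F, n ≡ a [MOD q] := by
    intro n hn
    exact (Finset.mem_filter.1 hn).2.2
  have hΛ : ∑ p ∈ F, Real.log p = ∑ n ∈ F, Λ n := by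
    refine Finset.sum_congr rfl fun p hp => ?_
    rw [ArithmeticFunction.vonMangoldt_apply_prime (Finset.mem_filter.1 hp).2.1]
  have hmain := integrate_shift (τ := τ) (c := ((1 + ε₁) *
    (τ * Real.sqrt (2 * Real.pi) * Real.exp (τ ^ 2 / 2)) + ε₁) / q.totient) hX hΔ hm F hFX (by
      intro v hv1 hv2
      set l : ℝ := Real.log X + v with hl
      have hl1 : (z : ℝ) ^ (1 + κ) / 2 ≤ l := by
        rw [hl]
        linarith
      have hl2 : l ≤ 2 * (z : ℝ) ^ B := by
        rw [hl]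
        linarith
      have hlY : Y0 ≤ Real.exp l := by
        have := Real.add_one_le_exp l
        linarith
      obtain ⟨hs, hs2⟩ := hY0 (Real.exp l) hlY
      have hcs := class_sum (τ := τ) (Y := Real.exp l) hs ha F hFa
      have hch := hz2 z hzz2 q hqle hZ l hl1 hl2
      have hs2' : ∑' n : ℕ, Λ n * wt τ (Real.exp l) n ≤
          (1 + ε₁) * (τ * Real.sqrt (2 * Real.pi) * Real.exp (τ ^ 2 / 2)) * Real.exp l := hs2
      rw [div_mul_eq_mul_div, le_div_iff₀ hφ]
      linarith)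
  rw [hΛ, le_div_iff₀ hφ]
  have h1 : m * (∑ n ∈ F, Λ n) * q.totient ≤ ((1 + ε₁) *
      (τ * Real.sqrt (2 * Real.pi) * Real.exp (τ ^ 2 / 2)) + ε₁) *
      (2 * Real.exp Δ - Real.exp (-Δ)) * X := by
    calc m * (∑ n ∈ F, Λ n) * q.totient ≤ (((1 + ε₁) *
          (τ * Real.sqrt (2 * Real.pi) * Real.exp (τ ^ 2 / 2)) + ε₁) / q.totient * X *
          (2 * Real.exp Δ - Real.exp (-Δ))) * q.totient :=
          mul_le_mul_of_nonneg_right hmain hφ.le
      _ = _ := by
          field_simp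
  have h2 : ((1 + ε₁) * (τ * Real.sqrt (2 * Real.pi) * Real.exp (τ ^ 2 / 2)) + ε₁) *
      (2 * Real.exp Δ - Real.exp (-Δ)) * X ≤ (1 + ε) * m * X :=
    mul_le_mul_of_nonneg_right hfinal hX.le
  have h3 : m * ((∑ n ∈ F, Λ n) * q.totient) ≤ m * ((1 + ε) * X) := by
    calc m * ((∑ n ∈ F, Λ n) * q.totient) = m * (∑ n ∈ F, Λ n) * q.totient := by ring
      _ ≤ (1 + ε) * m * X := h1.trans h2
      _ = _ := by ring
  exact le_of_mul_le_mul_left h3 hm0

end Pool.Agent.Work.MP_b0c12c_nt.Assem
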