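import Mathlib

/-!
Interface for the two hand-ins on randomly perturbed primes and randomly thinned primes.
Statements only (Work folder). Each block is to be proved in its own file
Block L: `uniform_pnt`, Block B: `rough_deficit`, Block D: `limsup_of_windows`,
Block P: `windows_perturbed`, Block T: `windows_thinned`.
-/

namespace Pool.Agent.Work.MP_b0c12c_nt.Itf

open MeasureTheory ProbabilityTheory Filter Finset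
open scoped ENNReal NNReal

/-- Block L. Uniform upper bound for primes in progressions modulo (almost) primorials,
`q ~ e^z`, `log X >= z^20`. -/
def UniformPnt : Prop :=
  ∀ ε : ℝ, 0 < ε → ∀ K : ℕ, ∃ z0 : ℕ, ∀ z : ℕ, z0 ≤ z →
    ∃ q : ℕ, (q = primorial z ∨ ∃ p : ℕ, p.Prime ∧ K < p ∧ p ≤ z ∧ q * p = primorial z) ∧
      ∀ X : ℝ, (z : ℝ) ^ 20 ≤ Real.log X → ∀ a : ℕ, a.Coprime q →
        ∑ p ∈ (Ioc ⌊X⌋₊ ⌊2 * X⌋₊).filter (fun p => p.Prime ∧ p ≡ a [MOD q]), Real.log p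
          ≤ (1 + ε) * X / q.totient

/-- Block B. Deficit of rough numbers below `z^u` for suitable arbitrarily large `u`
(Buchstab function below `e^{-gamma}`). -/
def RoughDeficit : Prop :=
  ∀ n : ℕ, 2 ≤ n → ∃ u : ℝ, (n : ℝ) ≤ u ∧ u ≤ n + 1 ∧ ∃ δ : ℝ, 0 < δ ∧ ∃ z0 : ℕ, ∀ z : ℕ, z0 ≤ z →
    (((Icc 1 ⌊(z : ℝ) ^ u⌋₊).filter (fun m => m.Coprime (primorial z))).card : ℝ)
      ≤ (1 - δ) * (z : ℝ) ^ u * ∏ p ∈ (Icc 1 z).filter Nat.Prime, (1 - 1 / (p : ℝ))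

/-- Rows: a family `T` of centres in `[x, 3x]`, pairwise at distance `> 2U`, of size
`>= x^(1-eta)`, such that the average number of primes in `[t-U, t+U]` is at most
`kap * 2U / log x`. -/
def Rows (kap η x : ℝ) (U : ℕ) : Prop :=
  ∃ T : Finset ℕ, (∀ t ∈ T, x ≤ (t : ℝ) ∧ (t : ℝ) ≤ 3 * x) ∧
    (∀ t ∈ T, ∀ t' ∈ T, t < t' → t + 2 * U < t') ∧
    x ^ (1 - η) ≤ (T.card : ℝ) ∧
    ∑ t ∈ T, (((Icc (t - U) (t + U)).filter Nat.Prime).card : ℝ)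
      ≤ kap * T.card * (2 * U) / Real.log x

/-- Maier rows (from L and B): uniform in `log x <= U <= (log x)^B`. -/
def MaierRows : Prop :=
  ∀ B : ℝ, 1 ≤ B → ∃ δ : ℝ, 0 < δ ∧ δ < 1 ∧ ∀ η : ℝ, 0 < η → ∃ x0 : ℝ, ∀ x : ℝ, x0 ≤ x →
    ∀ U : ℕ, Real.log x ≤ U → (U : ℝ) ≤ Real.log x ^ B → Rows (1 - δ) η x U

/-- The same with constant `1 + eps` from the prime number theorem only. -/
def PntRows : Prop :=
  ∀ B : ℝ, 1 ≤ B → ∀ ε : ℝ, 0 < ε → ∀ η : ℝ, 0 < η → ∃ x0 : ℝ, ∀ x : ℝ, x0 ≤ x →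
    ∀ U : ℕ, Real.log x ≤ U → (U : ℝ) ≤ Real.log x ^ B → Rows (1 + ε) η x U

/-- Block D. Deterministic lemma. -/
def LimsupOfWindows : Prop :=
  ∀ (Q : Set ℕ), Q.Infinite → ∀ l : ℝ, 0 < l →
    (∀ x0 : ℝ, ∃ x : ℝ, x0 ≤ x ∧ ∃ t : ℕ, x ≤ (t : ℝ) ∧ (t : ℝ) ≤ 4 * x ∧
      ∀ m : ℕ, t < m → (m : ℝ) ≤ t + l * Real.log x ^ 2 → m ∉ Q) →
    ((l : ℝ) : EReal) ≤ limsup (fun k : ℕ =>
      ((((Nat.nth (· ∈ Q) (k + 1) : ℝ) - (Nat.nth (· ∈ Q) k : ℝ)) /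
        Real.log (Nat.nth (· ∈ Q) k) ^ 2 : ℝ) : EReal)) atTop

/-- Block P. Perturbed primes: for every `l < 1 / kap` almost surely there are arbitrarily large
`x` with an empty window. `xi p` is uniform on the integers of absolute value at most
`(log p)^A`. -/
def WindowsPerturbed : Prop :=
  ∀ (A A' : ℝ), 2 < A → A < A' → ∀ kap : ℝ, 0 < kap →
    (∀ η : ℝ, 0 < η → ∃ x0 : ℝ, ∀ x : ℝ, x0 ≤ x →
      ∀ U : ℕ, Real.log x ≤ U → (U : ℝ) ≤ Real.log x ^ A' → Rows kap η x U) →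
    ∀ {Ω : Type} [MeasurableSpace Ω] (μ : Measure Ω) [IsProbabilityMeasure μ]
      (ξ : ℕ → Ω → ℤ), (∀ p, Measurable (ξ p)) → iIndepFun ξ μ →
      (∀ p : ℕ, p.Prime → ∀ k : ℤ, |k| ≤ (⌊Real.log p ^ A⌋₊ : ℤ) →
        μ {ω | ξ p ω = k} = 1 / (2 * (⌊Real.log p ^ A⌋₊ : ℝ≥0∞) + 1)) →
      ∀ l : ℝ, 0 < l → l * kap < 1 → ∀ᵐ ω ∂μ,
        ∀ x0 : ℝ, ∃ x : ℝ, x0 ≤ x ∧ ∃ t : ℕ, x ≤ (t : ℝ) ∧ (t : ℝ) ≤ 4 * x ∧
          ∀ m : ℕ, t < m → (m : ℝ) ≤ t + l * Real.log x ^ 2 →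
            ¬ ∃ p : ℕ, p.Prime ∧ (m : ℤ) = p + ξ p ω

/-- Block T. Thinned primes. -/
def WindowsThinned : Prop :=
  ∀ A' : ℝ, 2 < A' → ∀ kap : ℝ, 0 < kap →
    (∀ η : ℝ, 0 < η → ∃ x0 : ℝ, ∀ x : ℝ, x0 ≤ x →
      ∀ U : ℕ, Real.log x ≤ U → (U : ℝ) ≤ Real.log x ^ A' → Rows kap η x U) →
    ∀ {Ω : Type} [MeasurableSpace Ω] (μ : Measure Ω) [IsProbabilityMeasure μ]
      (θ : ℝ), 0 < θ → θ < 1 → ∀ (E : ℕ → Set Ω), (∀ p, MeasurableSet (E p)) →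
      iIndepSet E μ → (∀ p : ℕ, p.Prime → μ (E p) = ENNReal.ofReal θ) →
      ∀ l : ℝ, 0 < l → l * kap * Real.log (1 / (1 - θ)) < 1 → ∀ᵐ ω ∂μ,
        ∀ x0 : ℝ, ∃ x : ℝ, x0 ≤ x ∧ ∃ t : ℕ, x ≤ (t : ℝ) ∧ (t : ℝ) ≤ 4 * x ∧
          ∀ m : ℕ, t < m → (m : ℝ) ≤ t + l * Real.log x ^ 2 →
            ¬ (m.Prime ∧ ω ∈ E m)

end Pool.Agent.Work.MP_b0c12c_nt.Itf
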