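import Mathlib
import Pool.Agent.Work.MP_b0c12c_nt.RoughQ

/-! The final sieve input: numbers coprime to `q` up to `U ~ z^u`. -/

namespace Pool.Agent.Work.MP_b0c12c_nt

open MeasureTheory Filter Finset Topology ArithmeticFunction

lemma geom_le {r : ℝ} (h0 : 0 ≤ r) (h1 : r < 1) (n : ℕ) : ∑ j ∈ range n, r ^ j ≤ (1 - r)⁻¹ := by
  rw [← tsum_geometric_of_lt_one h0 h1]
  exact Summable.sum_le_tsum _ (fun i _ => pow_nonneg h0 i) (summable_geometric_of_lt_one h0 h1)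

/-- sum over the powers of the removed prime -/
lemma Cq_card_le {N : ℕ} {C ε u : ℝ} (hC : 0 < C) (hε : 0 < ε) (hu : 2 ≤ u) (huN : u ≤ N)
    {z q p : ℕ} (hp : p.Prime) (hpK : C / ε + 1 ≤ p) (hq : q * p = primorial z)
    (hz3 : 3 ≤ z)
    (hcrude : ∀ y : ℕ, (z : ℝ) ^ (3 / 2 : ℝ) ≤ y → (y : ℝ) ≤ (z : ℝ) ^ (N : ℝ) →
      ((Ro z y).card : ℝ) * Real.log z ≤ C * y)
    (h6 : (z : ℝ) ^ (3 / 2 : ℝ) + 2 ≤ (z : ℝ) ^ (7 / 4 : ℝ))
    (h4 : Real.log z ≤ ε * (z : ℝ) ^ (1 / 4 : ℝ)) :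
    ((Cq q ⌊(z : ℝ) ^ u⌋₊).card : ℝ) * Real.log z ≤
      ((Ro z ⌊(z : ℝ) ^ u⌋₊).card : ℝ) * Real.log z + 2 * ε * (z : ℝ) ^ u := by
  have hzr : (1 : ℝ) < z := by exact_mod_cast (by omega : 1 < z)
  have hz0 : (0 : ℝ) < z := by linarith
  have hlz : 0 < Real.log z := Real.log_pos hzr
  have hp1 : (1 : ℝ) < p := by exact_mod_cast hp.one_lt
  have hp0 : (0 : ℝ) < p := by linarith
  obtain ⟨n, hn⟩ : ∃ n, n = ⌊(z : ℝ) ^ u⌋₊ := ⟨_, rfl⟩
  rw [← hn]
  have hnle : (n : ℝ) ≤ (z : ℝ) ^ u := by rw [hn]; exact Nat.floor_le (by positivity)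
  have hnge : (z : ℝ) ^ u - 1 ≤ n := by
    have := Nat.lt_floor_add_one ((z : ℝ) ^ u)
    rw [← hn] at this
    linarith
  have hzu : 0 < (z : ℝ) ^ u := by positivity
  -- choose J
  have hex : ∃ J : ℕ, (z : ℝ) ^ (1 / 4 : ℝ) ≤ (p : ℝ) ^ J :=
    ((tendsto_pow_atTop_atTop_of_one_lt hp1).eventually_ge_atTop _).exists
  obtain ⟨J, hJ, hJmin⟩ : ∃ J : ℕ, (z : ℝ) ^ (1 / 4 : ℝ) ≤ (p : ℝ) ^ J ∧
      ∀ j < J, (p : ℝ) ^ j < (z : ℝ) ^ (1 / 4 : ℝ) := by
    classical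
    refine ⟨Nat.find hex, Nat.find_spec hex, fun j hj => ?_⟩
    have := Nat.find_min hex hj
    push Not at this
    exact this
  have hJ1 : 1 ≤ J := by
    by_contra hcon
    have : J = 0 := by omega
    subst this
    rw [pow_zero] at hJ
    have : (1 : ℝ) < (z : ℝ) ^ (1 / 4 : ℝ) := Real.one_lt_rpow hzr (by norm_num)
    linarith
  obtain ⟨J', rfl⟩ : ∃ J', J = J' + 1 := ⟨J - 1, by omega⟩
  have hiter := Cq_iter hp hq n (J' + 1)
  rw [Finset.sum_range_succ'] at hiter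
  simp only [pow_zero, Nat.div_one] at hiter
  have hiter' : ((Cq q n).card : ℝ) ≤ ∑ j ∈ range J', ((Ro z (n / p ^ (j + 1))).card : ℝ) +
      ((Ro z n).card : ℝ) + ((Cq q (n / p ^ (J' + 1))).card : ℝ) := by exact_mod_cast hiter
  have hterm : ∀ j ∈ range J', ((Ro z (n / p ^ (j + 1))).card : ℝ) * Real.log z ≤
      C * (z : ℝ) ^ u * (1 / p) * (1 / (p : ℝ)) ^ j := by
    intro j hj
    rw [mem_range] at hj
    have h1 := hJmin (j + 1) (by omega)
    have hpj : (0 : ℝ) < (p : ℝ) ^ (j + 1) := by positivity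
    have h2 : ((n / p ^ (j + 1) : ℕ) : ℝ) ≤ n / (p : ℝ) ^ (j + 1) := by
      have := @Nat.cast_div_le ℝ _ _ _ n (p ^ (j + 1))
      push_cast at this
      exact this
    have h3 : (n : ℝ) / (p : ℝ) ^ (j + 1) - 1 ≤ ((n / p ^ (j + 1) : ℕ) : ℝ) := by
      have h4 : 0 < p ^ (j + 1) := pow_pos hp.pos _
      have h5 := Nat.lt_div_mul_add h4 (a := n)
      have h7 : (n : ℝ) < (n / p ^ (j + 1) : ℕ) * (p : ℝ) ^ (j + 1) + (p : ℝ) ^ (j + 1) := by
        exact_mod_cast h5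
      rw [sub_le_iff_le_add, div_le_iff₀ hpj]
      nlinarith
    have hlow : (z : ℝ) ^ (3 / 2 : ℝ) ≤ ((n / p ^ (j + 1) : ℕ) : ℝ) := by
      have h8 : (z : ℝ) ^ (7 / 4 : ℝ) - 1 ≤ n / (p : ℝ) ^ (j + 1) := by
        rw [le_div_iff₀ hpj]
        have h9 : (z : ℝ) ^ (7 / 4 : ℝ) * (p : ℝ) ^ (j + 1) ≤ (z : ℝ) ^ u := by
          calc (z : ℝ) ^ (7 / 4 : ℝ) * (p : ℝ) ^ (j + 1) ≤
              (z : ℝ) ^ (7 / 4 : ℝ) * (z : ℝ) ^ (1 / 4 : ℝ) :=
                mul_le_mul_of_nonneg_left h1.le (by positivity)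
            _ = (z : ℝ) ^ (2 : ℝ) := by
                rw [← Real.rpow_add hz0]
                norm_num
            _ ≤ (z : ℝ) ^ u := Real.rpow_le_rpow_of_exponent_le hzr.le hu
        have h10 : (1 : ℝ) ≤ (p : ℝ) ^ (j + 1) := one_le_pow₀ hp1.le
        nlinarith
      linarith
    have hup : ((n / p ^ (j + 1) : ℕ) : ℝ) ≤ (z : ℝ) ^ (N : ℝ) := by
      refine h2.trans ?_
      have h9 : (n : ℝ) / (p : ℝ) ^ (j + 1) ≤ n := by
        apply div_le_self (Nat.cast_nonneg n)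
        exact one_le_pow₀ hp1.le
      exact h9.trans (hnle.trans (Real.rpow_le_rpow_of_exponent_le hzr.le huN))
    refine (hcrude _ hlow hup).trans ?_
    have h11 : C * ((n / p ^ (j + 1) : ℕ) : ℝ) ≤ C * ((z : ℝ) ^ u / (p : ℝ) ^ (j + 1)) := by
      apply mul_le_mul_of_nonneg_left _ hC.le
      exact h2.trans (div_le_div_of_nonneg_right hnle hpj.le)
    refine h11.trans (le_of_eq ?_)
    rw [one_div, inv_pow, pow_succ]
    field_simp
  have hsum : (∑ j ∈ range J', ((Ro z (n / p ^ (j + 1))).card : ℝ)) * Real.log z ≤ ε * (z : ℝ) ^ u := by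
    rw [Finset.sum_mul]
    refine (Finset.sum_le_sum hterm).trans ?_
    rw [← Finset.mul_sum]
    have h1 : 1 / (p : ℝ) < 1 := by
      rw [div_lt_one hp0]
      exact hp1
    have h2 := geom_le (r := 1 / (p : ℝ)) (by positivity) h1 J'
    have h3 : C * (z : ℝ) ^ u * (1 / p) * ∑ j ∈ range J', (1 / (p : ℝ)) ^ j ≤
        C * (z : ℝ) ^ u * (1 / p) * (1 - 1 / (p : ℝ))⁻¹ :=
      mul_le_mul_of_nonneg_left h2 (by positivity)
    refine h3.trans ?_
    have h5 : C * (z : ℝ) ^ u * (1 / p) * (1 - 1 / (p : ℝ))⁻¹ = C * (z : ℝ) ^ u / (p - 1) := by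
      have : (p : ℝ) - 1 ≠ 0 := by linarith
      field_simp
    rw [h5, div_le_iff₀ (by linarith)]
    have h7 : C ≤ ε * (p - 1) := by
      have : C / ε ≤ p - 1 := by linarith
      rw [div_le_iff₀ hε] at this
      linarith
    nlinarith
  have hlast : ((Cq q (n / p ^ (J' + 1))).card : ℝ) * Real.log z ≤ ε * (z : ℝ) ^ u := by
    have h1 : ((Cq q (n / p ^ (J' + 1))).card : ℝ) ≤ ((n / p ^ (J' + 1) : ℕ) : ℝ) := by
      exact_mod_cast card_Cq_le _ _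
    have h2 : ((n / p ^ (J' + 1) : ℕ) : ℝ) ≤ n / (p : ℝ) ^ (J' + 1) := by
      have := @Nat.cast_div_le ℝ _ _ _ n (p ^ (J' + 1))
      push_cast at this
      exact this
    have h3 : (n : ℝ) / (p : ℝ) ^ (J' + 1) ≤ (z : ℝ) ^ u / (z : ℝ) ^ (1 / 4 : ℝ) := by
      apply div_le_div₀ hzu.le hnle (by positivity) hJ
    calc ((Cq q (n / p ^ (J' + 1))).card : ℝ) * Real.log z ≤
        ((z : ℝ) ^ u / (z : ℝ) ^ (1 / 4 : ℝ)) * (ε * (z : ℝ) ^ (1 / 4 : ℝ)) := by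
          apply mul_le_mul (h1.trans (h2.trans h3)) h4 hlz.le (by positivity)
      _ = ε * (z : ℝ) ^ u := by
          have : (z : ℝ) ^ (1 / 4 : ℝ) ≠ 0 := by positivity
          field_simp
  have hfin := mul_le_mul_of_nonneg_right hiter' hlz.le
  rw [add_mul, add_mul] at hfin
  linarith

lemma log_le_rpow_eventually {r ε : ℝ} (hr : 0 < r) (hε : 0 < ε) :
    ∀ᶠ z : ℕ in atTop, Real.log z ≤ ε * (z : ℝ) ^ r := by
  have := (isLittleO_log_rpow_atTop (r := r) hr).bound (c := ε) hε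
  have h6 := tendsto_natCast_atTop_atTop.eventually this
  filter_upwards [h6, eventually_ge_atTop 1] with z hz hz1
  have hzr : (1 : ℝ) ≤ z := by exact_mod_cast hz1
  rw [Real.norm_of_nonneg (Real.log_nonneg hzr), Real.norm_of_nonneg (by positivity)] at hz
  exact hz

/-- increment of `z^u` -/
lemma incr_eventually {u ε : ℝ} (hu : 2 ≤ u) (hε : 0 < ε) :
    ∀ᶠ z : ℕ in atTop, (((z : ℝ) + 1) ^ u - (z : ℝ) ^ u + 1) * Real.log z ≤ ε * (z : ℝ) ^ u := by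
  have h1 := log_le_rpow_eventually (r := 1 / 2) (ε := ε / (2 * (u * Real.exp u) + 2)) (by norm_num)
    (by positivity)
  filter_upwards [h1, eventually_ge_atTop 3] with z hz hz3
  have hzr : (1 : ℝ) < z := by exact_mod_cast (by omega : 1 < z)
  have hz0 : (0 : ℝ) < z := by linarith
  have hlz : 0 < Real.log z := Real.log_pos hzr
  have hzu : 0 < (z : ℝ) ^ u := by positivity
  have h2 : ((z : ℝ) + 1) ^ u ≤ (z : ℝ) ^ u * Real.exp (u / z) := by
    have h3 : (z : ℝ) + 1 = z * (1 + 1 / z) := by field_simp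
    rw [h3, Real.mul_rpow hz0.le (by positivity)]
    apply mul_le_mul_of_nonneg_left _ hzu.le
    have h4 : 1 + 1 / (z : ℝ) ≤ Real.exp (1 / z) := by
      have := Real.add_one_le_exp (1 / (z : ℝ))
      linarith
    calc (1 + 1 / (z : ℝ)) ^ u ≤ (Real.exp (1 / z)) ^ u :=
          Real.rpow_le_rpow (by positivity) h4 (by linarith)
      _ = Real.exp (u / z) := by
          rw [← Real.exp_mul]
          congr 1
          ring
  -- exp(t) ≤ 1 + t exp(t), with t = u/z ≤ u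
  have h5 : Real.exp (u / z) ≤ 1 + u / z * Real.exp u := by
    have h6 : u / z ≤ u := div_le_self (by linarith) hzr.le
    have h7 := Real.add_one_le_exp (-(u / z))
    have h8 : Real.exp (u / z) * (1 - u / z) ≤ 1 := by
      have h9 : Real.exp (u / z) * Real.exp (-(u / z)) = 1 := by
        rw [← Real.exp_add]
        simp
      have := mul_le_mul_of_nonneg_left h7 (Real.exp_pos (u / z)).le
      nlinarith
    have h10 : Real.exp (u / z) ≤ Real.exp u := Real.exp_le_exp.mpr h6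
    have h11 : 0 ≤ u / z := by positivity
    nlinarith
  have h12 : ((z : ℝ) + 1) ^ u - (z : ℝ) ^ u + 1 ≤ (u * Real.exp u + 1) * ((z : ℝ) ^ u / z) := by
    have h13 : (z : ℝ) ^ u * Real.exp (u / z) ≤ (z : ℝ) ^ u * (1 + u / z * Real.exp u) :=
      mul_le_mul_of_nonneg_left h5 hzu.le
    have h14 : (z : ℝ) ^ u * (1 + u / z * Real.exp u) = (z : ℝ) ^ u + u * Real.exp u * ((z : ℝ) ^ u / z) := by
      field_simp
    have h15 : 1 ≤ (z : ℝ) ^ u / z := by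
      rw [le_div_iff₀ hz0, one_mul]
      calc (z : ℝ) = (z : ℝ) ^ (1 : ℝ) := (Real.rpow_one _).symm
        _ ≤ (z : ℝ) ^ u := Real.rpow_le_rpow_of_exponent_le hzr.le (by linarith)
    linarith
  have h16 : (((z : ℝ) + 1) ^ u - (z : ℝ) ^ u + 1) * Real.log z ≤
      (u * Real.exp u + 1) * ((z : ℝ) ^ u / z) * (ε / (2 * (u * Real.exp u) + 2) * (z : ℝ) ^ (1 / 2 : ℝ)) := by
    apply mul_le_mul h12 hz hlz.le
    positivity
  refine h16.trans ?_
  have h17 : (z : ℝ) ^ (1 / 2 : ℝ) ≤ z := by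
    calc (z : ℝ) ^ (1 / 2 : ℝ) ≤ (z : ℝ) ^ (1 : ℝ) :=
          Real.rpow_le_rpow_of_exponent_le hzr.le (by norm_num)
      _ = z := Real.rpow_one _
  have h18 : (u * Real.exp u + 1) * ((z : ℝ) ^ u / z) *
      (ε / (2 * (u * Real.exp u) + 2) * (z : ℝ) ^ (1 / 2 : ℝ)) =
      ε / 2 * (z : ℝ) ^ u * ((z : ℝ) ^ (1 / 2 : ℝ) / z) := by
    have : u * Real.exp u + 1 ≠ 0 := by positivity
    have h19 : 2 * (u * Real.exp u) + 2 = 2 * (u * Real.exp u + 1) := by ring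
    rw [h19]
    field_simp
  rw [h18]
  have h20 : (z : ℝ) ^ (1 / 2 : ℝ) / z ≤ 1 := by
    rw [div_le_one hz0]
    exact h17
  have h21 : 0 ≤ ε / 2 * (z : ℝ) ^ u := by positivity
  nlinarith

theorem rough_q {w : ℝ → ℝ} (hw : IsBuchstab w) {u : ℝ} (hu : 2 ≤ u) {c : ℝ}
    (hc : w u / Real.exp (-Real.eulerMascheroniConstant) < c) :
    ∃ K : ℕ, ∀ᶠ z : ℕ in atTop, ∀ q : ℕ, IsMod K z q → ∀ U : ℕ, (z : ℝ) ^ u ≤ U →
      (U : ℝ) ≤ ((z : ℝ) + 1) ^ u → ((Cq q U).card : ℝ) ≤ c * U * (q.totient / q) := by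
  obtain ⟨N, hN⟩ : ∃ N : ℕ, N = ⌈u⌉₊ := ⟨_, rfl⟩
  have huN : u ≤ N := by rw [hN]; exact Nat.le_ceil u
  have hN2 : 2 ≤ N := by
    have : (2 : ℝ) ≤ N := hu.trans huN
    exact_mod_cast this
  obtain ⟨b, hb⟩ := exists_isB N
  have hbu : b (u - 1) / u = w u := by
    have h1 := hw.eq_b hb N u (by linarith) (by linarith) (by linarith)
    rw [← h1]
    field_simp
  obtain ⟨C, hC, hcr⟩ := card_Ro_crude N hN2
  -- choose ε
  have hcont : Tendsto (fun ε : ℝ => (w u + 4 * ε) / (pp 1 - ε)) (𝓝 0)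
      (𝓝 ((w u + 4 * 0) / (pp 1 - 0))) := by
    apply Tendsto.div
    · exact (tendsto_id.const_mul 4).const_add _
    · exact tendsto_id.const_sub _
    · have := pp_pos (u := 1) one_pos
      linarith
  have hval : (w u + 4 * 0) / (pp 1 - 0) = w u / Real.exp (-Real.eulerMascheroniConstant) := by
    rw [pp_one_eq]
    ring
  rw [hval] at hcont
  have h2 : ∀ᶠ ε : ℝ in 𝓝[>] 0, (w u + 4 * ε) / (pp 1 - ε) < c :=
    (hcont.eventually_lt_const hc).filter_mono nhdsWithin_le_nhds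
  have h3 : ∀ᶠ ε : ℝ in 𝓝[>] 0, ε < pp 1 := by
    have : Set.Ioo (0 : ℝ) (pp 1) ∈ 𝓝[>] (0 : ℝ) := Ioo_mem_nhdsGT (pp_pos one_pos)
    filter_upwards [this] with ε hε
    exact hε.2
  have h4 : ∀ᶠ ε : ℝ in 𝓝[>] 0, 0 < ε := by
    filter_upwards [self_mem_nhdsWithin] with ε hε
    exact hε
  obtain ⟨ε, hε1, hε2, hε0⟩ := (h2.and (h3.and h4)).exists
  refine ⟨⌈C / ε + 1⌉₊, ?_⟩
  have e1 := card_Ro_eventually hb hu (by linarith) (c := w u + ε) (by rw [hbu]; linarith)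
  have e2 := Vz_eventually (c := pp 1 - ε) (by linarith)
  have e4 := log_le_rpow_eventually (r := 1 / 4) (by norm_num) hε0
  have e5 := incr_eventually hu hε0
  have e6 : ∀ᶠ z : ℕ in atTop, (z : ℝ) ^ (3 / 2 : ℝ) + 2 ≤ (z : ℝ) ^ (7 / 4 : ℝ) := by
    have h5 : Tendsto (fun z : ℕ => (z : ℝ) ^ (1 / 4 : ℝ)) atTop atTop :=
      (tendsto_rpow_atTop (by norm_num)).comp tendsto_natCast_atTop_atTop
    filter_upwards [h5.eventually_ge_atTop 3, eventually_ge_atTop 1] with z hz hz1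
    have hzr : (1 : ℝ) ≤ z := by exact_mod_cast hz1
    have h6 : (z : ℝ) ^ (7 / 4 : ℝ) = (z : ℝ) ^ (3 / 2 : ℝ) * (z : ℝ) ^ (1 / 4 : ℝ) := by
      rw [← Real.rpow_add (by linarith)]
      norm_num
    have h7 : (1 : ℝ) ≤ (z : ℝ) ^ (3 / 2 : ℝ) := Real.one_le_rpow hzr (by norm_num)
    rw [h6]
    nlinarith
  filter_upwards [e1, e2, e4, e5, e6, hcr, eventually_ge_atTop 3] with z k1 k2 k4 k5 k6 k7 k8
    q hq U hU1 hU2
  have hzr : (1 : ℝ) < z := by exact_mod_cast (by omega : 1 < z)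
  have hz0 : (0 : ℝ) < z := by linarith
  have hlz : 0 < Real.log z := Real.log_pos hzr
  have hzu : 0 < (z : ℝ) ^ u := by positivity
  obtain ⟨n, hn⟩ : ∃ n, n = ⌊(z : ℝ) ^ u⌋₊ := ⟨_, rfl⟩
  have hnU : n ≤ U := by
    have : (n : ℝ) ≤ U := by
      rw [hn]
      exact (Nat.floor_le hzu.le).trans hU1
    exact_mod_cast this
  have hnge : (z : ℝ) ^ u - 1 ≤ n := by
    have := Nat.lt_floor_add_one ((z : ℝ) ^ u)
    rw [← hn] at this
    linarith
  have hcq : ((Cq q n).card : ℝ) * Real.log z ≤ (w u + 3 * ε) * (z : ℝ) ^ u := by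
    rcases hq with hq | ⟨p, hp, hpK, hpz, hq⟩
    · rw [hq, Cq_primorial, hn]
      nlinarith
    · have h10 := Cq_card_le (N := N) hC hε0 hu huN hp (by
        have : (⌈C / ε + 1⌉₊ : ℝ) < p := by exact_mod_cast hpK
        exact (Nat.le_ceil _).trans this.le) hq k8 k7 k6 k4
      rw [hn]
      nlinarith
  have hdiff : ((Cq q U).card : ℝ) ≤ (Cq q n).card + ((U : ℝ) - n) := by
    have h10 := card_Cq_diff q n U
    have h11 : ((Cq q U).card : ℝ) ≤ (Cq q n).card + ((U - n : ℕ) : ℝ) := by exact_mod_cast h10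
    rwa [Nat.cast_sub hnU] at h11
  have hdl : ((U : ℝ) - n) * Real.log z ≤ ε * (z : ℝ) ^ u := by
    refine le_trans (mul_le_mul_of_nonneg_right ?_ hlz.le) k5
    linarith
  have htot : ((Cq q U).card : ℝ) * Real.log z ≤ (w u + 4 * ε) * (z : ℝ) ^ u := by
    have := mul_le_mul_of_nonneg_right hdiff hlz.le
    nlinarith
  -- compare with the Mertens product
  have hc2 : 0 < pp 1 - ε := by linarith
  have hq0 : (0 : ℝ) < q := by exact_mod_cast hq.pos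
  have htt : Vz z ≤ (q.totient : ℝ) / q := by
    rw [le_div_iff₀ hq0]
    exact totient_ge hq.dvd hq.pos
  have hwnn : 0 ≤ w u + 4 * ε := by
    by_contra hcon
    push Not at hcon
    have h10 : (w u + 4 * ε) * (z : ℝ) ^ u < 0 := mul_neg_of_neg_of_pos hcon hzu
    have h11 : 0 ≤ ((Cq q U).card : ℝ) * Real.log z := by positivity
    linarith
  have h12 : ((Cq q U).card : ℝ) ≤ (w u + 4 * ε) / (pp 1 - ε) * (z : ℝ) ^ u * Vz z := by
    have h13 : ((Cq q U).card : ℝ) * Real.log z * (pp 1 - ε) ≤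
        (w u + 4 * ε) * (z : ℝ) ^ u * (Vz z * Real.log z) :=
      mul_le_mul htot k2 hc2.le (by positivity)
    have h14 : ((Cq q U).card : ℝ) * (pp 1 - ε) ≤ (w u + 4 * ε) * (z : ℝ) ^ u * Vz z := by
      have h15 : (((Cq q U).card : ℝ) * (pp 1 - ε)) * Real.log z ≤
          ((w u + 4 * ε) * (z : ℝ) ^ u * Vz z) * Real.log z := by linarith
      exact le_of_mul_le_mul_right h15 hlz
    rw [← le_div_iff₀ hc2] at h14
    refine h14.trans (le_of_eq ?_)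
    ring
  have hVnn : 0 ≤ Vz z := by
    unfold Vz
    apply Finset.prod_nonneg
    intro p hp
    rw [mem_filter] at hp
    have : (1 : ℝ) ≤ p := by exact_mod_cast hp.2.one_lt.le
    rw [sub_nonneg, div_le_one (by linarith)]
    exact this
  have hcnn : 0 ≤ (w u + 4 * ε) / (pp 1 - ε) := div_nonneg hwnn hc2.le
  calc ((Cq q U).card : ℝ) ≤ (w u + 4 * ε) / (pp 1 - ε) * (z : ℝ) ^ u * Vz z := h12
    _ ≤ c * U * (q.totient / q) := by
        apply mul_le_mul _ htt hVnn (by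
          apply mul_nonneg (hcnn.trans hε1.le) (Nat.cast_nonneg U))
        exact mul_le_mul hε1.le hU1 hzu.le (hcnn.trans hε1.le)

end Pool.Agent.Work.MP_b0c12c_nt
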