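import Mathlib
import Pool.Agent.Work.MP_b0c12c_nt.RoughR
import Pool.Agent.Work.MP_b0c12c_nt.Interface
import Pool.Agent.Work.MP_b0c12c_nt.Interface2

/-! Maier rows: windows around multiples of `q` contain few primes. -/

namespace Pool.Agent.Work.MP_b0c12c_nt

open MeasureTheory Filter Finset Topology ArithmeticFunction

/-- counting primes in windows around multiples of `q` by residue classes -/
lemma rows_count {q R U : ℕ} (hq : 2 ≤ q) (hUq : 2 * U < q)
    (hcop : ∀ p : ℕ, p.Prime → R * q < p → p.Coprime q) {E : ℝ}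
    (hE : ∀ a : ℕ, a.Coprime q →
      (((Ioc (R * q) (2 * (R * q))).filter (fun p => p.Prime ∧ p ≡ a [MOD q])).card : ℝ) ≤ E)
    (hE0 : 0 ≤ E) :
    ∑ t ∈ (Ioo R (2 * R)).image (fun r => r * q),
      (((Icc (t - U) (t + U)).filter Nat.Prime).card : ℝ) ≤ 2 * (Cq q U).card * E := by
  have hq0 : 0 < q := by omega
  have hinj : Function.Injective (fun r : ℕ => r * q) := fun a b h => Nat.eq_of_mul_eq_mul_right hq0 h
  rw [Finset.sum_image (fun a _ b _ h => hinj h)]
  -- the residues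
  obtain ⟨A1, hA1⟩ : ∃ A1 : Finset ℕ, A1 = (Cq q U) ∪ (Cq q U).image (fun a => q - a) := ⟨_, rfl⟩
  have hA1card : (A1.card : ℝ) ≤ 2 * (Cq q U).card := by
    have h1 : A1.card ≤ (Cq q U).card + (Cq q U).card := by
      rw [hA1]
      exact (Finset.card_union_le _ _).trans (Nat.add_le_add_left Finset.card_image_le _)
    have h2 : (A1.card : ℝ) ≤ ((Cq q U).card + (Cq q U).card : ℕ) := by exact_mod_cast h1
    push_cast at h2
    linarith
  have hA1cop : ∀ a ∈ A1, a.Coprime q := by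
    intro a ha
    rw [hA1, mem_union, mem_image] at ha
    rcases ha with ha | ⟨b, hb, rfl⟩
    · unfold Cq at ha
      rw [mem_filter] at ha
      exact ha.2
    · unfold Cq at hb
      rw [mem_filter, mem_Icc] at hb
      have hbq : b ≤ q := by omega
      exact (Nat.coprime_self_sub_left hbq).mpr hb.2
  -- the big set of pairs
  have hsub : (Ioo R (2 * R)).biUnion (fun r => (Icc (r * q - U) (r * q + U)).filter Nat.Prime) ⊆
      A1.biUnion (fun a => (Ioc (R * q) (2 * (R * q))).filter (fun p => p.Prime ∧ p ≡ a [MOD q])) := by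
    intro p hp
    rw [mem_biUnion] at hp
    obtain ⟨r, hr, hp⟩ := hp
    rw [mem_filter, mem_Icc] at hp
    rw [mem_Ioo] at hr
    obtain ⟨⟨hp1, hp2⟩, hpp⟩ := hp
    have h1 : (R + 1) * q ≤ r * q := Nat.mul_le_mul_right q hr.1
    have h2 : (r + 1) * q ≤ (2 * R) * q := Nat.mul_le_mul_right q hr.2
    have h3 : (R + 1) * q = R * q + q := by ring
    have h4 : (r + 1) * q = r * q + q := by ring
    have h5 : 2 * R * q = 2 * (R * q) := by ring
    have hlow : R * q < p := by omega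
    have hup : p ≤ 2 * (R * q) := by omega
    have hc := hcop p hpp hlow
    rw [mem_biUnion]
    rcases le_or_gt (r * q) p with h | h
    · -- p = r q + a
      refine ⟨p - r * q, ?_, ?_⟩
      · rw [hA1, mem_union]
        left
        unfold Cq
        rw [mem_filter, mem_Icc]
        have hcp : (p - r * q).Coprime q := by
          have h6 : p = (p - r * q) + r * q := by omega
          rw [h6] at hc
          rwa [Nat.coprime_add_mul_right_left] at hc
        refine ⟨⟨?_, by omega⟩, hcp⟩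
        by_contra hcon
        have h7 : p - r * q = 0 := by omega
        rw [h7, Nat.coprime_zero_left] at hcp
        omega
      · rw [mem_filter, mem_Ioc]
        refine ⟨⟨hlow, hup⟩, hpp, ?_⟩
        have h6 : p = (p - r * q) + r * q := by omega
        have h8 : (p - r * q) + r * q ≡ (p - r * q) + 0 [MOD q] :=
          Nat.ModEq.add_left _ ((Nat.modEq_zero_iff_dvd).mpr (Dvd.intro_left r rfl))
        rw [← h6, add_zero] at h8
        exact h8
    · -- p = r q - a
      refine ⟨q - (r * q - p), ?_, ?_⟩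
      · rw [hA1, mem_union, mem_image]
        right
        refine ⟨r * q - p, ?_, rfl⟩
        unfold Cq
        rw [mem_filter, mem_Icc]
        refine ⟨⟨by omega, by omega⟩, ?_⟩
        have h6 : p + (r * q - p) = r * q := by omega
        apply Nat.coprime_of_dvd
        intro l hl hd1 hd2
        have hd3 : l ∣ p := by
          have : l ∣ p + (r * q - p) := by
            rw [h6]
            exact Dvd.dvd.mul_left hd2 r
          exact (Nat.dvd_add_left hd1).mp this
        have hd4 := Nat.dvd_gcd hd3 hd2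
        rw [hc] at hd4
        exact hl.one_lt.ne' (Nat.dvd_one.mp hd4)
      · rw [mem_filter, mem_Ioc]
        refine ⟨⟨hlow, hup⟩, hpp, ?_⟩
        have hr1 : 1 ≤ r := by omega
        have h6 : p = (q - (r * q - p)) + (r - 1) * q := by
          have h7 : (r - 1) * q = r * q - q := by rw [Nat.sub_mul, one_mul]
          have h8 : q ≤ r * q := Nat.le_mul_of_pos_left q hr1
          omega
        have h8 : (q - (r * q - p)) + (r - 1) * q ≡ (q - (r * q - p)) + 0 [MOD q] :=
          Nat.ModEq.add_left _ ((Nat.modEq_zero_iff_dvd).mpr (Dvd.intro_left (r - 1) rfl))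
        rw [← h6, add_zero] at h8
        exact h8
  have hdisj : ((Ioo R (2 * R) : Finset ℕ) : Set ℕ).PairwiseDisjoint
      (fun r => (Icc (r * q - U) (r * q + U)).filter Nat.Prime) := by
    intro r _ s _ hrs
    rw [Function.onFun, Finset.disjoint_left]
    intro p hp hp2
    rw [mem_filter, mem_Icc] at hp hp2
    rcases lt_or_gt_of_ne hrs with h | h
    · have h1 : (r + 1) * q ≤ s * q := Nat.mul_le_mul_right q h
      have h2 : (r + 1) * q = r * q + q := by ring
      omega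
    · have h1 : (s + 1) * q ≤ r * q := Nat.mul_le_mul_right q h
      have h2 : (s + 1) * q = s * q + q := by ring
      omega
  have hcard : ∑ r ∈ Ioo R (2 * R), ((Icc (r * q - U) (r * q + U)).filter Nat.Prime).card ≤
      ∑ a ∈ A1, ((Ioc (R * q) (2 * (R * q))).filter (fun p => p.Prime ∧ p ≡ a [MOD q])).card := by
    rw [← Finset.card_biUnion hdisj]
    exact (Finset.card_le_card hsub).trans Finset.card_biUnion_le
  have hcard' : ∑ r ∈ Ioo R (2 * R), (((Icc (r * q - U) (r * q + U)).filter Nat.Prime).card : ℝ) ≤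
      ∑ a ∈ A1, (((Ioc (R * q) (2 * (R * q))).filter (fun p => p.Prime ∧ p ≡ a [MOD q])).card : ℝ) := by
    exact_mod_cast hcard
  refine hcard'.trans ?_
  calc ∑ a ∈ A1, (((Ioc (R * q) (2 * (R * q))).filter (fun p => p.Prime ∧ p ≡ a [MOD q])).card : ℝ) ≤
      ∑ _a ∈ A1, E := Finset.sum_le_sum fun a ha => hE a (hA1cop a ha)
    _ = A1.card * E := by rw [Finset.sum_const, nsmul_eq_mul]
    _ ≤ _ := mul_le_mul_of_nonneg_right hA1card hE0

/-- lower bound for the primorial -/
lemma primorial_ge_eventually : ∀ᶠ z : ℕ in atTop, Real.exp (z / 2) ≤ (primorial z : ℝ) := by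
  have h := PNT70.theta_tendsto.comp (tendsto_natCast_atTop_atTop (R := ℝ))
  have h1 := h.eventually_const_le (show (1 / 2 : ℝ) < 1 by norm_num)
  filter_upwards [h1, eventually_ge_atTop 1] with z hz hz1
  have hz0 : (0 : ℝ) < z := by exact_mod_cast hz1
  simp only [Function.comp_apply] at hz
  rw [le_div_iff₀ hz0] at hz
  have h2 := Chebyshev.theta_eq_log_primorial (z : ℝ)
  rw [Nat.floor_natCast] at h2
  rw [h2] at hz
  have h3 : (0 : ℝ) < primorial z := by exact_mod_cast primorial_pos z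
  rw [← Real.exp_log h3]
  apply Real.exp_le_exp.mpr
  linarith

/-- `z` as a function of `U` -/
noncomputable def zU (u : ℝ) (U : ℕ) : ℕ := ⌊(U : ℝ) ^ (1 / u)⌋₊

lemma zU_le {u : ℝ} (hu : 0 < u) (U : ℕ) : (zU u U : ℝ) ^ u ≤ U := by
  have h1 : (zU u U : ℝ) ≤ (U : ℝ) ^ (1 / u) := Nat.floor_le (by positivity)
  calc (zU u U : ℝ) ^ u ≤ ((U : ℝ) ^ (1 / u)) ^ u := Real.rpow_le_rpow (by positivity) h1 hu.le
    _ = U := by
        rw [← Real.rpow_mul (Nat.cast_nonneg U)]
        rw [one_div, inv_mul_cancel₀ hu.ne', Real.rpow_one]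

lemma le_zU {u : ℝ} (hu : 0 < u) (U : ℕ) : (U : ℝ) ≤ ((zU u U : ℝ) + 1) ^ u := by
  have h1 : (U : ℝ) ^ (1 / u) ≤ (zU u U : ℝ) + 1 := (Nat.lt_floor_add_one _).le
  calc (U : ℝ) = ((U : ℝ) ^ (1 / u)) ^ u := by
        rw [← Real.rpow_mul (Nat.cast_nonneg U)]
        rw [one_div, inv_mul_cancel₀ hu.ne', Real.rpow_one]
    _ ≤ _ := Real.rpow_le_rpow (by positivity) h1 hu.le

lemma zU_large {u : ℝ} (hu : 0 < u) (z0 : ℕ) : ∃ x0 : ℝ, ∀ x : ℝ, x0 ≤ x → ∀ U : ℕ,
    Real.log x ≤ U → z0 ≤ zU u U := by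
  refine ⟨Real.exp ((z0 : ℝ) ^ u), fun x hx U hU => ?_⟩
  have h1 : (z0 : ℝ) ^ u ≤ Real.log x := by
    rw [Real.le_log_iff_exp_le (lt_of_lt_of_le (Real.exp_pos _) hx)]
    exact hx
  have h2 : (z0 : ℝ) ^ u ≤ U := h1.trans hU
  unfold zU
  rw [Nat.le_floor_iff (by positivity)]
  calc (z0 : ℝ) = ((z0 : ℝ) ^ u) ^ (1 / u) := by
        rw [← Real.rpow_mul (Nat.cast_nonneg z0)]
        rw [one_div, mul_inv_cancel₀ hu.ne', Real.rpow_one]
    _ ≤ (U : ℝ) ^ (1 / u) := Real.rpow_le_rpow (by positivity) h2 (by positivity)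

theorem maier_rows (hS : Itf2.UniformPntStrong) {w : ℝ → ℝ} (hw : IsBuchstab w) {A u : ℝ}
    (hA : 0 < A) (hAu : A < u) (hu : 2 ≤ u) {kap : ℝ} (hkap : 0 < kap)
    (hk : w u / Real.exp (-Real.eulerMascheroniConstant) < kap) :
    ∀ η : ℝ, 0 < η → ∃ x0 : ℝ, ∀ x : ℝ, x0 ≤ x →
      ∀ U : ℕ, Real.log x ≤ U → (U : ℝ) ≤ Real.log x ^ A → Itf.Rows kap η x U := by
  intro η hη
  have hu0 : 0 < u := by linarith
  -- constants
  obtain ⟨c, hc0, hc1, hc2⟩ : ∃ c : ℝ, 0 < c ∧
      w u / Real.exp (-Real.eulerMascheroniConstant) < c ∧ c < kap := by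
    refine ⟨(max (w u / Real.exp (-Real.eulerMascheroniConstant)) 0 + kap) / 2, ?_, ?_, ?_⟩
    · have := le_max_right (w u / Real.exp (-Real.eulerMascheroniConstant)) 0
      linarith
    · have := le_max_left (w u / Real.exp (-Real.eulerMascheroniConstant)) 0
      linarith
    · have : max (w u / Real.exp (-Real.eulerMascheroniConstant)) 0 < kap := max_lt hk hkap
      linarith
  obtain ⟨ε, hε0, hε1, hε2⟩ : ∃ ε : ℝ, 0 < ε ∧ ε ≤ 1 ∧ c * (1 + ε) ^ 2 ≤ kap := by
    have h1 : 0 < kap / c - 1 := by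
      rw [sub_pos, lt_div_iff₀ hc0]
      linarith
    refine ⟨min 1 ((kap / c - 1) / 3), lt_min one_pos (by linarith), min_le_left _ _, ?_⟩
    obtain ⟨e, he⟩ : ∃ e, e = min 1 ((kap / c - 1) / 3) := ⟨_, rfl⟩
    rw [← he]
    have h2 : e ≤ 1 := by rw [he]; exact min_le_left _ _
    have h3 : e ≤ (kap / c - 1) / 3 := by rw [he]; exact min_le_right _ _
    have h4 : 0 < e := by rw [he]; exact lt_min one_pos (by linarith)
    have h5 : (1 + e) ^ 2 ≤ 1 + 3 * e := by nlinarith
    calc c * (1 + e) ^ 2 ≤ c * (1 + 3 * e) := mul_le_mul_of_nonneg_left h5 hc0.le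
      _ ≤ c * (kap / c) := mul_le_mul_of_nonneg_left (by linarith) hc0.le
      _ = kap := by field_simp
  obtain ⟨K, hK⟩ := rough_q hw hu hc1
  obtain ⟨κ, hκ⟩ : ∃ κ, κ = u / A - 1 := ⟨_, rfl⟩
  have hκ0 : 0 < κ := by
    rw [hκ, sub_pos, lt_div_iff₀ hA]
    linarith
  obtain ⟨z1, hz1⟩ := hS κ hκ0 (u + 1) ε hε0 K
  -- eventual conditions on z
  have hlog : Tendsto (fun z : ℕ => Real.log z) atTop atTop :=
    Real.tendsto_log_atTop.comp tendsto_natCast_atTop_atTop
  have ev1 : ∀ᶠ z : ℕ in atTop, 2 * (z * ((z : ℝ) + 1) ^ u) < Real.exp (z / 2) := by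
    have h1 : Tendsto (fun x : ℝ => x ^ (u + 2) * Real.exp (-(1 / 2) * x)) atTop (𝓝 0) :=
      tendsto_rpow_mul_exp_neg_mul_atTop_nhds_zero (u + 2) (1 / 2) (by norm_num)
    have h2 := (h1.comp (tendsto_natCast_atTop_atTop (R := ℝ))).eventually_lt_const
      (show (0 : ℝ) < 1 / (2 * 2 ^ u) by positivity)
    filter_upwards [h2, eventually_ge_atTop 2] with z h3 h4
    simp only [Function.comp_apply] at h3
    have hz2 : (2 : ℝ) ≤ z := by exact_mod_cast h4
    have hz0 : (0 : ℝ) < z := by linarith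
    have h5 : ((z : ℝ) + 1) ^ u ≤ 2 ^ u * (z : ℝ) ^ u := by
      rw [← Real.mul_rpow (by norm_num) hz0.le]
      apply Real.rpow_le_rpow (by positivity) (by linarith) hu0.le
    have h6 : Real.exp (-(1 / 2) * (z : ℝ)) = (Real.exp (z / 2))⁻¹ := by
      rw [← Real.exp_neg]
      congr 1
      ring
    rw [h6, ← div_eq_mul_inv, div_lt_iff₀ (Real.exp_pos _)] at h3
    have h7 : (z : ℝ) ^ (u + 2) = (z : ℝ) ^ u * z * z := by
      rw [show u + 2 = u + 1 + 1 by ring, Real.rpow_add_one hz0.ne', Real.rpow_add_one hz0.ne']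
    rw [h7] at h3
    have h8 : (0 : ℝ) < (z : ℝ) ^ u := by positivity
    have h9 : (0 : ℝ) < (2 : ℝ) ^ u := by positivity
    have h10 : (z : ℝ) ^ u * z * z * (2 * 2 ^ u) < Real.exp (z / 2) := by
      have h11 := mul_lt_mul_of_pos_right h3 (show (0 : ℝ) < 2 * 2 ^ u by positivity)
      have h12 : 1 / (2 * (2 : ℝ) ^ u) * Real.exp ((z : ℝ) / 2) * (2 * 2 ^ u) = Real.exp (z / 2) := by
        field_simp
      linarith
    calc 2 * (z * ((z : ℝ) + 1) ^ u) ≤ 2 * (z * (2 ^ u * (z : ℝ) ^ u)) := by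
          apply mul_le_mul_of_nonneg_left _ (by norm_num)
          exact mul_le_mul_of_nonneg_left h5 hz0.le
      _ ≤ (z : ℝ) ^ u * z * z * (2 * 2 ^ u) := by
          have : (1 : ℝ) ≤ z := by linarith
          have h13 : 0 < (z : ℝ) ^ u * z * (2 * 2 ^ u) := by positivity
          nlinarith
      _ < _ := h10
  have ev2 : ∀ᶠ z : ℕ in atTop, (2 : ℝ) ^ (u + 1) ≤ z :=
    tendsto_natCast_atTop_atTop.eventually_ge_atTop _
  obtain ⟨z2, hz2⟩ := eventually_atTop.mp (((hK.and ev1).and (ev2.and primorial_ge_eventually)).and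
    (eventually_ge_atTop (max z1 3)))
  obtain ⟨x1, hx1⟩ := zU_large hu0 z2
  -- eventual conditions on x
  have evx : ∀ᶠ x : ℝ in atTop, Real.log 4 * Real.log x ^ (A / u) + Real.log 4 ≤
      min (η / 2) (1 / 2) * Real.log x := by
    have hAu1 : A / u < 1 := by
      rw [div_lt_one hu0]
      exact hAu
    have h1 : Tendsto (fun y : ℝ => (Real.log 4 * y ^ (A / u) + Real.log 4) / y) atTop (𝓝 0) := by
      have h2 : Tendsto (fun y : ℝ => y ^ (A / u - 1)) atTop (𝓝 0) := by
        have := tendsto_rpow_neg_atTop (y := 1 - A / u) (by linarith)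
        simpa using this
      have h3 : Tendsto (fun y : ℝ => Real.log 4 / y) atTop (𝓝 0) := tendsto_id.const_div_atTop _
      have h4 := (h2.const_mul (Real.log 4)).add h3
      simp only [mul_zero, add_zero] at h4
      refine h4.congr' ?_
      filter_upwards [eventually_gt_atTop 0] with y hy
      rw [Real.rpow_sub_one hy.ne']
      field_simp
    have h5 := (h1.comp Real.tendsto_log_atTop).eventually_le_const
      (show (0 : ℝ) < min (η / 2) (1 / 2) by positivity)
    filter_upwards [h5, Real.tendsto_log_atTop.eventually_gt_atTop 0] with x h6 h7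
    simp only [Function.comp_apply] at h6
    rwa [div_le_iff₀ h7] at h6
  have evx2 : ∀ᶠ x : ℝ in atTop, x ^ (1 - η) * 2 ≤ x ^ (1 - η / 2) := by
    have h1 : Tendsto (fun x : ℝ => x ^ (η / 2)) atTop atTop := tendsto_rpow_atTop (by linarith)
    filter_upwards [h1.eventually_ge_atTop 2, eventually_gt_atTop 0] with x h2 h3
    have h4 : x ^ (1 - η / 2) = x ^ (1 - η) * x ^ (η / 2) := by
      rw [← Real.rpow_add h3]
      congr 1
      ring
    rw [h4]
    exact mul_le_mul_of_nonneg_left h2 (by positivity)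
  have evx3 : ∀ᶠ x : ℝ in atTop, (2 + 2 / ε) ≤ x ^ (1 / 2 : ℝ) / 2 := by
    have h1 : Tendsto (fun x : ℝ => x ^ (1 / 2 : ℝ)) atTop atTop := tendsto_rpow_atTop (by norm_num)
    filter_upwards [h1.eventually_ge_atTop (2 * (2 + 2 / ε))] with x h2
    linarith
  obtain ⟨x2, hx2⟩ := eventually_atTop.mp ((evx.and evx2).and evx3)
  refine ⟨max (max x1 x2) (Real.exp 1), fun x hx U hU1 hU2 => ?_⟩
  have hxx1 : x1 ≤ x := (le_max_left x1 x2).trans ((le_max_left _ _).trans hx)
  have hxx2 : x2 ≤ x := (le_max_right x1 x2).trans ((le_max_left _ _).trans hx)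
  have hxe : Real.exp 1 ≤ x := (le_max_right _ _).trans hx
  have hx0 : 0 < x := lt_of_lt_of_le (Real.exp_pos 1) hxe
  have hlx : 1 ≤ Real.log x := by
    rw [Real.le_log_iff_exp_le hx0]
    exact hxe
  have hxge1 : 1 ≤ x := by
    have := Real.add_one_le_exp (1 : ℝ)
    linarith
  obtain ⟨z, hz⟩ : ∃ z, z = zU u U := ⟨_, rfl⟩
  have hzz2 : z2 ≤ z := by rw [hz]; exact hx1 x hxx1 U hU1
  obtain ⟨⟨⟨hKz, hev1⟩, ⟨hev2, hprim⟩⟩, hmax⟩ := hz2 z hzz2
  obtain ⟨⟨hevx, hevx2⟩, hevx3⟩ := hx2 x hxx2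
  have hzz1 : z1 ≤ z := (le_max_left _ _).trans hmax
  have hz3 : 3 ≤ z := (le_max_right _ _).trans hmax
  have hzr : (3 : ℝ) ≤ z := by exact_mod_cast hz3
  have hz0 : (0 : ℝ) < z := by linarith
  have hzU1 : (z : ℝ) ^ u ≤ U := by rw [hz]; exact zU_le hu0 U
  have hzU2 : (U : ℝ) ≤ ((z : ℝ) + 1) ^ u := by rw [hz]; exact le_zU hu0 U
  obtain ⟨q, hq, hqS⟩ := hz1 z hzz1
  have hqM : IsMod K z q := hq
  have hq0 : 0 < q := hqM.pos
  have hqr : (0 : ℝ) < q := by exact_mod_cast hq0
  -- size of q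
  have hqlow : Real.exp (z / 2) / z ≤ q := by
    rcases hq with h | ⟨p, hp, _, hpz, h⟩
    · rw [h]
      refine le_trans ?_ hprim
      apply div_le_self (Real.exp_pos _).le (by linarith)
    · rw [div_le_iff₀ hz0]
      have h1 : (q : ℝ) * p = primorial z := by exact_mod_cast h
      have h2 : (p : ℝ) ≤ z := by exact_mod_cast hpz
      calc Real.exp (z / 2) ≤ (primorial z : ℝ) := hprim
        _ = q * p := h1.symm
        _ ≤ q * z := mul_le_mul_of_nonneg_left h2 hqr.le
  have hUq : 2 * U < q := by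
    have h1 : (2 : ℝ) * U < q := by
      calc (2 : ℝ) * U ≤ 2 * ((z : ℝ) + 1) ^ u := by linarith
        _ < Real.exp (z / 2) / z := by
            rw [lt_div_iff₀ hz0]
            linarith
        _ ≤ q := hqlow
    exact_mod_cast h1
  have hqup : (q : ℝ) ≤ 4 ^ z := by
    have h1 : q ≤ primorial z := Nat.le_of_dvd (primorial_pos z) hqM.dvd
    have h2 := primorial_le_four_pow z
    exact_mod_cast h1.trans h2
  -- z ≤ (log x)^(A/u)
  have hzx : (z : ℝ) ≤ Real.log x ^ (A / u) := by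
    have h1 : (z : ℝ) ^ u ≤ Real.log x ^ A := hzU1.trans hU2
    calc (z : ℝ) = ((z : ℝ) ^ u) ^ (1 / u) := by
          rw [← Real.rpow_mul hz0.le, one_div, mul_inv_cancel₀ hu0.ne', Real.rpow_one]
      _ ≤ (Real.log x ^ A) ^ (1 / u) := Real.rpow_le_rpow (by positivity) h1 (by positivity)
      _ = Real.log x ^ (A / u) := by
          rw [← Real.rpow_mul (by linarith)]
          congr 1
          ring
  have hq4 : 4 * (q : ℝ) ≤ x ^ (min (η / 2) (1 / 2)) := by
    have h0 : Real.exp (Real.log 4 * z) = 4 ^ z := by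
      rw [mul_comm, Real.exp_nat_mul, Real.exp_log (by norm_num)]
    have h1 : 4 * (q : ℝ) ≤ Real.exp (Real.log 4 * z + Real.log 4) := by
      rw [Real.exp_add, h0, Real.exp_log (by norm_num)]
      linarith
    refine h1.trans ?_
    rw [Real.rpow_def_of_pos hx0]
    apply Real.exp_le_exp.mpr
    have h2 : Real.log 4 * z ≤ Real.log 4 * Real.log x ^ (A / u) :=
      mul_le_mul_of_nonneg_left hzx (Real.log_nonneg (by norm_num))
    linarith
  have hm1 : min (η / 2) (1 / 2) ≤ η / 2 := min_le_left _ _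
  have hm2 : min (η / 2) (1 / 2) ≤ 1 / 2 := min_le_right _ _
  have hxq : 4 * x ^ (1 - min (η / 2) (1 / 2)) ≤ x / q := by
    rw [le_div_iff₀ hqr]
    calc 4 * x ^ (1 - min (η / 2) (1 / 2)) * q = (4 * q) * x ^ (1 - min (η / 2) (1 / 2)) := by ring
      _ ≤ x ^ (min (η / 2) (1 / 2)) * x ^ (1 - min (η / 2) (1 / 2)) :=
          mul_le_mul_of_nonneg_right hq4 (by positivity)
      _ = x := by
          rw [← Real.rpow_add hx0]
          simp
  have hxq1 : x ^ (1 / 2 : ℝ) ≤ x ^ (1 - min (η / 2) (1 / 2)) :=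
    Real.rpow_le_rpow_of_exponent_le hxge1 (by linarith)
  have hxq2 : x ^ (1 - η / 2) ≤ x ^ (1 - min (η / 2) (1 / 2)) :=
    Real.rpow_le_rpow_of_exponent_le hxge1 (by linarith)
  have hx12 : 1 ≤ x ^ (1 / 2 : ℝ) := Real.one_le_rpow hxge1 (by norm_num)
  have hqx : 4 * (q : ℝ) ≤ x := by
    refine hq4.trans ?_
    calc x ^ (min (η / 2) (1 / 2)) ≤ x ^ (1 : ℝ) :=
          Real.rpow_le_rpow_of_exponent_le hxge1 (by linarith)
      _ = x := Real.rpow_one x
  obtain ⟨R, hR⟩ : ∃ R, R = ⌈x / q⌉₊ := ⟨_, rfl⟩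
  have hRge : x / q ≤ R := by rw [hR]; exact Nat.le_ceil _
  have hRlt : (R : ℝ) < x / q + 1 := by rw [hR]; exact Nat.ceil_lt_add_one (by positivity)
  have hXge : x ≤ (R : ℝ) * q := by rwa [div_le_iff₀ hqr] at hRge
  have hXle : (R : ℝ) * q ≤ x + q := by
    have h1 := mul_le_mul_of_nonneg_right hRlt.le hqr.le
    have h2 : (x / q + 1) * (q : ℝ) = x + q := by field_simp
    linarith
  have hRbig : 1 + 1 / ε ≤ R := by
    have h1 : 4 * x ^ (1 / 2 : ℝ) ≤ R := by linarith
    have h2 : 0 < 1 / ε := by positivity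
    have h3 : 2 / ε = 2 * (1 / ε) := by ring
    rw [h3] at hevx3
    linarith
  have hR1 : 1 ≤ R := by
    have : (1 : ℝ) ≤ R := by
      have : 0 < 1 / ε := by positivity
      linarith
    exact_mod_cast this
  have hinj : Function.Injective (fun r : ℕ => r * q) := fun a b h => Nat.eq_of_mul_eq_mul_right hq0 h
  have hTcard : ((((Ioo R (2 * R)).image (fun r => r * q)).card : ℕ) : ℝ) = (R : ℝ) - 1 := by
    rw [Finset.card_image_of_injective _ hinj, Nat.card_Ioo]
    have : 2 * R - R - 1 = R - 1 := by omega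
    rw [this, Nat.cast_sub hR1]
    simp
  have hlX : Real.log x ≤ Real.log ((R : ℝ) * q) := Real.log_le_log hx0 hXge
  have hc1' : (z : ℝ) ^ (1 + κ) ≤ Real.log ((R : ℝ) * q) := by
    refine le_trans ?_ hlX
    have h1 : (z : ℝ) ^ u ≤ Real.log x ^ A := hzU1.trans hU2
    calc (z : ℝ) ^ (1 + κ) = ((z : ℝ) ^ u) ^ (1 / A) := by
          rw [← Real.rpow_mul hz0.le, hκ]
          congr 1
          ring
      _ ≤ (Real.log x ^ A) ^ (1 / A) := Real.rpow_le_rpow (by positivity) h1 (by positivity)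
      _ = Real.log x := by
          rw [← Real.rpow_mul (by linarith), mul_one_div_cancel hA.ne', Real.rpow_one]
  have hc2' : Real.log ((R : ℝ) * q) ≤ (z : ℝ) ^ (u + 1) := by
    have h1 : Real.log ((R : ℝ) * q) ≤ Real.log (2 * x) := by
      apply Real.log_le_log
      · linarith
      · linarith
    rw [Real.log_mul (by norm_num) hx0.ne'] at h1
    have h2 : Real.log 2 ≤ 1 := by
      have := Real.log_two_lt_d9
      linarith
    have h3 : ((z : ℝ) + 1) ^ u ≤ 2 ^ u * (z : ℝ) ^ u := by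
      rw [← Real.mul_rpow (by norm_num) hz0.le]
      apply Real.rpow_le_rpow (by positivity) (by linarith) hu0.le
    have h4 : (z : ℝ) ^ (u + 1) = (z : ℝ) ^ u * z := Real.rpow_add_one hz0.ne' u
    have h5 : (2 : ℝ) ^ (u + 1) = 2 ^ u * 2 := Real.rpow_add_one (by norm_num) u
    have h6 : (0 : ℝ) < (z : ℝ) ^ u := by positivity
    have h7 : (z : ℝ) ^ u * (2 ^ u * 2) ≤ (z : ℝ) ^ u * z := by
      rw [← h5]
      exact mul_le_mul_of_nonneg_left hev2 h6.le
    rw [h4]
    linarith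
  have hφ0 : (0 : ℝ) < q.totient := by exact_mod_cast Nat.totient_pos.mpr hq0
  have hlx0 : 0 < Real.log x := by linarith
  obtain ⟨E, hE⟩ : ∃ E : ℝ, E = (1 + ε) * ((R : ℝ) * q) / q.totient / Real.log x := ⟨_, rfl⟩
  have hE0 : 0 ≤ E := by rw [hE]; positivity
  have hEa : ∀ a : ℕ, a.Coprime q →
      (((Ioc (R * q) (2 * (R * q))).filter (fun p => p.Prime ∧ p ≡ a [MOD q])).card : ℝ) ≤ E := by
    intro a ha
    have h1 := hqS ((R : ℝ) * q) (lt_of_lt_of_le hx0 hXge) hc1' hc2' a ha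
    have h2 : ⌊(R : ℝ) * q⌋₊ = R * q := by
      rw [← Nat.cast_mul, Nat.floor_natCast]
    have h3 : ⌊2 * ((R : ℝ) * q)⌋₊ = 2 * (R * q) := by
      have : (2 : ℝ) * ((R : ℝ) * q) = ((2 * (R * q) : ℕ) : ℝ) := by push_cast; ring
      rw [this, Nat.floor_natCast]
    rw [h2, h3] at h1
    rw [hE, le_div_iff₀ hlx0]
    refine le_trans ?_ h1
    rw [← nsmul_eq_mul]
    apply Finset.card_nsmul_le_sum
    intro p hp
    rw [mem_filter, mem_Ioc] at hp
    apply Real.log_le_log hx0
    have h4 : ((R * q : ℕ) : ℝ) < p := by exact_mod_cast hp.1.1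
    push_cast at h4
    linarith
  have hq2 : 2 ≤ q := by
    have h1 : 1 ≤ U := by
      have : (1 : ℝ) ≤ U := hlx.trans hU1
      exact_mod_cast this
    omega
  have hcop : ∀ p : ℕ, p.Prime → R * q < p → p.Coprime q := by
    intro p hp hpq
    rw [Nat.Prime.coprime_iff_not_dvd hp]
    intro h
    have h1 := Nat.le_of_dvd hq0 h
    have h2 : q ≤ R * q := Nat.le_mul_of_pos_left q hR1
    omega
  have hmain := rows_count hq2 hUq hcop hEa hE0
  refine ⟨(Ioo R (2 * R)).image (fun r => r * q), ?_, ?_, ?_, ?_⟩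
  · intro t ht
    rw [mem_image] at ht
    obtain ⟨r, hr, rfl⟩ := ht
    rw [mem_Ioo] at hr
    have h1 : ((R : ℝ)) ≤ r := by exact_mod_cast hr.1.le
    have h2 : (r : ℝ) ≤ 2 * R := by exact_mod_cast hr.2.le
    have h3 := mul_le_mul_of_nonneg_right h1 hqr.le
    have h4 := mul_le_mul_of_nonneg_right h2 hqr.le
    push_cast
    constructor
    · linarith
    · linarith
  · intro t ht t' ht' htt
    rw [mem_image] at ht ht'
    obtain ⟨r, hr, rfl⟩ := ht
    obtain ⟨s', hs, rfl⟩ := ht'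
    have h1 : r < s' := lt_of_mul_lt_mul_right htt (Nat.zero_le q)
    have h2 : (r + 1) * q ≤ s' * q := Nat.mul_le_mul_right q h1
    have h3 : (r + 1) * q = r * q + q := by ring
    omega
  · rw [hTcard]
    linarith
  · refine hmain.trans ?_
    rw [hTcard]
    have h1 := hKz q hqM U hzU1 hzU2
    have h2 : 2 * ((Cq q U).card : ℝ) * E ≤ 2 * (c * U * (q.totient / q)) * E := by
      apply mul_le_mul_of_nonneg_right _ hE0
      linarith
    refine h2.trans ?_
    have h3 : 2 * (c * U * ((q.totient : ℝ) / q)) * E = 2 * U * (c * (1 + ε) * R) / Real.log x := by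
      rw [hE]
      field_simp
    rw [h3]
    have h4 : (R : ℝ) ≤ (1 + ε) * ((R : ℝ) - 1) := by
      have h5 : ε * (1 + 1 / ε) ≤ ε * R := mul_le_mul_of_nonneg_left hRbig hε0.le
      have h6 : ε * (1 + 1 / ε) = ε + 1 := by field_simp
      linarith
    have h5 : c * (1 + ε) * R ≤ kap * ((R : ℝ) - 1) := by
      have hR1' : (0 : ℝ) ≤ (R : ℝ) - 1 := by
        have : (1 : ℝ) ≤ R := by exact_mod_cast hR1
        linarith
      calc c * (1 + ε) * R ≤ c * (1 + ε) * ((1 + ε) * ((R : ℝ) - 1)) :=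
            mul_le_mul_of_nonneg_left h4 (by positivity)
        _ = c * (1 + ε) ^ 2 * ((R : ℝ) - 1) := by ring
        _ ≤ kap * ((R : ℝ) - 1) := mul_le_mul_of_nonneg_right hε2 hR1'
    have h7 : kap * ((R : ℝ) - 1) * (2 * U) / Real.log x = 2 * U * (kap * ((R : ℝ) - 1)) / Real.log x := by
      ring
    rw [h7]
    apply div_le_div_of_nonneg_right _ hlx0.le
    exact mul_le_mul_of_nonneg_left h5 (by positivity)

end Pool.Agent.Work.MP_b0c12c_nt
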