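import Mathlib
import Pool.Agent.Work.MP_b0c12c_nt.Assem2
import Pool.Agent.Work.MP_b0c12c_nt.Dens3
import Pool.Agent.Work.MP_b0c12c_nt_helper70.Region2
import Pool.Agent.Work.MP_b0c12c_nt_helper6.LogD
import Pool.Agent.Work.MP_b0c12c_nt_helper6.GaussPnt

/-!
The uniform prime number theorem (upper bound) for suitable moduli close to primorials,
with `log X` as small as `z^(1+kappa)`: all blocks put together.
-/

namespace Pool.Agent.Work.MP_b0c12c_nt

/-- Uniform upper bound for primes in residue classes modulo `q = primorial z` or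
`primorial z / p`. -/
theorem strong_pnt : Itf2.UniformPntStrong :=
  Assem.uniformPntStrong Pool.Agent.Work.MP_b0c12c_nt_helper70.zeroFree Dens.density
    Pool.Agent.Work.MP_b0c12c_nt_helper6.gaussBound'
    Pool.Agent.Work.MP_b0c12c_nt_helper6.GPnt.gaussPnt

end Pool.Agent.Work.MP_b0c12c_nt
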